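import Pool.Agent.H541.T1.Poro

set_option autoImplicit false

/-!
Upper bound for the dimension of the set of the `β` for which `β * lam n` avoids a relatively dense set
(a set which contains intervals of length `δ` at bounded distances `L`).
-/

namespace Pool.Agent.H541.T1

open Finset Filter Topology Metric MeasureTheory
open scoped ENNReal NNReal

theorem dim_avoid (lam : ℕ → ℝ) (hpos : ∀ n, 0 < lam n) (hlam : Tendsto lam atTop atTop) (C : ℝ)
    (hC : ∀ n, lam (n + 1) ≤ C * lam n) (A : ℕ → Set ℝ) (L δ : ℝ) (hL : 1 ≤ L) (hδ0 : 0 < δ) (hδ1 : δ ≤ 1)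
    (hA : ∀ n x, ∃ s, x ≤ s ∧ s ≤ x + L ∧ Set.Ico s (s + δ) ⊆ A n) :
    dimH {β : ℝ | ∀ᶠ n in atTop, β * lam n ∉ A n} < 1 := by
  have hC1 : 1 ≤ C := by
    by_contra hcon
    push Not at hcon
    have h1 : ∀ n, lam n ≤ lam 0 := by
      intro n
      induction n with
      | zero => exact le_rfl
      | succ n ih =>
        have := hC n
        have := hpos n
        nlinarith
    obtain ⟨n, hn⟩ := (hlam.eventually_gt_atTop (lam 0)).exists
    linarith [h1 n]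
  have hL0 : 0 < L := by linarith
  obtain ⟨B, hB⟩ : ∃ B : ℕ, 2 / δ * C * (L + 2) ≤ B := ⟨_, Nat.le_ceil _⟩
  have hδ2 : 2 ≤ 2 / δ := by
    rw [le_div_iff₀ hδ0]
    linarith
  have h2C : 2 * 1 ≤ 2 / δ * C := mul_le_mul hδ2 hC1 (by norm_num) (by positivity)
  have hB6 : (6 : ℝ) ≤ B := by nlinarith
  have hB2 : 2 ≤ B := by
    have : 6 ≤ B := by exact_mod_cast hB6
    omega
  have hB0 : (0 : ℝ) < B := by linarith
  have hlogB : 0 < Real.log B := Real.log_pos (by linarith)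
  obtain ⟨q, hq⟩ : ∃ q : ℝ≥0, (q : ℝ) = Real.log ((B : ℝ) - 1) / Real.log B :=
    ⟨⟨Real.log ((B : ℝ) - 1) / Real.log B, div_nonneg (Real.log_nonneg (by linarith)) hlogB.le⟩, rfl⟩
  have hq1 : q < 1 := by
    have h1 : (q : ℝ) < 1 := by
      rw [hq, div_lt_one hlogB]
      exact Real.log_lt_log (by linarith) (by linarith)
    exact_mod_cast h1
  have hqB : (B : ℝ) - 1 ≤ (B : ℝ) ^ (q : ℝ) := by
    rw [hq, Real.rpow_def_of_pos hB0, mul_div_cancel₀ _ hlogB.ne', Real.exp_log (by linarith)]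
  refine lt_of_le_of_lt ?_ (show (q : ℝ≥0∞) < 1 by exact_mod_cast hq1)
  have hsub : {β : ℝ | ∀ᶠ n in atTop, β * lam n ∉ A n} ⊆
      ⋃ N : ℕ, {β : ℝ | ∀ n, N ≤ n → β * lam n ∉ A n} := by
    intro β hβ
    obtain ⟨N, hN⟩ := eventually_atTop.1 hβ
    rw [Set.mem_iUnion]
    exact ⟨N, hN⟩
  refine (dimH_mono hsub).trans ?_
  rw [dimH_iUnion]
  apply iSup_le
  intro N
  obtain ⟨m0, hm0⟩ := pow_unbounded_of_one_lt (lam N) (show (1 : ℝ) < B by linarith)
  apply poro_le B hB2 _ m0 _ q hqB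
  intro m hm k
  -- the index
  have hBm : lam N < (B : ℝ) ^ m := lt_of_lt_of_le hm0 (pow_le_pow_right₀ (by linarith) hm)
  have hBm0 : (0 : ℝ) < (B : ℝ) ^ m := by positivity
  have hex : ∃ n, N ≤ n ∧ (L + 2) * (B : ℝ) ^ m ≤ lam n := by
    obtain ⟨n, h1, h2⟩ := ((eventually_ge_atTop N).and
      (hlam.eventually_ge_atTop ((L + 2) * (B : ℝ) ^ m))).exists
    exact ⟨n, h1, h2⟩
  classical
  obtain ⟨n, hn, hnmin⟩ : ∃ n, (N ≤ n ∧ (L + 2) * (B : ℝ) ^ m ≤ lam n) ∧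
      ∀ n', n' < n → ¬ (N ≤ n' ∧ (L + 2) * (B : ℝ) ^ m ≤ lam n') :=
    ⟨Nat.find hex, Nat.find_spec hex, fun n' h => Nat.find_min hex h⟩
  have hNn : N < n := by
    rcases Nat.eq_or_lt_of_le hn.1 with h1 | h1
    · exfalso
      have h2 := hn.2
      rw [← h1] at h2
      nlinarith
    · exact h1
  have hup : lam n ≤ C * ((L + 2) * (B : ℝ) ^ m) := by
    have h1 := hnmin (n - 1) (by omega)
    push Not at h1
    have h2 := h1 (by omega)
    have h3 := hC (n - 1)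
    have h4 : n - 1 + 1 = n := by omega
    rw [h4] at h3
    refine h3.trans ?_
    gcongr
  have hln : 0 < lam n := hpos n
  -- the point of the relatively dense set
  obtain ⟨s, hw1, hw2, hsA⟩ := hA n ((k : ℝ) / (B : ℝ) ^ m * lam n)
  obtain ⟨g, hg⟩ : ∃ g : ℝ, g = s / lam n := ⟨_, rfl⟩
  have hg1 : (k : ℝ) / (B : ℝ) ^ m ≤ g := by
    rw [hg, le_div_iff₀ hln]
    linarith
  have hg2 : g ≤ (k : ℝ) / (B : ℝ) ^ m + L / lam n := by
    rw [hg, div_le_iff₀ hln, add_mul, div_mul_cancel₀ _ hln.ne']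
    linarith
  -- the cell
  obtain ⟨a, ha⟩ : ∃ a : ℤ, a = ⌈g * (B : ℝ) ^ (m + 1)⌉ := ⟨_, rfl⟩
  have ha1 : g * (B : ℝ) ^ (m + 1) ≤ a := by
    rw [ha]
    exact Int.le_ceil _
  have ha2 : (a : ℝ) < g * (B : ℝ) ^ (m + 1) + 1 := by
    rw [ha]
    exact Int.ceil_lt_add_one _
  have hBs : (B : ℝ) ^ (m + 1) = (B : ℝ) ^ m * B := pow_succ _ _
  have hlow : 2 / δ * lam n ≤ (B : ℝ) ^ (m + 1) := by
    rw [hBs]
    calc 2 / δ * lam n ≤ 2 / δ * (C * ((L + 2) * (B : ℝ) ^ m)) := by gcongr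
      _ = (B : ℝ) ^ m * (2 / δ * C * (L + 2)) := by ring
      _ ≤ (B : ℝ) ^ m * B := by gcongr
  have hPl : L / lam n * (B : ℝ) ^ m ≤ L / (L + 2) := by
    rw [div_mul_eq_mul_div, div_le_div_iff₀ hln (by linarith)]
    calc L * (B : ℝ) ^ m * (L + 2) = L * ((L + 2) * (B : ℝ) ^ m) := by ring
      _ ≤ L * lam n := by gcongr; exact hn.2
  refine ⟨(a - k * B).toNat, ?_, ?_⟩
  · -- the cell is in the parent
    have h1 : a < k * B + B := by
      have h2 : (a : ℝ) < ((k * B + B : ℤ) : ℝ) := by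
        push_cast
        have h3 : g * (B : ℝ) ^ (m + 1) ≤ (k : ℝ) * B + L / lam n * (B : ℝ) ^ m * B := by
          calc g * (B : ℝ) ^ (m + 1) ≤ ((k : ℝ) / (B : ℝ) ^ m + L / lam n) * (B : ℝ) ^ (m + 1) := by
                gcongr
            _ = (k : ℝ) * B + L / lam n * (B : ℝ) ^ m * B := by
                rw [hBs]
                field_simp
        have h4 : L / lam n * (B : ℝ) ^ m * B ≤ L / (L + 2) * B := by gcongr
        have h5 : L / (L + 2) * B + 1 ≤ B := by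
          have h6 : L / (L + 2) = 1 - 2 / (L + 2) := by
            field_simp
            ring
          rw [h6]
          have h7 : 1 ≤ 2 / (L + 2) * B := by
            rw [div_mul_eq_mul_div, le_div_iff₀ (by linarith)]
            nlinarith
          linarith
        linarith
      exact_mod_cast h2
    have h2 : k * B ≤ a := by
      have h3 : ((k * B : ℤ) : ℝ) ≤ a := by
        push_cast
        refine le_trans ?_ ha1
        calc (k : ℝ) * B = (k : ℝ) / (B : ℝ) ^ m * (B : ℝ) ^ (m + 1) := by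
              rw [hBs]
              field_simp
          _ ≤ g * (B : ℝ) ^ (m + 1) := by gcongr
      exact_mod_cast h3
    omega
  · intro β hβ hcon
    have h2 : k * B ≤ a := by
      have h3 : ((k * B : ℤ) : ℝ) ≤ a := by
        push_cast
        refine le_trans ?_ ha1
        calc (k : ℝ) * B = (k : ℝ) / (B : ℝ) ^ m * (B : ℝ) ^ (m + 1) := by
              rw [hBs]
              field_simp
          _ ≤ g * (B : ℝ) ^ (m + 1) := by gcongr
      exact_mod_cast h3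
    have h3 : k * (B : ℤ) + ((a - k * B).toNat : ℤ) = a := by omega
    rw [h3] at hcon
    have e1 : (a : ℝ) ≤ β * (B : ℝ) ^ (m + 1) := by
      rw [← hcon]
      exact Int.floor_le _
    have e2 : β * (B : ℝ) ^ (m + 1) < a + 1 := by
      rw [← hcon]
      exact Int.lt_floor_add_one _
    have hBp : (0 : ℝ) < (B : ℝ) ^ (m + 1) := by positivity
    have e3 : g ≤ β := by
      by_contra hcon2
      push Not at hcon2
      have : β * (B : ℝ) ^ (m + 1) < g * (B : ℝ) ^ (m + 1) := by gcongr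
      linarith
    have e4 : β * lam n < g * lam n + δ := by
      have h4 : (β - g) * (B : ℝ) ^ (m + 1) < 2 := by linarith
      have h5 : (β - g) * (2 / δ * lam n) ≤ (β - g) * (B : ℝ) ^ (m + 1) := by
        apply mul_le_mul_of_nonneg_left hlow
        linarith
      have h6 : (β - g) * (2 / δ * lam n) = 2 * ((β - g) * lam n / δ) := by ring
      have h7 : (β - g) * lam n / δ < 1 := by linarith
      rw [div_lt_one hδ0] at h7
      linarith
    have hgl : g * lam n = s := by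
      rw [hg, div_mul_cancel₀ _ hln.ne']
    have e5 : g * lam n ≤ β * lam n := by gcongr
    apply hβ n hn.1
    apply hsA
    constructor
    · linarith
    · linarith

/-- a line with irrational slope meets the boxes around `(P ℤ + 3/2) × (P ℤ + 3/2)` with bounded gaps -/
lemma line_box (γ : ℝ) (hγ : Irrational γ) (P : ℕ) (hP : 1 ≤ P) : ∃ L : ℝ, 1 ≤ L ∧ ∀ x : ℝ, ∃ s : ℝ,
    x ≤ s ∧ s ≤ x + L ∧ (∃ w : ℤ, s = P * w + 3 / 2) ∧ ∃ w : ℤ, |s * γ - (P * w + 3 / 2)| ≤ 1 / 8 := by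
  have hPr : (1 : ℝ) ≤ P := by exact_mod_cast hP
  obtain ⟨q, hq0, -, hq⟩ := Real.exists_nat_abs_mul_sub_round_le γ (n := 8 * P) (by omega)
  obtain ⟨r, hr⟩ : ∃ r : ℤ, r = round ((q : ℝ) * γ) := ⟨_, rfl⟩
  rw [← hr] at hq
  obtain ⟨ρ, hρ⟩ : ∃ ρ : ℝ, ρ = q * γ - r := ⟨_, rfl⟩
  rw [← hρ] at hq
  have hρ0 : ρ ≠ 0 := by
    intro h
    apply hγ
    refine ⟨(r : ℚ) / q, ?_⟩
    push_cast
    have hq' : (q : ℝ) ≠ 0 := by positivity
    rw [div_eq_iff hq']
    linarith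
  have hρ1 : |ρ| ≤ 1 / (8 * P) := by
    refine hq.trans ?_
    push_cast
    apply one_div_le_one_div_of_le (by positivity)
    linarith
  have hρa : 0 < |ρ| := abs_pos.2 hρ0
  have hq1 : (1 : ℝ) ≤ q := by exact_mod_cast hq0
  refine ⟨P * (1 + q * (1 / |ρ| + 1)) + 2, ?_, fun x => ?_⟩
  · have : 0 ≤ (P : ℝ) * (1 + q * (1 / |ρ| + 1)) := by positivity
    linarith
  -- the step
  obtain ⟨w0, hw0⟩ : ∃ w0 : ℤ, w0 = ⌈x / P⌉ := ⟨_, rfl⟩
  obtain ⟨sg, hsg, hsg2⟩ : ∃ sg : ℝ, (sg = 1 ∨ sg = -1) ∧ ρ = sg * |ρ| := by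
    rcases le_or_gt 0 ρ with h | h
    · exact ⟨1, Or.inl rfl, by rw [abs_of_nonneg h, one_mul]⟩
    · exact ⟨-1, Or.inr rfl, by rw [abs_of_neg h]; ring⟩
  obtain ⟨τ, hτ⟩ : ∃ τ : ℝ, τ = (3 / 2 - 3 / 2 * γ) / P := ⟨_, rfl⟩
  obtain ⟨d, hd⟩ : ∃ d : ℝ, d = Int.fract (sg * (τ - γ * w0)) := ⟨_, rfl⟩
  have hd0 : 0 ≤ d := by
    rw [hd]
    exact Int.fract_nonneg _
  have hd1 : d < 1 := by
    rw [hd]
    exact Int.fract_lt_one _
  obtain ⟨j, hj⟩ : ∃ j : ℕ, j = ⌊d / |ρ|⌋₊ := ⟨_, rfl⟩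
  have hj1 : (j : ℝ) * |ρ| ≤ d := by
    rw [← le_div_iff₀ hρa, hj]
    exact Nat.floor_le (by positivity)
  have hj2 : d < ((j : ℝ) + 1) * |ρ| := by
    rw [← div_lt_iff₀ hρa, hj]
    exact Nat.lt_floor_add_one _
  have hj3 : (j : ℝ) ≤ 1 / |ρ| := by
    rw [le_div_iff₀ hρa]
    linarith
  have hx1 : x ≤ P * w0 := by
    have := Int.le_ceil (x / P)
    rw [← hw0, div_le_iff₀ (by linarith)] at this
    linarith
  have hx2 : (P : ℝ) * w0 ≤ x + P := by
    have := (Int.ceil_lt_add_one (x / P)).le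
    rw [← hw0] at this
    have h2 : (P : ℝ) * w0 ≤ P * (x / P + 1) := by gcongr
    have h3 : (P : ℝ) * (x / P + 1) = x + P := by field_simp
    linarith
  refine ⟨P * ((w0 + q * j : ℤ) : ℝ) + 3 / 2, ?_, ?_, ⟨_, rfl⟩, ?_⟩
  · push_cast
    have : 0 ≤ (P : ℝ) * (q * j) := by positivity
    linarith
  · push_cast
    have h1 : (P : ℝ) * (q * j) ≤ P * (q * (1 / |ρ| + 1)) := by
      gcongr
      linarith
    linarith
  · -- the second coordinate
    obtain ⟨e, he⟩ : ∃ e : ℤ, (e : ℝ) = sg * ⌊sg * (τ - γ * w0)⌋ := by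
      rcases hsg with h | h
      · exact ⟨⌊sg * (τ - γ * w0)⌋, by rw [h]; ring⟩
      · exact ⟨-⌊sg * (τ - γ * w0)⌋, by rw [h]; push_cast; ring⟩
    have hsg3 : sg * sg = 1 := by
      rcases hsg with h | h <;> rw [h] <;> norm_num
    have h1 : d = sg * (τ - γ * w0) - ⌊sg * (τ - γ * w0)⌋ := by
      rw [hd]
      rfl
    have h2 : sg * d = τ - γ * w0 - e := by
      rw [h1, he, mul_sub, ← mul_assoc, hsg3, one_mul]
    refine ⟨-e + j * r, ?_⟩
    have h3 : (P * ((w0 + q * j : ℤ) : ℝ) + 3 / 2) * γ - (P * ((-e + j * r : ℤ) : ℝ) + 3 / 2) =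
        P * (sg * (j * |ρ| - d)) := by
      have h4 : (q : ℝ) * γ = ρ + r := by
        rw [hρ]
        ring
      have h5 : P * τ = 3 / 2 - 3 / 2 * γ := by
        rw [hτ, mul_div_cancel₀ _ (by positivity)]
      push_cast
      have h6 : P * (sg * (j * |ρ| - d)) = P * (j * (sg * |ρ|)) - P * (sg * d) := by ring
      rw [h6, ← hsg2, h2]
      have h7 : (P : ℝ) * (τ - γ * w0 - e) = (3 / 2 - 3 / 2 * γ) - P * γ * w0 - P * e := by
        rw [mul_sub, mul_sub, h5]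
        ring
      rw [h7]
      have h8 : (P * ((w0 : ℝ) + q * j) + 3 / 2) * γ = P * γ * w0 + P * j * (q * γ) + 3 / 2 * γ := by ring
      rw [h8, h4]
      ring
    rw [h3, abs_mul, abs_mul]
    have h9 : |sg| = 1 := by
      rcases hsg with h | h <;> rw [h] <;> norm_num
    rw [h9, one_mul, abs_of_nonneg (by positivity : (0 : ℝ) ≤ P)]
    have h10 : |(j : ℝ) * |ρ| - d| ≤ |ρ| := by
      rw [abs_le]
      constructor <;> linarith
    calc (P : ℝ) * |(j : ℝ) * |ρ| - d| ≤ P * (1 / (8 * P)) := by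
          gcongr
          exact h10.trans hρ1
      _ = 1 / 8 := by field_simp

end Pool.Agent.H541.T1
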