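import Pool.Agent.H541.LL.Param

set_option autoImplicit false

/-!
Choice of the parameters for a given small rate, with all primes large.
-/

namespace Pool.Agent.H541.T1

open Finset
open Pool.Agent.H541.LL

/-- reduction of the two conditions to three inequalities -/
lemma cond3 (Q : Finset ℕ) (hQ : ∀ p ∈ Q, p.Prime) (s B M r : ℕ) (K x : ℝ)
    (hx : 144 * M * rho Q ≤ x) (hM : 1 ≤ M) (hx1 : x ≤ 1 / 4) (hxs : 2 * x * s ≤ 1 / 4)
    (hK : 1 ≤ K)
    (h1 : (2 : ℝ) ^ B ≤ rho Q ^ 2 * 2 ^ s)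
    (h2 : 2 * kap Q r K * 2 ^ B ≤ rho Q ^ 3)
    (h3 : ((Pw Q r).card : ℝ) ^ 2 * 2 ^ B ≤ rho Q ^ 3 * 2 ^ (s + s * B)) :
    2 * (18 * M * rho Q) / (1 - 2 * x) ^ s ≤ x / 2 ∧
    2 * eta Q s (s * B) M r K / (1 - 2 * x) ^ (s * B) ≤ x / 4 := by
  have hρ := rho_pos Q hQ
  have hκ := kap_nonneg Q r K hK
  have hMr : (1 : ℝ) ≤ M := by exact_mod_cast hM
  have hy0 : 0 < 1 - 2 * x := by linarith
  have hys : 1 / 2 ≤ (1 - 2 * x) ^ s := by
    have := one_add_mul_le_pow (a := -(2 * x)) (by linarith) s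
    have h4 : 1 + (s : ℝ) * -(2 * x) ≤ (1 - 2 * x) ^ s := by
      rw [sub_eq_add_neg]
      exact this
    linarith
  have hyt : (1 / 2 : ℝ) ^ B ≤ (1 - 2 * x) ^ (s * B) := by
    rw [pow_mul]
    exact pow_le_pow_left₀ (by norm_num) hys B
  set h : ℝ := ((2 ^ (s + 1) + 2 : ℕ) : ℝ) with hh
  have hh2 : 2 * (2 : ℝ) ^ s ≤ h := by
    rw [hh]
    push_cast
    rw [pow_succ]
    linarith
  have h2s : (0 : ℝ) < 2 ^ s := by positivity
  have hh0 : 0 < h := by linarith
  have h2B : (0 : ℝ) < 2 ^ B := by positivity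
  -- first term
  have e1 : 2 * (18 * M * rho Q) / (1 - 2 * x) ^ s ≤ 72 * M * rho Q := by
    rw [div_le_iff₀ (by positivity)]
    have : 72 * M * rho Q * (1 / 2) ≤ 72 * M * rho Q * (1 - 2 * x) ^ s := by gcongr
    linarith
  -- second term
  have e2 : eta Q s (s * B) M r K = 2 * M * (4 / (rho Q * h) + 4 * kap Q r K / rho Q ^ 2 +
      3 * ((Pw Q r).card : ℝ) ^ 2 / (rho Q ^ 2 * 2 ^ (s + s * B))) := by
    rw [eta, Bd, ← hh, pow_succ]
    field_simp
    ring
  have e3 : 4 / (rho Q * h) * 2 ^ B ≤ 2 * rho Q := by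
    rw [div_mul_eq_mul_div, div_le_iff₀ (by positivity)]
    calc 4 * (2 : ℝ) ^ B ≤ 4 * (rho Q ^ 2 * 2 ^ s) := by gcongr
      _ = 2 * rho Q ^ 2 * (2 * 2 ^ s) := by ring
      _ ≤ 2 * rho Q ^ 2 * h := by gcongr
      _ = 2 * rho Q * (rho Q * h) := by ring
  have e4 : 4 * kap Q r K / rho Q ^ 2 * 2 ^ B ≤ 2 * rho Q := by
    rw [div_mul_eq_mul_div, div_le_iff₀ (by positivity)]
    nlinarith
  have e5 : 3 * ((Pw Q r).card : ℝ) ^ 2 / (rho Q ^ 2 * 2 ^ (s + s * B)) * 2 ^ B ≤ 3 * rho Q := by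
    rw [div_mul_eq_mul_div, div_le_iff₀ (by positivity)]
    nlinarith
  have e6 : 2 * eta Q s (s * B) M r K / (1 - 2 * x) ^ (s * B) ≤ 28 * M * rho Q := by
    have e7 : 2 * eta Q s (s * B) M r K / (1 - 2 * x) ^ (s * B) ≤
        2 * eta Q s (s * B) M r K * 2 ^ B := by
      rw [div_le_iff₀ (by positivity)]
      have e9 : 1 ≤ 2 ^ B * (1 - 2 * x) ^ (s * B) := by
        calc (1 : ℝ) = 2 ^ B * (1 / 2) ^ B := by
              rw [← mul_pow]
              norm_num
          _ ≤ 2 ^ B * (1 - 2 * x) ^ (s * B) := by gcongr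
      have e10 : 0 ≤ 2 * eta Q s (s * B) M r K := by
        rw [e2]
        positivity
      calc 2 * eta Q s (s * B) M r K = 2 * eta Q s (s * B) M r K * 1 := by ring
        _ ≤ 2 * eta Q s (s * B) M r K * (2 ^ B * (1 - 2 * x) ^ (s * B)) := by gcongr
        _ = 2 * eta Q s (s * B) M r K * 2 ^ B * (1 - 2 * x) ^ (s * B) := by ring
    refine e7.trans ?_
    rw [e2]
    calc 2 * (2 * M * (4 / (rho Q * h) + 4 * kap Q r K / rho Q ^ 2 +
      3 * ((Pw Q r).card : ℝ) ^ 2 / (rho Q ^ 2 * 2 ^ (s + s * B)))) * 2 ^ B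
        = 4 * M * (4 / (rho Q * h) * 2 ^ B + 4 * kap Q r K / rho Q ^ 2 * 2 ^ B +
      3 * ((Pw Q r).card : ℝ) ^ 2 / (rho Q ^ 2 * 2 ^ (s + s * B)) * 2 ^ B) := by ring
      _ ≤ 4 * M * (2 * rho Q + 2 * rho Q + 3 * rho Q) := by gcongr
      _ = 28 * M * rho Q := by ring
  have hMρ : 0 < M * rho Q := by positivity
  constructor
  · linarith
  · linarith

open Filter in
/-- the parameters exist for all small rates -/
lemma par3 (M w : ℕ) (hM : 1 ≤ M) : ∃ xb : ℝ, 0 < xb ∧ xb ≤ 1 / 16 ∧ ∀ x : ℝ, 0 < x → x ≤ xb →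
    ∃ (Q : Finset ℕ) (s t r : ℕ) (K : ℝ), (∀ p ∈ Q, p.Prime ∧ w < p) ∧ Even r ∧ 1 ≤ K ∧ 1 ≤ s ∧
      1 ≤ t ∧ 2 * (18 * M * rho Q) / (1 - 2 * x) ^ s ≤ x / 2 ∧
      2 * eta Q s t M r K / (1 - 2 * x) ^ t ≤ x / 4 := by
  obtain ⟨C, hC⟩ := Pool.Agent.Helper601.Mertens.mertens_inv
  have hC0 : 0 ≤ C := (abs_nonneg _).trans (hC 3 le_rfl)
  have hMr : (1 : ℝ) ≤ M := by exact_mod_cast hM
  obtain ⟨A, hA⟩ : ∃ A : ℝ, A = 144 * M * Real.exp (C + w) := ⟨_, rfl⟩
  have hexpC : 1 ≤ Real.exp (C + w) := Real.one_le_exp (by positivity)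
  have hA144 : 144 ≤ A := by
    rw [hA]
    nlinarith
  obtain ⟨c, hc⟩ : ∃ c : ℝ, c = 16 * A := ⟨_, rfl⟩
  have hc200 : 200 ≤ c := by linarith
  obtain ⟨b, hb16⟩ : ∃ b : ℕ, 16 * c ≤ b := ⟨⌈16 * c⌉₊, Nat.le_ceil _⟩
  obtain ⟨K, hK⟩ : ∃ K : ℝ, K = 2 ^ (b + 1) := ⟨_, rfl⟩
  have hK1 : 1 ≤ K := by
    rw [hK]
    exact one_le_pow₀ (by norm_num)
  have hlog2a : (1 : ℝ) / 2 ≤ Real.log 2 := by linarith [Real.log_two_gt_d9]
  have hlog2b : Real.log 2 ≤ 1 := by linarith [Real.log_two_lt_d9]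
  have hev : ∀ᶠ L : ℝ in atTop, 2 * c ≤ L ∧
      4 * c * (b * ((8 * K + 12) * (Real.log L + C) + 4) + 4 * (Real.log L + C)) ≤ L ∧
      (b : ℝ) ≤ L ∧ 3 * (Real.log L + C) ≤ L := by
    have h1 := ev_log (4 * c * (b * (8 * K + 12) + 4))
      (4 * c * (b * ((8 * K + 12) * C + 4) + 4 * C))
    have h2 := ev_log 3 (3 * C)
    filter_upwards [eventually_ge_atTop (2 * c), h1, eventually_ge_atTop (b : ℝ), h2] with L h3 h5 h6 h7
    refine ⟨h3, ?_, h6, ?_⟩
    · refine le_trans (le_of_eq ?_) h5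
      ring
    · refine le_trans (le_of_eq ?_) h7
      ring
  obtain ⟨L0, hL0⟩ := eventually_atTop.1 hev
  have hL01 : 0 < max L0 1 := lt_max_of_lt_right one_pos
  refine ⟨min (1 / 16) (A / max L0 1), lt_min (by norm_num) (by positivity), min_le_left _ _, ?_⟩
  intro x hx0 hxb
  have hx16 : x ≤ 1 / 16 := hxb.trans (min_le_left _ _)
  have hxA : L0 ≤ A / x := by
    have h1 : x ≤ A / max L0 1 := hxb.trans (min_le_right _ _)
    rw [le_div_iff₀ hL01] at h1
    rw [le_div_iff₀ hx0]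
    have : L0 * x ≤ max L0 1 * x := mul_le_mul_of_nonneg_right (le_max_left _ _) hx0.le
    linarith
  -- the bound z
  obtain ⟨z, hz⟩ : ∃ z : ℕ, z = ⌈Real.exp (A / x)⌉₊ := ⟨_, rfl⟩
  obtain ⟨L, hL⟩ : ∃ L : ℝ, L = Real.log z := ⟨_, rfl⟩
  have hAx : 144 ≤ A / x := by
    rw [le_div_iff₀ hx0]
    nlinarith
  have hz1 : Real.exp (A / x) ≤ z := by
    rw [hz]
    exact Nat.le_ceil _
  have hz0 : (0 : ℝ) < z := lt_of_lt_of_le (Real.exp_pos _) hz1
  have hz2 : (z : ℝ) ≤ 2 * Real.exp (A / x) := by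
    have h1 : (z : ℝ) < Real.exp (A / x) + 1 := by
      rw [hz]
      exact Nat.ceil_lt_add_one (Real.exp_pos _).le
    have h2 : 1 ≤ Real.exp (A / x) := Real.one_le_exp (by positivity)
    linarith
  have hLge : A / x ≤ L := by
    rw [hL, Real.le_log_iff_exp_le hz0]
    exact hz1
  have hLle : L ≤ 2 * (A / x) := by
    rw [hL]
    have h1 := Real.log_le_log hz0 hz2
    rw [Real.log_mul (by norm_num) (Real.exp_pos _).ne', Real.log_exp] at h1
    linarith
  have hz3 : 3 ≤ z := by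
    have h1 : (3 : ℝ) ≤ z := by
      have := Real.add_one_le_exp (A / x)
      linarith
    exact_mod_cast h1
  obtain ⟨hA1, hA3, hA4, hA5⟩ := hL0 L (hxA.trans hLge)
  obtain ⟨y, hy⟩ : ∃ y : ℝ, y = Real.log L + C := ⟨_, rfl⟩
  rw [← hy] at hA3 hA5
  set Q : Finset ℕ := (Finset.Ioc w z).filter Nat.Prime with hQdef
  have hQp : ∀ p ∈ Q, p.Prime := fun p hp => (mem_filter.1 hp).2
  have hLpos : 0 < L := by linarith
  have hmert := abs_le.1 (hC z hz3)
  rw [← hL] at hmert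
  set Λ : ℝ := ∑ p ∈ Q, 1 / (p : ℝ) with hΛ
  have hΛ1 : Λ ≤ y := by
    have h1 : Λ ≤ ∑ p ∈ (Finset.Icc 1 z).filter Nat.Prime, 1 / (p : ℝ) := by
      apply sum_le_sum_of_subset_of_nonneg
      · intro p hp
        rw [hQdef, mem_filter, mem_Ioc] at hp
        rw [mem_filter, mem_Icc]
        exact ⟨⟨hp.2.one_le, hp.1.2⟩, hp.2⟩
      · intro p _ _
        positivity
    have := hmert.2
    rw [hy]
    linarith
  have hΛ0 : 0 ≤ Λ := sum_nonneg fun p _ => by positivity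
  have hy0 : 0 ≤ y := hΛ0.trans hΛ1
  have hΛw : ∑ p ∈ (Finset.Icc 1 z).filter Nat.Prime, 1 / (p : ℝ) ≤ Λ + w := by
    have h1 : (Finset.Icc 1 z).filter Nat.Prime ⊆ Q ∪ Finset.Icc 1 w := by
      intro p hp
      rw [mem_filter, mem_Icc] at hp
      rw [mem_union, hQdef, mem_filter, mem_Ioc, mem_Icc]
      by_cases h : w < p
      · exact Or.inl ⟨⟨h, hp.1.2⟩, hp.2⟩
      · exact Or.inr ⟨hp.1.1, by omega⟩
    calc ∑ p ∈ (Finset.Icc 1 z).filter Nat.Prime, 1 / (p : ℝ)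
        ≤ ∑ p ∈ Q ∪ Finset.Icc 1 w, 1 / (p : ℝ) :=
          sum_le_sum_of_subset_of_nonneg h1 (fun p _ _ => by positivity)
      _ ≤ Λ + ∑ p ∈ Finset.Icc 1 w, 1 / (p : ℝ) := by
          rw [hΛ]
          have h2 := sum_union_inter (s₁ := Q) (s₂ := Finset.Icc 1 w) (f := fun p : ℕ => 1 / (p : ℝ))
          have h3 : 0 ≤ ∑ p ∈ Q ∩ Finset.Icc 1 w, 1 / (p : ℝ) := sum_nonneg fun p _ => by positivity
          linarith
      _ ≤ Λ + ∑ p ∈ Finset.Icc 1 w, 1 := by
          gcongr with p hp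
          rw [mem_Icc] at hp
          have : (1 : ℝ) ≤ p := by exact_mod_cast hp.1
          rw [div_le_one (by linarith)]
          exact this
      _ = Λ + w := by
          rw [sum_const, Nat.card_Icc]
          simp
  have hρ := rho_pos Q hQp
  have hρ1 : rho Q ≤ Real.exp (C + w) / L := by
    refine (rho_le Q hQp).trans ?_
    have h1 : Real.log L - C - w ≤ Λ := by
      have := hmert.1
      linarith
    calc Real.exp (-Λ) ≤ Real.exp ((C + w) - Real.log L) := Real.exp_le_exp.2 (by linarith)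
      _ = Real.exp (C + w) / L := by rw [Real.exp_sub, Real.exp_log hLpos]
  have hρ2 : Real.exp (-2 * y) ≤ rho Q := by
    refine le_trans ?_ (le_rho Q hQp)
    exact Real.exp_le_exp.2 (by linarith)
  have hxρ : 144 * M * rho Q ≤ x := by
    calc 144 * M * rho Q ≤ 144 * M * (Real.exp (C + w) / L) := by gcongr
      _ = A / L := by
        rw [hA]
        ring
      _ ≤ x := by
        rw [div_le_iff₀ hLpos]
        rw [div_le_iff₀ hx0] at hLge
        linarith
  -- the parameters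
  obtain ⟨s, hsle, hslt⟩ : ∃ s : ℕ, (s : ℝ) ≤ 1 / (8 * x) ∧ 1 / (8 * x) < s + 1 :=
    ⟨⌊1 / (8 * x)⌋₊, Nat.floor_le (by positivity), Nat.lt_floor_add_one _⟩
  have hxs : 2 * x * s ≤ 1 / 4 := by
    calc 2 * x * s ≤ 2 * x * (1 / (8 * x)) := by gcongr
      _ = 1 / 4 := by
        field_simp
        norm_num
  have hs16 : 1 / (16 * x) ≤ s := by
    have h1 : 1 / (8 * x) = 2 * (1 / (16 * x)) := by
      field_simp
      norm_num
    have h2 : 1 ≤ 1 / (16 * x) := by
      rw [le_div_iff₀ (by positivity)]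
      linarith
    linarith
  have hsge2 : L / (2 * c) ≤ s := by
    refine le_trans ?_ hs16
    rw [div_le_div_iff₀ (by linarith) (by positivity)]
    have h1 : L * x ≤ 2 * A := by
      have := mul_le_mul_of_nonneg_right hLle hx0.le
      have h2 : 2 * (A / x) * x = 2 * A := by
        field_simp
      linarith
    rw [hc]
    linarith
  have hs1 : 1 ≤ s := by
    have h1 : 1 ≤ L / (2 * c) := by
      rw [le_div_iff₀ (by linarith)]
      linarith
    have : (1 : ℝ) ≤ s := by linarith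
    exact_mod_cast this
  obtain ⟨r, hre, hrge, hrle⟩ : ∃ r : ℕ, Even r ∧ (8 * K + 12) * y + 2 ≤ r ∧
      (r : ℝ) ≤ (8 * K + 12) * y + 4 := by
    refine ⟨2 * ⌈(4 * K + 6) * y + 1⌉₊, ⟨⌈(4 * K + 6) * y + 1⌉₊, by ring⟩, ?_, ?_⟩
    · have := Nat.le_ceil ((4 * K + 6) * y + 1)
      push_cast
      linarith
    · have := Nat.ceil_lt_add_one (show 0 ≤ (4 * K + 6) * y + 1 by positivity)
      push_cast
      linarith
  have hKy : 0 ≤ (8 * K + 12) * y := by positivity
  have hr2 : (2 : ℝ) ≤ r := by linarith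
  have hB1 : 1 ≤ b * r := by
    have h1 : (1 : ℝ) ≤ b := by linarith
    have h2 : 1 ≤ b := by exact_mod_cast h1
    have h3 : 2 ≤ r := by exact_mod_cast hr2
    nlinarith
  have hsr : L / 4 / c ≤ s * Real.log 2 := by
    have : L / (2 * c) * (1 / 2) ≤ s * Real.log 2 := by gcongr
    refine le_trans (le_of_eq ?_) this
    field_simp
    norm_num
  have e2 : ∀ n : ℕ, (2 : ℝ) ^ n = Real.exp (n * Real.log 2) := by
    intro n
    rw [mul_comm, Real.exp_mul, Real.exp_log (by norm_num), Real.rpow_natCast]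
  have hρ3 : Real.exp (-6 * y) ≤ rho Q ^ 3 := by
    calc Real.exp (-6 * y) = Real.exp (-2 * y) ^ 3 := by
          rw [← Real.exp_nat_mul]
          congr 1
          push_cast
          ring
      _ ≤ rho Q ^ 3 := by gcongr
  refine ⟨Q, s, s * (b * r), r, K, fun p hp => ⟨hQp p hp, ?_⟩, hre, hK1, hs1,
    Nat.one_le_iff_ne_zero.2 (Nat.mul_ne_zero (by omega) (by omega)), ?_⟩
  · rw [hQdef, mem_filter, mem_Ioc] at hp
    exact hp.1.1
  apply cond3 Q hQp s (b * r) M r K x hxρ hM (by linarith) hxs hK1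
  · -- (P1)
    rw [e2, e2]
    calc Real.exp (((b * r : ℕ) : ℝ) * Real.log 2) ≤ Real.exp (-4 * y + s * Real.log 2) := by
          apply Real.exp_le_exp.2
          have h1 : ((b * r : ℕ) : ℝ) * Real.log 2 ≤ b * ((8 * K + 12) * y + 4) := by
            push_cast
            calc (b : ℝ) * r * Real.log 2 ≤ b * r * 1 := by gcongr
              _ = b * r := by ring
              _ ≤ b * ((8 * K + 12) * y + 4) := by gcongr
          have h2 : b * ((8 * K + 12) * y + 4) + 4 * y ≤ L / 4 / c := by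
            rw [div_div, le_div_iff₀ (by positivity)]
            linarith
          linarith
      _ = Real.exp (-2 * y) ^ 2 * Real.exp (s * Real.log 2) := by
          rw [← Real.exp_nat_mul, ← Real.exp_add]
          congr 1
          push_cast
          ring
      _ ≤ rho Q ^ 2 * Real.exp (s * Real.log 2) := by gcongr
  · -- (P2)
    refine le_trans ?_ hρ3
    have h1 := kap_le Q r K hK1
    have h2 : K⁻¹ ^ r * 2 ^ (b * r) = Real.exp (-(r * Real.log 2)) := by
      rw [Real.exp_neg, ← e2, hK, inv_pow, ← pow_mul]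
      have h3 : (b + 1) * r = b * r + r := by ring
      rw [h3, pow_add]
      have : (2 : ℝ) ^ (b * r) ≠ 0 := by positivity
      have : (2 : ℝ) ^ r ≠ 0 := by positivity
      field_simp
    calc 2 * kap Q r K * 2 ^ (b * r) ≤ 2 * (K⁻¹ ^ r * Real.exp (4 * K * Λ)) * 2 ^ (b * r) := by
          gcongr
      _ = 2 * (K⁻¹ ^ r * 2 ^ (b * r)) * Real.exp (4 * K * Λ) := by ring
      _ = Real.exp (Real.log 2) * Real.exp (-(r * Real.log 2)) * Real.exp (4 * K * Λ) := by
          rw [h2, Real.exp_log (by norm_num : (0 : ℝ) < 2)]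
      _ = Real.exp (Real.log 2 + -(r * Real.log 2) + 4 * K * Λ) := by
          rw [Real.exp_add, Real.exp_add]
      _ ≤ Real.exp (-6 * y) := by
          apply Real.exp_le_exp.2
          have h3 : 4 * K * Λ ≤ 4 * K * y := by gcongr
          have h4 : ((8 * K + 12) * y + 2) * (1 / 2) ≤ r * Real.log 2 := by gcongr
          linarith
  · -- (P3)
    have hcard : Q.card + 1 ≤ z := by
      have h1 : Q ⊆ Finset.Icc 2 z := by
        intro p hp
        rw [hQdef, mem_filter, mem_Ioc] at hp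
        rw [mem_Icc]
        exact ⟨hp.2.two_le, hp.1.2⟩
      have h2 := card_le_card h1
      rw [Nat.card_Icc] at h2
      omega
    have hD := pw_card Q r z hcard
    have hD' : ((Pw Q r).card : ℝ) ≤ Real.exp (r * L) := by
      calc ((Pw Q r).card : ℝ) ≤ ((z ^ r : ℕ) : ℝ) := by exact_mod_cast hD
        _ = (z : ℝ) ^ r := by push_cast; rfl
        _ = Real.exp (r * L) := by
          rw [mul_comm, Real.exp_mul, hL, Real.exp_log hz0, Real.rpow_natCast]
    calc ((Pw Q r).card : ℝ) ^ 2 * 2 ^ (b * r) ≤ Real.exp (r * L) ^ 2 * 2 ^ (b * r) := by gcongr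
      _ = Real.exp (2 * (r * L) + ((b * r : ℕ) : ℝ) * Real.log 2) := by
          rw [e2, ← Real.exp_nat_mul, ← Real.exp_add]
          push_cast
          rfl
      _ ≤ Real.exp (-6 * y + ((s + s * (b * r) : ℕ) : ℝ) * Real.log 2) := by
          apply Real.exp_le_exp.2
          have h1 : ((b * r : ℕ) : ℝ) * Real.log 2 ≤ b * r := by
            push_cast
            calc (b : ℝ) * r * Real.log 2 ≤ b * r * 1 := by gcongr
              _ = b * r := by ring
          have h2 : 4 * (L * r) ≤ ((s + s * (b * r) : ℕ) : ℝ) * Real.log 2 := by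
            have h3 : (0 : ℝ) ≤ s * Real.log 2 := by positivity
            calc 4 * (L * r) = L / 4 / c * (16 * c * r) := by
                  field_simp
                  ring
              _ ≤ (s * Real.log 2) * (b * r) := by gcongr
              _ ≤ (s * Real.log 2) * (b * r) + s * Real.log 2 := by linarith
              _ = ((s + s * (b * r) : ℕ) : ℝ) * Real.log 2 := by
                  push_cast
                  ring
          have h4 : (b : ℝ) * r ≤ L * r := by gcongr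
          have h5 : 6 * y ≤ L * r := by nlinarith
          nlinarith
      _ = Real.exp (-6 * y) * 2 ^ (s + s * (b * r)) := by rw [Real.exp_add, e2]
      _ ≤ rho Q ^ 3 * 2 ^ (s + s * (b * r)) := by gcongr

end Pool.Agent.H541.T1
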