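import Pool.Agent.H541.RP.Geo2
import Pool.Agent.H541.T1.Par3

set_option autoImplicit false

/-!
Stages: the parameters are constant on the stages, the rates are halved from one stage to the next.
-/

namespace Pool.Agent.H541.T1

open Finset Metric
open scoped ENNReal
open Pool.Agent.H541.LL
open Pool.Agent.H541.RP (Fe mem_Fe core2)

/-- the growth sequence -/
noncomputable def gr (x : ℕ → ℝ) : ℕ → ℝ
  | 0 => 1
  | n + 1 => 2 * (1 - x (n + 1)) * gr x n

lemma gr_pos (x : ℕ → ℝ) (hx1 : ∀ n, x n ≤ 1 / 2) (n : ℕ) : 0 < gr x n := by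
  induction n with
  | zero => exact one_pos
  | succ n ih =>
    rw [gr]
    have := hx1 (n + 1)
    have h1 : 0 < 1 - x (n + 1) := by linarith
    positivity

lemma gr_pow (x : ℕ → ℝ) (hx1 : ∀ n, x n ≤ 1 / 2) (y : ℝ) (hy : y ≤ 1) (a c : ℕ)
    (h : ∀ k, a < k → k ≤ a + c → x k ≤ y) : 2 ^ c * (1 - y) ^ c * gr x a ≤ gr x (a + c) := by
  induction c with
  | zero => simp
  | succ c ih =>
    have h1 := ih (fun k h1 h2 => h k h1 (by omega))
    have h2 : gr x (a + (c + 1)) = 2 * (1 - x (a + c + 1)) * gr x (a + c) := rfl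
    rw [h2]
    have h3 := h (a + c + 1) (by omega) (by omega)
    have h5 := gr_pos x hx1 a
    have h6 := gr_pos x hx1 (a + c)
    have h7 : 0 ≤ 1 - y := by linarith
    calc 2 ^ (c + 1) * (1 - y) ^ (c + 1) * gr x a
        = 2 * (1 - y) * (2 ^ c * (1 - y) ^ c * gr x a) := by ring
      _ ≤ 2 * (1 - y) * gr x (a + c) := by gcongr
      _ ≤ 2 * (1 - x (a + c + 1)) * gr x (a + c) := by gcongr

/-- the stage of a level -/
def stg (T : ℕ → ℕ) (n : ℕ) : ℕ := Nat.findGreatest (fun i => T i ≤ n) n

lemma stg_le (T : ℕ → ℕ) (n : ℕ) (h : T 0 ≤ n) : T (stg T n) ≤ n :=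
  Nat.findGreatest_spec (P := fun i => T i ≤ n) (Nat.zero_le n) h

lemma lt_stg (T : ℕ → ℕ) (hT : StrictMono T) (n : ℕ) : n < T (stg T n + 1) := by
  by_contra hcon
  push Not at hcon
  have h1 : stg T n + 1 ≤ n := (hT.id_le _).trans hcon
  have h2 := Nat.le_findGreatest (P := fun i => T i ≤ n) h1 hcon
  have h3 : stg T n = Nat.findGreatest (fun i => T i ≤ n) n := rfl
  omega

lemma stg_mono (T : ℕ → ℕ) (hT : StrictMono T) (m n : ℕ) (h : m ≤ n) : stg T m ≤ stg T n := by
  by_contra hcon
  push Not at hcon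
  have h1 := lt_stg T hT n
  have h2 : T (stg T n + 1) ≤ T (stg T m) := hT.monotone hcon
  rcases Nat.lt_or_ge m (T 0) with h3 | h3
  · have h4 : stg T m = 0 := by
      by_contra h5
      have h6 := Nat.findGreatest_of_ne_zero (P := fun i => T i ≤ m) (m := stg T m) (n := m) rfl h5
      have h7 : T 0 ≤ T (stg T m) := hT.monotone (Nat.zero_le _)
      omega
    omega
  · have h4 := stg_le T m h3
    omega

lemma core5 (d : ℝ) (hd0 : 0 < d) (X : ℕ → ℝ) (hX0 : ∀ i, 0 < X i) (hXs : ∀ i, X (i + 1) = X i / 2)
    (hX1 : X 0 ≤ 1 / 4) (hXd : (2 : ℝ) ^ d ≤ 2 * (1 - X 0))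
    (Q : ℕ → Finset ℕ) (s t r M : ℕ → ℕ) (K : ℕ → ℝ) (T : ℕ → ℕ)
    (hQ : ∀ i, ∀ p ∈ Q i, p.Prime) (hr : ∀ i, Even (r i)) (hK : ∀ i, 1 ≤ K i) (hs : ∀ i, 1 ≤ s i)
    (ht : ∀ i, 1 ≤ t i)
    (h1 : ∀ i, 2 * (18 * M i * rho (Q i)) / (1 - 2 * X i) ^ (s i) ≤ X i / 2)
    (h2 : ∀ i, 2 * eta (Q i) (s i) (t i) (M i) (r i) (K i) / (1 - 2 * X i) ^ (t i) ≤ X i / 4)
    (hT0 : 2 * (s 0 + t 0) ≤ T 0) (hTs : ∀ i, T i + 2 * (s (i + 1) + t (i + 1)) ≤ T (i + 1))
    (ι : Type) (lam c : ι → ℝ)
    (hM : ∀ e, T 0 ≤ e → ∃ F : Finset ι, F.card ≤ M (stg T e) ∧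
      ∀ i, (2 : ℝ) ^ e / 2 < lam i → lam i ≤ 2 ^ e → i ∈ F)
    (V : ℕ → Set ℝ)
    (hV : {θ : ℝ | θ ∈ Set.Icc (0 : ℝ) 1 ∧ ∀ n, T 0 ≤ n → ∀ i, (2 : ℝ) ^ n / 2 < lam i → lam i ≤ 2 ^ n →
      ∃ p ∈ Q (stg T n), (p : ℤ) ∣ ⌊θ * lam i + c i⌋} ⊆ ⋃ i, V i) :
    (1 / 12 : ℝ≥0∞) ≤ ∑' i, ediam (V i) ^ d := by
  classical
  have hTm : StrictMono T := strictMono_nat_of_lt_succ fun i => by
    have := hTs i
    have := hs (i + 1)
    omega
  have hXanti : ∀ i j, i ≤ j → X j ≤ X i := by
    intro i j hij
    induction hij with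
    | refl => exact le_rfl
    | step _ ih =>
      rw [hXs]
      have := hX0 i
      have := hX0 ‹ℕ›
      linarith
  have hXle : ∀ i, X i ≤ 1 / 4 := fun i => (hXanti 0 i (Nat.zero_le _)).trans hX1
  have hT2 : ∀ i, 2 * (s i + t i) ≤ T i := by
    intro i
    cases i with
    | zero => exact hT0
    | succ i =>
      have := hTs i
      omega
  set x : ℕ → ℝ := fun n => X (stg T n) with hx
  have hx0 : ∀ n, 0 ≤ x n := fun n => (hX0 _).le
  have hx1 : ∀ n, x n ≤ 1 / 2 := fun n => (hXle _).trans (by norm_num)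
  -- levels above a threshold have small rates
  have hrate : ∀ i k, T (i - 1) ≤ k → x k ≤ 2 * X i := by
    intro i k hk
    cases i with
    | zero =>
      have h3 := hXanti 0 (stg T k) (Nat.zero_le _)
      have := hX0 0
      simp only [hx]
      linarith
    | succ i =>
      simp only [Nat.add_sub_cancel] at hk
      have h3 : i ≤ stg T k := by
        by_contra hcon
        push Not at hcon
        have h4 := lt_stg T hTm k
        have h5 : T (stg T k + 1) ≤ T i := hTm.monotone hcon
        omega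
      have h4 := hXanti i (stg T k) h3
      rw [hXs]
      simp only [hx]
      linarith
  have hTpred : ∀ i, T (i - 1) + (s i + t i) ≤ T i ∨ i = 0 := by
    intro i
    cases i with
    | zero => exact Or.inr rfl
    | succ i =>
      left
      have := hTs i
      simp only [Nat.add_sub_cancel]
      omega
  set Act : ℕ → Prop := fun n => T 0 ≤ n with hAct
  have hact : ∀ e, Act e → 1 ≤ s (stg T e) ∧ 1 ≤ t (stg T e) ∧ 2 * s (stg T e) ≤ e ∧
      s (stg T e) + t (stg T e) ≤ e := by
    intro e he
    have h3 := stg_le T e he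
    have h4 := hT2 (stg T e)
    exact ⟨hs _, ht _, by omega, by omega⟩
  -- windows
  have hwin : ∀ i b c, c ≤ b → (i ≠ 0 → T (i - 1) ≤ b - c) →
      2 ^ c * gr x (b - c) * (1 - 2 * X i) ^ c ≤ gr x b := by
    intro i b c hcb hi
    have h3 := gr_pow x hx1 (2 * X i) (by linarith [hXle i]) (b - c) c (by
      intro k hk1 hk2
      by_cases h0 : i = 0
      · subst h0
        have h3 := hXanti 0 (stg T k) (Nat.zero_le _)
        have := hX0 0
        simp only [hx]
        linarith
      · exact hrate i k (by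
          have := hi h0
          omega))
    have h4 : b - c + c = b := by omega
    rw [h4] at h3
    linarith
  refine core2 x (fun n => s (stg T n)) (fun n => t (stg T n)) (fun n => r (stg T n))
    (fun n => M (stg T n)) (fun n => K (stg T n)) Act (fun n => Q (stg T n)) (fun _ => ∅)
    (gr x) d rfl (fun n => rfl) hx0 (fun n => lt_of_le_of_lt (hx1 n) (by norm_num))
    (fun n => hQ _) (fun n => hr _) (fun n => hK _) (fun n _ m hm => by simp at hm) hact ?_ hd0 ?_
    ι lam c hM V ?_
  · intro n
    obtain ⟨b, hb⟩ : ∃ b, b = n + 1 := ⟨_, rfl⟩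
    rw [← hb]
    have hgb := gr_pos x hx1 b
    have hs2 : ∀ e, Act e → 2 * s (stg T e) ≤ e := fun e he => (hact e he).2.2.1
    have hA : (if Act b then 2 * ((M (stg T b) : ℝ) * (18 * rho (Q (stg T b)) +
        12 * ∑ m ∈ (∅ : Finset ℕ), 1 / (m : ℝ))) * 2 ^ (s (stg T b)) * gr x (b - s (stg T b)) else 0) ≤
        X (stg T b) / 2 * gr x b := by
      split_ifs with hb0
      · obtain ⟨i, hi⟩ : ∃ i, i = stg T b := ⟨_, rfl⟩
        rw [← hi]
        have h3 := stg_le T b hb0
        rw [← hi] at h3
        have h4 := hTpred i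
        have h4' := hT2 i
        have h5 := hwin i b (s i) (by omega) (by
          intro h0
          rcases h4 with h4 | h4
          · omega
          · exact absurd h4 h0)
        have h6 : 0 < (1 - 2 * X i) ^ (s i) := pow_pos (by linarith [hXle i]) _
        have h7 := h1 i
        rw [div_le_iff₀ h6] at h7
        rw [sum_empty, mul_zero, add_zero]
        have h8 : 2 * ((M i : ℝ) * (18 * rho (Q i))) * 2 ^ (s i) * gr x (b - s i) =
            2 * (18 * M i * rho (Q i)) * (2 ^ (s i) * gr x (b - s i)) := by ring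
        rw [h8]
        have h9 : 0 ≤ 2 ^ (s i) * gr x (b - s i) := by
          have := gr_pos x hx1 (b - s i)
          positivity
        calc 2 * (18 * M i * rho (Q i)) * (2 ^ (s i) * gr x (b - s i))
            ≤ (X i / 2 * (1 - 2 * X i) ^ (s i)) * (2 ^ (s i) * gr x (b - s i)) := by gcongr
          _ = X i / 2 * (2 ^ (s i) * gr x (b - s i) * (1 - 2 * X i) ^ (s i)) := by ring
          _ ≤ X i / 2 * gr x b := by
            have := hX0 i
            gcongr
      · have := hX0 (stg T b)
        positivity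
    have hB : ∑ e ∈ Fe Act (fun n => s (stg T n)) b, 2 * eta (Q (stg T e)) (s (stg T e)) (t (stg T e))
        (M (stg T e)) (r (stg T e)) (K (stg T e)) * 2 ^ (t (stg T e)) * gr x (b - t (stg T e)) ≤
        X (stg T b) / 2 * gr x b := by
      have hterm : ∀ e ∈ Fe Act (fun n => s (stg T n)) b,
          2 * eta (Q (stg T e)) (s (stg T e)) (t (stg T e)) (M (stg T e)) (r (stg T e)) (K (stg T e)) *
            2 ^ (t (stg T e)) * gr x (b - t (stg T e)) ≤ X (stg T e) / 4 * gr x b := by
        intro e he
        rw [mem_Fe _ _ _ _ hs2] at he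
        obtain ⟨he1, he2⟩ := he
        obtain ⟨i, hi⟩ : ∃ i, i = stg T e := ⟨_, rfl⟩
        rw [← hi] at he2 ⊢
        have h3 := stg_le T e he1
        rw [← hi] at h3
        have h4 := hTpred i
        have h4' := hT2 i
        have h5 := hwin i b (t i) (by omega) (by
          intro h0
          rcases h4 with h4 | h4
          · omega
          · exact absurd h4 h0)
        have h6 : 0 < (1 - 2 * X i) ^ (t i) := pow_pos (by linarith [hXle i]) _
        have h7 := h2 i
        rw [div_le_iff₀ h6] at h7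
        have h8 : 2 * eta (Q i) (s i) (t i) (M i) (r i) (K i) * 2 ^ (t i) * gr x (b - t i) =
            2 * eta (Q i) (s i) (t i) (M i) (r i) (K i) * (2 ^ (t i) * gr x (b - t i)) := by ring
        rw [h8]
        have h9 : 0 ≤ 2 ^ (t i) * gr x (b - t i) := by
          have := gr_pos x hx1 (b - t i)
          positivity
        calc 2 * eta (Q i) (s i) (t i) (M i) (r i) (K i) * (2 ^ (t i) * gr x (b - t i))
            ≤ (X i / 4 * (1 - 2 * X i) ^ (t i)) * (2 ^ (t i) * gr x (b - t i)) := by gcongr
          _ = X i / 4 * (2 ^ (t i) * gr x (b - t i) * (1 - 2 * X i) ^ (t i)) := by ring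
          _ ≤ X i / 4 * gr x b := by
            have := hX0 i
            gcongr
      -- the stages of the events
      have hst : ∀ e ∈ Fe Act (fun n => s (stg T n)) b, stg T e = stg T b ∨ stg T e = stg T b + 1 := by
        intro e he
        rw [mem_Fe _ _ _ _ hs2] at he
        obtain ⟨he1, he2⟩ := he
        have h3 := stg_le T e he1
        have h4 := hT2 (stg T e)
        have h5 := hTpred (stg T e)
        have h6 : stg T b ≤ stg T e := stg_mono T hTm b e (by omega)
        rcases Nat.eq_or_lt_of_le h6 with h7 | h7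
        · exact Or.inl h7.symm
        · right
          rcases h5 with h5 | h5
          · have h8 : T (stg T e - 1) ≤ b := by omega
            have h9 := lt_stg T hTm b
            by_contra hcon
            have h10 : stg T b + 1 ≤ stg T e - 1 := by omega
            have := hTm.monotone h10
            omega
          · omega
      have hsub : Fe Act (fun n => s (stg T n)) b ⊆ {b + s (stg T b), b + s (stg T b + 1)} := by
        intro e he
        have h3 := hst e he
        rw [mem_Fe _ _ _ _ hs2] at he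
        obtain ⟨he1, he2⟩ := he
        have h4 := (hact e he1).2.2.1
        rw [mem_insert, mem_singleton]
        rcases h3 with h3 | h3
        · left
          rw [← h3]
          omega
        · right
          rw [← h3]
          omega
      have hmap : ∑ e ∈ Fe Act (fun n => s (stg T n)) b, X (stg T e) / 4 * gr x b ≤
          ∑ i ∈ {stg T b, stg T b + 1}, X i / 4 * gr x b := by
        rw [← sum_image (s := Fe Act (fun n => s (stg T n)) b) (g := fun e => stg T e)
          (f := fun i => X i / 4 * gr x b)]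
        · apply sum_le_sum_of_subset_of_nonneg
          · intro i hi
            rw [mem_image] at hi
            obtain ⟨e, he, rfl⟩ := hi
            rw [mem_insert, mem_singleton]
            exact hst e he
          · intro i _ _
            have := hX0 i
            positivity
        · intro e he e' he' hee
          simp only at hee
          have he := Finset.mem_coe.1 he
          have he' := Finset.mem_coe.1 he'
          rw [mem_Fe _ _ _ _ hs2] at he he'
          obtain ⟨he1, he2⟩ := he
          obtain ⟨he3, he4⟩ := he'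
          have h4 := (hact e he1).2.2.1
          have h5 := (hact e' he3).2.2.1
          rw [hee] at he2 h4
          omega
      refine (sum_le_sum hterm).trans (hmap.trans ?_)
      rw [sum_insert (by simp), sum_singleton, hXs]
      have := hX0 (stg T b)
      have h10 : 0 < X (stg T b) * gr x b := by positivity
      nlinarith
    have hC : x b * gr x b = X (stg T b) / 2 * gr x b + X (stg T b) / 2 * gr x b := by
      simp only [hx]
      ring
    rw [hC]
    refine add_le_add ?_ hB
    by_cases h : Act b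
    · rw [if_pos h] at hA ⊢
      exact hA
    · rw [if_neg h] at hA ⊢
      exact hA
  · -- growth
    intro n
    have h3 := gr_pow x hx1 (X 0) (by linarith) 0 n (fun k _ _ => hXanti 0 _ (Nat.zero_le _))
    rw [zero_add] at h3
    have h4 : gr x 0 = 1 := rfl
    rw [h4, mul_one, ← mul_pow] at h3
    refine le_trans ?_ h3
    rw [Real.rpow_mul (by norm_num), Real.rpow_natCast]
    gcongr
  · refine Set.Subset.trans ?_ hV
    rintro θ ⟨h3, h4⟩
    refine ⟨h3, fun n hn i hi1 hi2 => ?_⟩
    exact (h4 n hn i hi1 hi2).1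

end Pool.Agent.H541.T1
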