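import Mathlib

set_option autoImplicit false

/-!
Upper bound for the dimension: bounded prime factors.
-/

namespace Pool.Agent.H541.T1

open Finset Filter Topology Metric MeasureTheory
open scoped ENNReal NNReal

/-- the surviving cells -/
noncomputable def cells (B : ℕ) (bad : ℕ → ℤ → ℕ) (m0 : ℕ) (k0 : ℤ) : ℕ → Finset ℤ
  | 0 => {k0}
  | j + 1 => (cells B bad m0 k0 j).biUnion (fun k =>
      ((range B).filter (fun i => i ≠ bad (m0 + j) k)).image (fun i : ℕ => k * B + (i : ℤ)))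

lemma cells_card (B : ℕ) (bad : ℕ → ℤ → ℕ) (m0 : ℕ) (k0 : ℤ) (hbad : ∀ m k, m0 ≤ m → bad m k < B)
    (j : ℕ) : (cells B bad m0 k0 j).card ≤ (B - 1) ^ j := by
  induction j with
  | zero => simp [cells]
  | succ j ih =>
    rw [cells]
    refine card_biUnion_le.trans ?_
    calc ∑ k ∈ cells B bad m0 k0 j, (((range B).filter (fun i => i ≠ bad (m0 + j) k)).image
          (fun i : ℕ => k * B + (i : ℤ))).card
        ≤ ∑ k ∈ cells B bad m0 k0 j, (B - 1) := by
          apply sum_le_sum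
          intro k _
          refine card_image_le.trans ?_
          rw [filter_ne', card_erase_of_mem (mem_range.2 (hbad _ _ (by omega))), card_range]
      _ = (cells B bad m0 k0 j).card * (B - 1) := by rw [sum_const, smul_eq_mul]
      _ ≤ (B - 1) ^ j * (B - 1) := Nat.mul_le_mul_right _ ih
      _ = (B - 1) ^ (j + 1) := by rw [pow_succ]

lemma poro_le (B : ℕ) (hB : 2 ≤ B) (E : Set ℝ) (m0 : ℕ)
    (h : ∀ m, m0 ≤ m → ∀ k : ℤ, ∃ i : ℕ, i < B ∧ ∀ β ∈ E, ⌊β * (B : ℝ) ^ (m + 1)⌋ ≠ k * B + i)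
    (q : ℝ≥0) (hq : (B : ℝ) - 1 ≤ (B : ℝ) ^ (q : ℝ)) : dimH E ≤ q := by
  have hBr : (2 : ℝ) ≤ B := by exact_mod_cast hB
  have hB0 : (0 : ℝ) < B := by linarith
  have h' : ∀ m : ℕ, ∀ k : ℤ, ∃ i : ℕ, i < B ∧ (m0 ≤ m → ∀ β ∈ E, ⌊β * (B : ℝ) ^ (m + 1)⌋ ≠ k * B + i) := by
    intro m k
    by_cases hm : m0 ≤ m
    · obtain ⟨i, h1, h2⟩ := h m hm k
      exact ⟨i, h1, fun _ => h2⟩
    · exact ⟨0, by omega, fun hm' => absurd hm' hm⟩
  choose bad hbad1 hbad2 using h'
  have hE : E ⊆ ⋃ k0 : ℤ, E ∩ {β | ⌊β * (B : ℝ) ^ m0⌋ = k0} := by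
    intro β hβ
    rw [Set.mem_iUnion]
    exact ⟨_, hβ, rfl⟩
  refine (dimH_mono hE).trans ?_
  rw [dimH_iUnion]
  apply iSup_le
  intro k0
  apply dimH_le_of_hausdorffMeasure_ne_top
  -- survivors
  have hsurv : ∀ j : ℕ, ∀ β ∈ E ∩ {β | ⌊β * (B : ℝ) ^ m0⌋ = k0},
      ⌊β * (B : ℝ) ^ (m0 + j)⌋ ∈ cells B bad m0 k0 j := by
    intro j
    induction j with
    | zero =>
      intro β hβ
      simp only [cells, add_zero, mem_singleton]
      exact hβ.2
    | succ j ih =>
      intro β hβ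
      have h1 := ih β hβ
      obtain ⟨k, hk⟩ : ∃ k : ℤ, k = ⌊β * (B : ℝ) ^ (m0 + j)⌋ := ⟨_, rfl⟩
      obtain ⟨a, ha⟩ : ∃ a : ℤ, a = ⌊β * (B : ℝ) ^ (m0 + (j + 1))⌋ := ⟨_, rfl⟩
      rw [← hk] at h1
      rw [← ha]
      have e1 : (k : ℝ) ≤ β * (B : ℝ) ^ (m0 + j) := by
        rw [hk]
        exact Int.floor_le _
      have e2 : β * (B : ℝ) ^ (m0 + j) < k + 1 := by
        rw [hk]
        exact Int.lt_floor_add_one _
      have e3 : β * (B : ℝ) ^ (m0 + (j + 1)) = (β * (B : ℝ) ^ (m0 + j)) * B := by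
        rw [← add_assoc, pow_succ]
        ring
      have e4 : k * B ≤ a := by
        rw [ha, Int.le_floor, e3]
        push_cast
        gcongr
      have e5 : a < k * B + B := by
        rw [ha, Int.floor_lt, e3]
        push_cast
        calc (β * (B : ℝ) ^ (m0 + j)) * B < (k + 1) * B := by gcongr
          _ = k * B + B := by ring
      rw [cells, mem_biUnion]
      refine ⟨k, h1, ?_⟩
      rw [mem_image]
      refine ⟨(a - k * B).toNat, ?_, ?_⟩
      · rw [mem_filter, mem_range]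
        refine ⟨by omega, fun hcon => ?_⟩
        have h2 := hbad2 (m0 + j) k (by omega) β hβ.1
        apply h2
        rw [← hcon]
        have h3 : ⌊β * (B : ℝ) ^ (m0 + j + 1)⌋ = a := by
          rw [ha, add_assoc]
        rw [h3]
        omega
      · omega
  have hle : μH[(q : ℝ)] (E ∩ {β | ⌊β * (B : ℝ) ^ m0⌋ = k0}) ≤ 1 := by
    have hlim : Tendsto (fun j : ℕ => ENNReal.ofReal (1 / (B : ℝ) ^ (m0 + j))) atTop (𝓝 0) := by
      have h1 : Tendsto (fun j : ℕ => (1 / (B : ℝ)) ^ j) atTop (𝓝 0) :=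
        tendsto_pow_atTop_nhds_zero_of_lt_one (by positivity) (by
          rw [div_lt_one hB0]
          linarith)
      have h2 : Tendsto (fun j : ℕ => 1 / (B : ℝ) ^ (m0 + j)) atTop (𝓝 0) := by
        have h3 := h1.const_mul ((1 / (B : ℝ)) ^ m0)
        rw [mul_zero] at h3
        refine h3.congr fun j => ?_
        rw [← pow_add, one_div_pow]
      have h3 := ENNReal.tendsto_ofReal h2
      rwa [ENNReal.ofReal_zero] at h3
    have hm := Measure.hausdorffMeasure_le_liminf_sum (q : ℝ)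
      (E ∩ {β | ⌊β * (B : ℝ) ^ m0⌋ = k0}) (l := atTop)
      (fun j : ℕ => ENNReal.ofReal (1 / (B : ℝ) ^ (m0 + j))) hlim
      (ι := fun j => {k : ℤ // k ∈ cells B bad m0 k0 j})
      (fun j k => {β : ℝ | ⌊β * (B : ℝ) ^ (m0 + j)⌋ = k.1}) ?_ ?_
    · refine hm.trans ?_
      calc liminf (fun j : ℕ => ∑ k : {k : ℤ // k ∈ cells B bad m0 k0 j},
            ediam {β : ℝ | ⌊β * (B : ℝ) ^ (m0 + j)⌋ = k.1} ^ (q : ℝ)) atTop
          ≤ liminf (fun _ : ℕ => (1 : ℝ≥0∞)) atTop := by
            refine Filter.liminf_le_liminf (Eventually.of_forall fun j => ?_)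
            calc ∑ k : {k : ℤ // k ∈ cells B bad m0 k0 j},
                  ediam {β : ℝ | ⌊β * (B : ℝ) ^ (m0 + j)⌋ = k.1} ^ (q : ℝ)
                ≤ ∑ k : {k : ℤ // k ∈ cells B bad m0 k0 j},
                  ENNReal.ofReal (1 / (B : ℝ) ^ (m0 + j)) ^ (q : ℝ) := by
                  apply sum_le_sum
                  intro k _
                  gcongr
                  calc ediam {β : ℝ | ⌊β * (B : ℝ) ^ (m0 + j)⌋ = k.1}
                      ≤ ediam (Set.Icc ((k.1 : ℝ) / (B : ℝ) ^ (m0 + j))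
                        (((k.1 : ℝ) + 1) / (B : ℝ) ^ (m0 + j))) := by
                        apply ediam_mono
                        intro β hβ
                        have e1 := Int.floor_le (β * (B : ℝ) ^ (m0 + j))
                        have e2 := Int.lt_floor_add_one (β * (B : ℝ) ^ (m0 + j))
                        rw [Set.mem_ofPred_eq] at hβ
                        rw [hβ] at e1 e2
                        constructor
                        · rw [div_le_iff₀ (by positivity)]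
                          exact e1
                        · rw [le_div_iff₀ (by positivity)]
                          exact e2.le
                    _ = ENNReal.ofReal (1 / (B : ℝ) ^ (m0 + j)) := by
                        rw [Real.ediam_Icc]
                        congr 1
                        ring
              _ = ((cells B bad m0 k0 j).card : ℝ≥0∞) *
                  ENNReal.ofReal (1 / (B : ℝ) ^ (m0 + j)) ^ (q : ℝ) := by
                  rw [sum_const, nsmul_eq_mul]
                  congr 2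
                  simp
              _ ≤ (((B - 1) ^ j : ℕ) : ℝ≥0∞) * ENNReal.ofReal (1 / (B : ℝ) ^ (m0 + j)) ^ (q : ℝ) := by
                  gcongr
                  exact cells_card B bad m0 k0 (fun m k _ => hbad1 m k) j
              _ = ENNReal.ofReal (((B : ℝ) - 1) ^ j * (1 / (B : ℝ) ^ (m0 + j)) ^ (q : ℝ)) := by
                  rw [ENNReal.ofReal_rpow_of_nonneg (by positivity) (NNReal.coe_nonneg q),
                    ENNReal.ofReal_mul (pow_nonneg (by linarith) j)]
                  congr 1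
                  rw [← ENNReal.ofReal_natCast]
                  congr 1
                  push_cast
                  rw [Nat.cast_sub (by omega)]
                  simp
              _ ≤ 1 := by
                  rw [← ENNReal.ofReal_one]
                  apply ENNReal.ofReal_le_ofReal
                  have e1 : (1 / (B : ℝ) ^ (m0 + j)) ^ (q : ℝ) ≤ (1 / (B : ℝ) ^ j) ^ (q : ℝ) := by
                    apply Real.rpow_le_rpow (by positivity) _ (NNReal.coe_nonneg q)
                    apply one_div_le_one_div_of_le (by positivity)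
                    exact pow_le_pow_right₀ (by linarith) (by omega)
                  have e2 : (1 / (B : ℝ) ^ j) ^ (q : ℝ) = 1 / ((B : ℝ) ^ (q : ℝ)) ^ j := by
                    rw [one_div, one_div, Real.inv_rpow (by positivity), ← Real.rpow_natCast,
                      ← Real.rpow_natCast, ← Real.rpow_mul hB0.le, ← Real.rpow_mul hB0.le, mul_comm]
                  rw [e2] at e1
                  have e3 : ((B : ℝ) - 1) ^ j ≤ ((B : ℝ) ^ (q : ℝ)) ^ j := by
                    apply pow_le_pow_left₀ (by linarith) hq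
                  have e4 : 0 < ((B : ℝ) ^ (q : ℝ)) ^ j := by positivity
                  calc ((B : ℝ) - 1) ^ j * (1 / (B : ℝ) ^ (m0 + j)) ^ (q : ℝ)
                      ≤ ((B : ℝ) ^ (q : ℝ)) ^ j * (1 / ((B : ℝ) ^ (q : ℝ)) ^ j) := by gcongr
                    _ = 1 := by field_simp
        _ = 1 := liminf_const 1
    · refine Eventually.of_forall fun j k => ?_
      calc ediam {β : ℝ | ⌊β * (B : ℝ) ^ (m0 + j)⌋ = k.1}
          ≤ ediam (Set.Icc ((k.1 : ℝ) / (B : ℝ) ^ (m0 + j))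
            (((k.1 : ℝ) + 1) / (B : ℝ) ^ (m0 + j))) := by
            apply ediam_mono
            intro β hβ
            have e1 := Int.floor_le (β * (B : ℝ) ^ (m0 + j))
            have e2 := Int.lt_floor_add_one (β * (B : ℝ) ^ (m0 + j))
            rw [Set.mem_ofPred_eq] at hβ
            rw [hβ] at e1 e2
            constructor
            · rw [div_le_iff₀ (by positivity)]
              exact e1
            · rw [le_div_iff₀ (by positivity)]
              exact e2.le
        _ = ENNReal.ofReal (1 / (B : ℝ) ^ (m0 + j)) := by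
            rw [Real.ediam_Icc]
            congr 1
            ring
        _ ≤ _ := le_rfl
    · refine Eventually.of_forall fun j β hβ => ?_
      rw [Set.mem_iUnion]
      exact ⟨⟨_, hsurv j β hβ⟩, rfl⟩
  exact ne_top_of_le_ne_top ENNReal.one_ne_top hle

/-- bounded prime factors: the dimension is smaller than one -/
theorem dim_bounded (lam c : ℕ → ℝ) (hpos : ∀ n, 0 < lam n) (hlam : Tendsto lam atTop atTop) (C : ℝ)
    (hC : ∀ n, lam (n + 1) ≤ C * lam n) (Z : ℕ) :
    dimH {β : ℝ | ∀ᶠ n in atTop, ∃ p : ℕ, p.Prime ∧ p ≤ Z ∧ (p : ℤ) ∣ ⌊β * lam n + c n⌋} < 1 := by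
  have hC1 : 1 ≤ C := by
    by_contra hcon
    push Not at hcon
    have h1 : ∀ n, lam n ≤ lam 0 := by
      intro n
      induction n with
      | zero => exact le_rfl
      | succ n ih =>
        have := hC n
        have := hpos n
        nlinarith
    obtain ⟨n, hn⟩ := (hlam.eventually_gt_atTop (lam 0)).exists
    linarith [h1 n]
  obtain ⟨P, hP⟩ : ∃ P : ℕ, P = Z.factorial := ⟨_, rfl⟩
  have hP1 : 1 ≤ P := by
    rw [hP]
    exact Nat.factorial_pos Z
  have hPr : (1 : ℝ) ≤ P := by exact_mod_cast hP1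
  obtain ⟨B, hB⟩ : ∃ B : ℕ, 2 * C * (P + 2) ≤ B := ⟨_, Nat.le_ceil _⟩
  have hB6 : (6 : ℝ) ≤ B := by nlinarith
  have hB2 : 2 ≤ B := by
    have : 6 ≤ B := by exact_mod_cast hB6
    omega
  have hB0 : (0 : ℝ) < B := by linarith
  have hlogB : 0 < Real.log B := Real.log_pos (by linarith)
  obtain ⟨q, hq⟩ : ∃ q : ℝ≥0, (q : ℝ) = Real.log ((B : ℝ) - 1) / Real.log B :=
    ⟨⟨Real.log ((B : ℝ) - 1) / Real.log B, div_nonneg (Real.log_nonneg (by linarith)) hlogB.le⟩, rfl⟩
  have hq1 : q < 1 := by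
    have h1 : (q : ℝ) < 1 := by
      rw [hq, div_lt_one hlogB]
      exact Real.log_lt_log (by linarith) (by linarith)
    exact_mod_cast h1
  have hqB : (B : ℝ) - 1 ≤ (B : ℝ) ^ (q : ℝ) := by
    rw [hq, Real.rpow_def_of_pos hB0, mul_div_cancel₀ _ hlogB.ne', Real.exp_log (by linarith)]
  refine lt_of_le_of_lt ?_ (show (q : ℝ≥0∞) < 1 by exact_mod_cast hq1)
  have hsub : {β : ℝ | ∀ᶠ n in atTop, ∃ p : ℕ, p.Prime ∧ p ≤ Z ∧ (p : ℤ) ∣ ⌊β * lam n + c n⌋} ⊆
      ⋃ N : ℕ, {β : ℝ | ∀ n, N ≤ n → ∃ p : ℕ, p.Prime ∧ p ≤ Z ∧ (p : ℤ) ∣ ⌊β * lam n + c n⌋} := by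
    intro β hβ
    obtain ⟨N, hN⟩ := eventually_atTop.1 hβ
    rw [Set.mem_iUnion]
    exact ⟨N, hN⟩
  refine (dimH_mono hsub).trans ?_
  rw [dimH_iUnion]
  apply iSup_le
  intro N
  obtain ⟨m0, hm0⟩ := pow_unbounded_of_one_lt (lam N) (show (1 : ℝ) < B by linarith)
  apply poro_le B hB2 _ m0 _ q hqB
  intro m hm k
  -- the index
  have hBm : lam N < (B : ℝ) ^ m := lt_of_lt_of_le hm0 (pow_le_pow_right₀ (by linarith) hm)
  have hBm0 : (0 : ℝ) < (B : ℝ) ^ m := by positivity
  have hex : ∃ n, N ≤ n ∧ ((P : ℝ) + 2) * (B : ℝ) ^ m ≤ lam n := by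
    obtain ⟨n, h1, h2⟩ := ((eventually_ge_atTop N).and
      (hlam.eventually_ge_atTop (((P : ℝ) + 2) * (B : ℝ) ^ m))).exists
    exact ⟨n, h1, h2⟩
  classical
  obtain ⟨n, hn, hnmin⟩ : ∃ n, (N ≤ n ∧ ((P : ℝ) + 2) * (B : ℝ) ^ m ≤ lam n) ∧
      ∀ n', n' < n → ¬ (N ≤ n' ∧ ((P : ℝ) + 2) * (B : ℝ) ^ m ≤ lam n') :=
    ⟨Nat.find hex, Nat.find_spec hex, fun n' h => Nat.find_min hex h⟩
  have hNn : N < n := by
    rcases Nat.eq_or_lt_of_le hn.1 with h1 | h1
    · exfalso
      have h2 := hn.2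
      rw [← h1] at h2
      nlinarith
    · exact h1
  have hup : lam n ≤ C * (((P : ℝ) + 2) * (B : ℝ) ^ m) := by
    have h1 := hnmin (n - 1) (by omega)
    push Not at h1
    have h2 := h1 (by omega)
    have h3 := hC (n - 1)
    have h4 : n - 1 + 1 = n := by omega
    rw [h4] at h3
    refine h3.trans ?_
    gcongr
  have hln : 0 < lam n := hpos n
  -- the integer prime to `P`
  obtain ⟨w, hw1, hw2⟩ : ∃ w : ℤ, (k : ℝ) / (B : ℝ) ^ m * lam n + c n ≤ (P : ℝ) * w + 1 ∧
      (P : ℝ) * w + 1 < (k : ℝ) / (B : ℝ) ^ m * lam n + c n + P := by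
    refine ⟨⌈((k : ℝ) / (B : ℝ) ^ m * lam n + c n - 1) / P⌉, ?_, ?_⟩
    · have h1 := Int.le_ceil (((k : ℝ) / (B : ℝ) ^ m * lam n + c n - 1) / P)
      rw [div_le_iff₀ (by linarith)] at h1
      linarith
    · have h1 := Int.ceil_lt_add_one (((k : ℝ) / (B : ℝ) ^ m * lam n + c n - 1) / P)
      have h2 : (P : ℝ) * ⌈((k : ℝ) / (B : ℝ) ^ m * lam n + c n - 1) / P⌉ <
          P * ((((k : ℝ) / (B : ℝ) ^ m * lam n + c n - 1) / P) + 1) := by gcongr
      have h3 : (P : ℝ) * ((((k : ℝ) / (B : ℝ) ^ m * lam n + c n - 1) / P) + 1) =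
          ((k : ℝ) / (B : ℝ) ^ m * lam n + c n - 1) + P := by
        field_simp
      rw [h3] at h2
      linarith
  obtain ⟨g, hg⟩ : ∃ g : ℝ, g = ((P : ℝ) * w + 1 - c n) / lam n := ⟨_, rfl⟩
  have hg1 : (k : ℝ) / (B : ℝ) ^ m ≤ g := by
    rw [hg, le_div_iff₀ hln]
    linarith
  have hg2 : g < (k : ℝ) / (B : ℝ) ^ m + P / lam n := by
    rw [hg, div_lt_iff₀ hln, add_mul, div_mul_cancel₀ _ hln.ne']
    linarith
  -- the cell
  obtain ⟨a, ha⟩ : ∃ a : ℤ, a = ⌈g * (B : ℝ) ^ (m + 1)⌉ := ⟨_, rfl⟩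
  have ha1 : g * (B : ℝ) ^ (m + 1) ≤ a := by
    rw [ha]
    exact Int.le_ceil _
  have ha2 : (a : ℝ) < g * (B : ℝ) ^ (m + 1) + 1 := by
    rw [ha]
    exact Int.ceil_lt_add_one _
  have hBs : (B : ℝ) ^ (m + 1) = (B : ℝ) ^ m * B := pow_succ _ _
  have hlow : 2 * lam n ≤ (B : ℝ) ^ (m + 1) := by
    rw [hBs]
    calc 2 * lam n ≤ 2 * (C * (((P : ℝ) + 2) * (B : ℝ) ^ m)) := by gcongr
      _ = (B : ℝ) ^ m * (2 * C * (P + 2)) := by ring
      _ ≤ (B : ℝ) ^ m * B := by gcongr
  have hPl : P / lam n * (B : ℝ) ^ m ≤ P / (P + 2) := by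
    rw [div_mul_eq_mul_div, div_le_div_iff₀ hln (by linarith)]
    calc (P : ℝ) * (B : ℝ) ^ m * (P + 2) = P * ((P + 2) * (B : ℝ) ^ m) := by ring
      _ ≤ P * lam n := by gcongr; exact hn.2
  refine ⟨(a - k * B).toNat, ?_, ?_⟩
  · -- the cell is in the parent
    have h1 : a < k * B + B := by
      have h2 : (a : ℝ) < ((k * B + B : ℤ) : ℝ) := by
        push_cast
        have h3 : g * (B : ℝ) ^ (m + 1) < (k : ℝ) * B + P / lam n * (B : ℝ) ^ m * B := by
          calc g * (B : ℝ) ^ (m + 1) < ((k : ℝ) / (B : ℝ) ^ m + P / lam n) * (B : ℝ) ^ (m + 1) := by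
                gcongr
            _ = (k : ℝ) * B + P / lam n * (B : ℝ) ^ m * B := by
                rw [hBs]
                field_simp
        have h4 : P / lam n * (B : ℝ) ^ m * B ≤ P / (P + 2) * B := by gcongr
        have h5 : (P : ℝ) / (P + 2) * B + 1 ≤ B := by
          have h6 : (P : ℝ) / (P + 2) = 1 - 2 / (P + 2) := by
            field_simp
            ring
          rw [h6]
          have h7 : 1 ≤ 2 / ((P : ℝ) + 2) * B := by
            rw [div_mul_eq_mul_div, le_div_iff₀ (by linarith)]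
            nlinarith
          linarith
        linarith
      exact_mod_cast h2
    have h2 : k * B ≤ a := by
      have h3 : ((k * B : ℤ) : ℝ) ≤ a := by
        push_cast
        refine le_trans ?_ ha1
        calc (k : ℝ) * B = (k : ℝ) / (B : ℝ) ^ m * (B : ℝ) ^ (m + 1) := by
              rw [hBs]
              field_simp
          _ ≤ g * (B : ℝ) ^ (m + 1) := by gcongr
      exact_mod_cast h3
    omega
  · intro β hβ hcon
    have h2 : k * B ≤ a := by
      have h3 : ((k * B : ℤ) : ℝ) ≤ a := by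
        push_cast
        refine le_trans ?_ ha1
        calc (k : ℝ) * B = (k : ℝ) / (B : ℝ) ^ m * (B : ℝ) ^ (m + 1) := by
              rw [hBs]
              field_simp
          _ ≤ g * (B : ℝ) ^ (m + 1) := by gcongr
      exact_mod_cast h3
    have h3 : k * (B : ℤ) + ((a - k * B).toNat : ℤ) = a := by omega
    rw [h3] at hcon
    have e1 : (a : ℝ) ≤ β * (B : ℝ) ^ (m + 1) := by
      rw [← hcon]
      exact Int.floor_le _
    have e2 : β * (B : ℝ) ^ (m + 1) < a + 1 := by
      rw [← hcon]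
      exact Int.lt_floor_add_one _
    have hBp : (0 : ℝ) < (B : ℝ) ^ (m + 1) := by positivity
    have e3 : g ≤ β := by
      by_contra hcon2
      push Not at hcon2
      have : β * (B : ℝ) ^ (m + 1) < g * (B : ℝ) ^ (m + 1) := by gcongr
      linarith
    have e4 : β * lam n < g * lam n + 1 := by
      have h4 : (β - g) * (B : ℝ) ^ (m + 1) < 2 := by linarith
      have h5 : (β - g) * (2 * lam n) ≤ (β - g) * (B : ℝ) ^ (m + 1) := by
        apply mul_le_mul_of_nonneg_left hlow
        linarith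
      linarith
    have hgl : g * lam n = (P : ℝ) * w + 1 - c n := by
      rw [hg, div_mul_cancel₀ _ hln.ne']
    have e5 : g * lam n ≤ β * lam n := by gcongr
    have hfl : ⌊β * lam n + c n⌋ = (P : ℤ) * w + 1 := by
      rw [Int.floor_eq_iff]
      push_cast
      constructor
      · linarith
      · linarith
    obtain ⟨p, hp1, hp2, hp3⟩ := hβ n hn.1
    rw [hfl] at hp3
    have h6 : (p : ℤ) ∣ (P : ℤ) * w := by
      have h7 : p ∣ P := by
        rw [hP]
        exact (Nat.Prime.dvd_factorial hp1).2 hp2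
      have h8 : (p : ℤ) ∣ (P : ℤ) := by exact_mod_cast h7
      exact h8.mul_right w
    have h7 : (p : ℤ) ∣ 1 := (dvd_add_right h6).1 hp3
    have h8 : p ∣ 1 := by exact_mod_cast h7
    exact hp1.one_lt.ne' (Nat.dvd_one.1 h8)

end Pool.Agent.H541.T1
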