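import Pool.Agent.H541.T1.Dist
import Pool.Agent.H541.T1.Poro

set_option autoImplicit false

/-!
Sequences which at least double from one term to the next.
-/

namespace Pool.Agent.H541.T1

open Finset Filter Topology Metric
open scoped ENNReal NNReal

lemma dbl_pow (lam : ℕ → ℝ) (h : ∀ n, 2 * lam n ≤ lam (n + 1)) (n k : ℕ) :
    2 ^ k * lam n ≤ lam (n + k) := by
  induction k with
  | zero => simp
  | succ k ih =>
    have := h (n + k)
    rw [← add_assoc, pow_succ]
    linarith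

lemma dbl_sparse (lam : ℕ → ℝ) (h : ∀ n, 2 * lam n ≤ lam (n + 1)) (h0 : ∀ n, 0 < lam n) :
    Sparse lam := by
  classical
  refine ⟨1, fun x hx => ?_⟩
  have key : ∀ n m, x / 2 < lam n → lam m ≤ x → ¬ n < m := by
    intro n m h1 h2 hnm
    have h3 := dbl_pow lam h n (m - n)
    have h4 : n + (m - n) = m := by omega
    rw [h4] at h3
    have h5 : (2 : ℝ) ≤ 2 ^ (m - n) := by
      calc (2 : ℝ) = 2 ^ 1 := by norm_num
        _ ≤ 2 ^ (m - n) := pow_le_pow_right₀ (by norm_num) (by omega)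
    have h6 : 2 * lam n ≤ 2 ^ (m - n) * lam n := mul_le_mul_of_nonneg_right h5 (h0 n).le
    linarith
  by_cases hex : ∃ n, x / 2 < lam n ∧ lam n ≤ x
  · obtain ⟨n, h1, h2⟩ := hex
    refine ⟨{n}, by simp, fun m h3 h4 => ?_⟩
    rw [mem_singleton]
    have e1 := key n m h1 h4
    have e2 := key m n h3 h2
    omega
  · exact ⟨∅, by simp, fun m h3 h4 => absurd ⟨m, h3, h4⟩ hex⟩

lemma dbl_tendsto (lam : ℕ → ℝ) (h : ∀ n, 2 * lam n ≤ lam (n + 1)) (h0 : ∀ n, 0 < lam n) :
    Tendsto lam atTop atTop := by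
  have h1 : Tendsto (fun n : ℕ => (2 : ℝ) ^ n * lam 0) atTop atTop :=
    (tendsto_pow_atTop_atTop_of_one_lt (by norm_num)).atTop_mul_const (h0 0)
  apply tendsto_atTop_mono _ h1
  intro n
  have := dbl_pow lam h 0 n
  rwa [zero_add] at this

lemma dbl_grow (lam : ℕ → ℝ) (h : ∀ n, 2 * lam n ≤ lam (n + 1)) (h0 : ∀ n, 0 < lam n) :
    ∀ᶠ n : ℕ in atTop, √(n : ℝ) ≤ Real.log (lam n) := by
  obtain ⟨N, hN⟩ := exists_nat_ge (4 * |Real.log (lam 0)| + 16)
  filter_upwards [eventually_ge_atTop N] with n hn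
  have hnr : 4 * |Real.log (lam 0)| + 16 ≤ n := hN.trans (by exact_mod_cast hn)
  have h1 := dbl_pow lam h 0 n
  rw [zero_add] at h1
  have h2 := Real.log_le_log (mul_pos (by positivity) (h0 0)) h1
  rw [Real.log_mul (by positivity) (h0 0).ne', Real.log_pow] at h2
  have h3 := neg_abs_le (Real.log (lam 0))
  have h4 : (1 : ℝ) / 2 ≤ Real.log 2 := by linarith [Real.log_two_gt_d9]
  have h5 : (n : ℝ) * (1 / 2) ≤ n * Real.log 2 := by gcongr
  have h6 : √(n : ℝ) ≤ n / 4 := by
    have h7 := abs_nonneg (Real.log (lam 0))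
    rw [Real.sqrt_le_left (by positivity)]
    nlinarith
  linarith

lemma grow_up (lam : ℕ → ℝ) (h0 : ∀ n, 0 < lam n) (C : ℝ) (hC : ∀ n, lam (n + 1) ≤ C * lam n) :
    ∀ᶠ n : ℕ in atTop, Real.log (lam n) ≤ (n : ℝ) ^ 2 := by
  have hC0 : 0 < C := by
    by_contra hcon
    push Not at hcon
    have h1 := hC 0
    have h2 := h0 0
    have h3 := h0 (0 + 1)
    nlinarith
  have h1 : ∀ n : ℕ, Real.log (lam n) ≤ n * |Real.log C| + |Real.log (lam 0)| := by
    intro n
    induction n with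
    | zero =>
      have := le_abs_self (Real.log (lam 0))
      simpa using this
    | succ n ih =>
      have h2 := Real.log_le_log (h0 (n + 1)) (hC n)
      rw [Real.log_mul hC0.ne' (h0 n).ne'] at h2
      have h3 := le_abs_self (Real.log C)
      push_cast
      linarith
  obtain ⟨N, hN⟩ := exists_nat_ge (|Real.log C| + |Real.log (lam 0)| + 1)
  filter_upwards [eventually_ge_atTop N] with n hn
  have hnr : |Real.log C| + |Real.log (lam 0)| + 1 ≤ n := hN.trans (by exact_mod_cast hn)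
  have h2 := h1 n
  have h3 := abs_nonneg (Real.log C)
  have h4 := abs_nonneg (Real.log (lam 0))
  nlinarith

end Pool.Agent.H541.T1
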