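import Pool.Agent.H541.T1.Fam6

set_option autoImplicit false

/-!
Distance to the primes.
-/

namespace Pool.Agent.H541.T1

open Finset Filter Topology Metric
open scoped ENNReal NNReal

/-- all integers at distance at most `η log log λ` have small prime factors -/
theorem dim_dist {J : Type} [Countable J] (ε : ℝ) (hε : 0 < ε) (lam : J → ℕ → ℝ)
    (hm : ∀ j, Sparse (lam j)) (hlam : ∀ j, Tendsto (lam j) atTop atTop) :
    ∃ η : J → ℝ, (∀ j, 0 < η j) ∧ ∀ (c : J → ℕ → ℝ) (u v : ℝ), u < v →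
    dimH {β : ℝ | β ∈ Set.Ioo u v ∧ ∀ j, ∀ᶠ n in atTop, ∀ a : ℤ,
      |(a : ℝ) - (β * lam j n + c j n)| ≤ η j * Real.log (Real.log (lam j n)) →
      ∃ p : ℕ, p.Prime ∧ (p : ℝ) ≤ Real.exp (Real.log (lam j n) ^ ε) ∧ (p : ℤ) ∣ a} = 1 := by
  classical
  obtain ⟨κ, hκ0, hκ⟩ := dim_log ε hε
  obtain ⟨f, hf⟩ := Countable.exists_injective_nat J
  choose m hm using hm
  obtain ⟨η, hη⟩ : ∃ η : J → ℝ, ∀ j, η j = κ * (1 / 2) ^ (f j + 1) / (4 * (m j + 1)) := ⟨_, fun _ => rfl⟩
  have hη0 : ∀ j, 0 < η j := fun j => by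
    rw [hη]
    positivity
  refine ⟨η, hη0, fun c u v huv => ?_⟩
  obtain ⟨lam', hlam'⟩ : ∃ lam' : J × ℕ × ℤ → ℝ, ∀ i, lam' i =
      if |(i.2.2 : ℝ)| ≤ η i.1 * Real.log (Real.log (lam i.1 i.2.1)) + 1 then lam i.1 i.2.1 else 0 :=
    ⟨_, fun _ => rfl⟩
  have h1 := hκ (J × ℕ × ℤ) lam' (fun i => c i.1 i.2.1 + i.2.2) (fun i => f i.1) ?_ u v huv
  swap
  · intro j
    by_cases hj : ∃ j' : J, f j' = j
    · obtain ⟨j', rfl⟩ := hj
      have hll : Tendsto (fun x : ℝ => Real.log (Real.log x)) atTop atTop :=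
        Real.tendsto_log_atTop.comp Real.tendsto_log_atTop
      filter_upwards [eventually_gt_atTop (2 * Real.exp 1),
        hll.eventually_ge_atTop (5 * (m j' + 1) / (κ * (1 / 2) ^ (f j' + 1) / 2))] with x hx1 hx2
      have he1 : 0 < Real.exp 1 := Real.exp_pos 1
      have hx0 : 0 < x := by linarith
      obtain ⟨F, hF1, hF2⟩ := hm j' x hx0
      obtain ⟨H, hH⟩ : ∃ H : ℕ, H = ⌊η j' * Real.log (Real.log x) + 1⌋₊ := ⟨_, rfl⟩
      have hlx : 1 < Real.log x := by
        rw [Real.lt_log_iff_exp_lt hx0]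
        linarith
      have hllx : 0 < Real.log (Real.log x) := Real.log_pos hlx
      have hη' := hη0 j'
      have hHle : (H : ℝ) ≤ η j' * Real.log (Real.log x) + 1 := by
        rw [hH]
        exact Nat.floor_le (by positivity)
      refine ⟨(F ×ˢ Finset.Icc (-(H : ℤ)) H).image (fun y => (j', y.1, y.2)), ?_, ?_⟩
      · have h2 : (((F ×ˢ Finset.Icc (-(H : ℤ)) H).image (fun y => (j', y.1, y.2))).card : ℝ) ≤
            m j' * (2 * H + 1) := by
          have h3 : ((F ×ˢ Finset.Icc (-(H : ℤ)) H).image (fun y => (j', y.1, y.2))).card ≤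
              m j' * (2 * H + 1) := by
            refine card_image_le.trans ?_
            rw [card_product]
            apply Nat.mul_le_mul hF1
            rw [Int.card_Icc]
            omega
          exact_mod_cast h3
        refine h2.trans ?_
        have h3 : (m j' : ℝ) * (2 * H + 1) ≤ (m j' + 1) * (2 * (η j' * Real.log (Real.log x) + 1) + 1) := by
          gcongr
          linarith
        refine h3.trans ?_
        have h4 : 0 < κ * (1 / 2) ^ (f j' + 1) / 2 := by positivity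
        rw [div_le_iff₀ h4] at hx2
        have h5 : (m j' + 1) * (2 * (η j' * Real.log (Real.log x) + 1) + 1) =
            κ * (1 / 2) ^ (f j' + 1) / 2 * Real.log (Real.log x) + 3 * (m j' + 1) := by
          rw [hη]
          have : (m j' : ℝ) + 1 ≠ 0 := by positivity
          field_simp
          ring
        rw [h5]
        have h6 : (0 : ℝ) ≤ m j' := by positivity
        linarith
      · intro i hi1 hi2 hi3
        rw [hlam'] at hi2 hi3
        split_ifs at hi2 hi3 with h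
        · have hij : i.1 = j' := hf hi1
          obtain ⟨i1, i2, i3⟩ := i
          simp only at hij h hi2 hi3
          subst hij
          rw [mem_image]
          refine ⟨(i2, i3), ?_, rfl⟩
          rw [mem_product, mem_Icc]
          refine ⟨hF2 _ hi2 hi3, ?_⟩
          have h2 : 1 < Real.log (lam i1 i2) := by
            rw [Real.lt_log_iff_exp_lt (by linarith)]
            linarith
          have h3 : Real.log (Real.log (lam i1 i2)) ≤ Real.log (Real.log x) :=
            Real.log_le_log (by linarith) (Real.log_le_log (by linarith) hi3)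
          have h4 : |(i3 : ℝ)| ≤ η i1 * Real.log (Real.log x) + 1 := by
            refine h.trans ?_
            gcongr
          have h5 : i3.natAbs ≤ H := by
            rw [hH]
            apply Nat.le_floor
            rw [Nat.cast_natAbs]
            push_cast
            exact h4
          simp only
          omega
        · exfalso
          linarith
    · filter_upwards [eventually_gt_atTop (Real.exp 1), (Real.tendsto_log_atTop.comp
        Real.tendsto_log_atTop).eventually_ge_atTop 0] with x hx hx2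
      refine ⟨∅, ?_, fun i hi => absurd ⟨i.1, hi⟩ hj⟩
      rw [card_empty, Nat.cast_zero]
      have h2 : 0 ≤ Real.log (Real.log x) := hx2
      positivity
  apply le_antisymm
  · calc dimH _ ≤ dimH (Set.univ : Set ℝ) := dimH_mono (Set.subset_univ _)
      _ = 1 := Real.dimH_univ
  rw [← h1]
  apply dimH_mono
  rintro β ⟨hβ, h⟩
  refine ⟨hβ, fun j => ?_⟩
  obtain ⟨R, hR⟩ := h (f j)
  filter_upwards [(hlam j).eventually_gt_atTop R] with n hn a ha
  obtain ⟨h', hh'⟩ : ∃ h' : ℤ, h' = a - ⌊β * lam j n + c j n⌋ := ⟨_, rfl⟩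
  have hbd : |(h' : ℝ)| ≤ η j * Real.log (Real.log (lam j n)) + 1 := by
    have h2 : (h' : ℝ) = (a - (β * lam j n + c j n)) +
        ((β * lam j n + c j n) - ⌊β * lam j n + c j n⌋) := by
      rw [hh']
      push_cast
      ring
    rw [h2]
    refine (abs_add_le _ _).trans ?_
    have h3 : |(β * lam j n + c j n) - ⌊β * lam j n + c j n⌋| ≤ 1 := by
      rw [abs_of_nonneg (sub_nonneg.2 (Int.floor_le _))]
      have := Int.lt_floor_add_one (β * lam j n + c j n)
      linarith
    linarith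
  have hl : lam' (j, n, h') = lam j n := by
    rw [hlam', if_pos hbd]
  obtain ⟨p, hp1, hp2, hp3⟩ := hR (j, n, h') rfl (by rw [hl]; exact hn)
  rw [hl] at hp2 hp3
  refine ⟨p, hp1, hp2, ?_⟩
  have h2 : β * lam j n + (c j n + (h' : ℝ)) = (β * lam j n + c j n) + ((h' : ℤ) : ℝ) := by ring
  simp only at hp3
  rw [h2, Int.floor_add_intCast, hh'] at hp3
  have h3 : ⌊β * lam j n + c j n⌋ + (a - ⌊β * lam j n + c j n⌋) = a := by ring
  rwa [h3] at hp3

/-- **composite neighbourhoods**: for `β` in a set of full dimension all integers at distance at most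
`η_j log n` from `⌊β λ_j(n) + c_j(n)⌋` are composite, with a prime factor at most `exp (n ^ ε)`, for all
large `n`, for all `j` -/
theorem dim_comp {J : Type} [Countable J] (ε : ℝ) (hε : 0 < ε) (lam : J → ℕ → ℝ)
    (hm : ∀ j, Sparse (lam j)) (hlam : ∀ j, Tendsto (lam j) atTop atTop)
    (hgrow : ∀ j, ∀ᶠ n : ℕ in atTop, √(n : ℝ) ≤ Real.log (lam j n))
    (hgrow2 : ∀ j, ∀ᶠ n : ℕ in atTop, Real.log (lam j n) ≤ (n : ℝ) ^ 2) :
    ∃ η : J → ℝ, (∀ j, 0 < η j) ∧ ∀ (c : J → ℕ → ℝ),
      (∀ j, Tendsto (fun n => c j n / lam j n) atTop (𝓝 0)) → ∀ u v : ℝ, 0 ≤ u → u < v →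
    dimH {β : ℝ | β ∈ Set.Ioo u v ∧ ∀ j, ∀ᶠ n : ℕ in atTop, ∀ a : ℤ,
      |(a : ℝ) - ⌊β * lam j n + c j n⌋| ≤ η j * Real.log n →
      ∃ p : ℕ, p.Prime ∧ (p : ℝ) ≤ Real.exp ((n : ℝ) ^ ε) ∧ (p : ℤ) ∣ a ∧ (p : ℤ) < a} = 1 := by
  obtain ⟨ε', hε'0, hε'1, hε'2⟩ : ∃ ε' : ℝ, 0 < ε' ∧ ε' ≤ 1 / 2 ∧ 2 * ε' ≤ ε :=
    ⟨min (1 / 2) (ε / 2), lt_min (by norm_num) (by positivity), min_le_left _ _, by
      have := min_le_right (1 / 2) (ε / 2)
      linarith⟩
  obtain ⟨η, hη0, hη⟩ := dim_dist ε' hε'0 lam hm hlam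
  refine ⟨fun j => η j / 4, fun j => by have := hη0 j; positivity, fun c hc u v hu huv => ?_⟩
  apply le_antisymm
  · calc dimH _ ≤ dimH (Set.univ : Set ℝ) := dimH_mono (Set.subset_univ _)
      _ = 1 := Real.dimH_univ
  rw [← hη c u v huv]
  apply dimH_mono
  rintro β ⟨hβ, h⟩
  refine ⟨hβ, fun j => ?_⟩
  have hβ0 : 0 < β := lt_of_le_of_lt hu hβ.1
  have hηj := hη0 j
  -- the values are large
  have h1 := (hc j).eventually_const_lt (show -(β / 4) < 0 by linarith)
  have h2 : Tendsto (fun n => Real.log (lam j n)) atTop atTop := Real.tendsto_log_atTop.comp (hlam j)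
  have h3 : Tendsto (fun n : ℕ => Real.log n) atTop atTop :=
    Real.tendsto_log_atTop.comp tendsto_natCast_atTop_atTop
  filter_upwards [h j, h1, h2.eventually_ge_atTop (max 4 (4 * |Real.log (β / 4)| + 4 * η j)), hgrow j,
    h3.eventually_ge_atTop (4 / η j), eventually_ge_atTop 2, (hlam j).eventually_gt_atTop 0, hgrow2 j]
    with n hn hn1 hn2 hn3 hn4 hn5 hlampos hn6 a hcon
  obtain ⟨L, hL⟩ : ∃ L, L = Real.log (lam j n) := ⟨_, rfl⟩
  rw [← hL] at hn2 hn3 hn hn6
  have hL4 : 4 ≤ L := (le_max_left _ _).trans hn2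
  have hLb : 4 * |Real.log (β / 4)| + 4 * η j ≤ L := (le_max_right _ _).trans hn2
  have hnr : (2 : ℝ) ≤ n := by exact_mod_cast hn5
  have hlamL : lam j n = Real.exp L := by rw [hL, Real.exp_log hlampos]
  obtain ⟨X, hX⟩ : ∃ X, X = β * lam j n + c j n := ⟨_, rfl⟩
  rw [← hX] at hcon hn
  have hlogn : 4 ≤ η j * Real.log n := by
    rw [div_le_iff₀ hηj] at hn4
    linarith
  have hlogL : Real.log n ≤ 2 * Real.log L := by
    have e1 : 0 < √(n : ℝ) := Real.sqrt_pos.2 (by linarith)
    have e2 := Real.log_le_log e1 hn3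
    rw [Real.log_sqrt (by linarith)] at e2
    linarith
  have hqX : |(a : ℝ) - X| ≤ η j * Real.log L := by
    have e1 : (a : ℝ) - X = ((a : ℝ) - ⌊X⌋) - (X - ⌊X⌋) := by ring
    rw [e1]
    refine (abs_sub _ _).trans ?_
    have e2 : |X - ⌊X⌋| ≤ 1 := by
      rw [abs_of_nonneg (sub_nonneg.2 (Int.floor_le _))]
      have := Int.lt_floor_add_one X
      linarith
    have e3 : η j * Real.log n ≤ η j * (2 * Real.log L) := by gcongr
    linarith
  obtain ⟨p, hp1, hp2, hp3⟩ := hn a hqX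
  -- sizes
  have e1 : Real.exp (L ^ ε') ≤ Real.exp (L / 2) := by
    apply Real.exp_le_exp.2
    calc L ^ ε' ≤ L ^ (1 / 2 : ℝ) := Real.rpow_le_rpow_of_exponent_le (by linarith) hε'1
      _ = √L := (Real.sqrt_eq_rpow L).symm
      _ ≤ L / 2 := by
        rw [Real.sqrt_le_left (by linarith)]
        nlinarith
  have e2 : 3 * Real.exp (3 * L / 4) ≤ 3 * β / 4 * Real.exp L := by
    have e3 : Real.exp (-(L / 4)) ≤ β / 4 := by
      rw [← Real.le_log_iff_exp_le (by positivity)]
      have := neg_abs_le (Real.log (β / 4))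
      linarith
    calc 3 * Real.exp (3 * L / 4) = 3 * (Real.exp (-(L / 4)) * Real.exp L) := by
          rw [← Real.exp_add]
          congr 2
          ring
      _ ≤ 3 * (β / 4 * Real.exp L) := by gcongr
      _ = 3 * β / 4 * Real.exp L := by ring
  have e3 : 3 * β / 4 * Real.exp L ≤ X := by
    rw [hX, ← hlamL]
    rw [lt_div_iff₀ hlampos] at hn1
    linarith
  have e4 : η j * Real.log L ≤ Real.exp (3 * L / 4) := by
    have e5 : Real.log L ≤ L := (Real.log_le_sub_one_of_pos (by linarith)).trans (by linarith)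
    have e6 : η j ≤ L / 4 := by
      have := abs_nonneg (Real.log (β / 4))
      linarith
    have e7 := Real.quadratic_le_exp_of_nonneg (show 0 ≤ 3 * L / 4 by linarith)
    have e8 : 0 ≤ Real.log L := Real.log_nonneg (by linarith)
    calc η j * Real.log L ≤ L / 4 * L := by gcongr
      _ ≤ Real.exp (3 * L / 4) := by nlinarith
  have e5 := (abs_le.1 hqX).1
  have e6 : Real.exp (L / 2) ≤ Real.exp (3 * L / 4) := Real.exp_le_exp.2 (by linarith)
  have e7 : 0 < Real.exp (3 * L / 4) := Real.exp_pos _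
  refine ⟨p, hp1, hp2.trans (Real.exp_le_exp.2 ?_), hp3, ?_⟩
  · calc L ^ ε' ≤ ((n : ℝ) ^ 2) ^ ε' := by gcongr
      _ = (n : ℝ) ^ (2 * ε') := by
        rw [← Real.rpow_natCast, ← Real.rpow_mul (by linarith)]
        push_cast
        rfl
      _ ≤ (n : ℝ) ^ ε := Real.rpow_le_rpow_of_exponent_le (by linarith) hε'2
  · have e8 : ((p : ℤ) : ℝ) < (a : ℝ) := by
      push_cast
      linarith
    exact_mod_cast e8

end Pool.Agent.H541.T1
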