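import Pool.Agent.H541.T1.Core5
import Pool.Agent.H541.LL.Plane

set_option autoImplicit false

/-!
Countably many sparse sequences, residue classes, prime factors below a slowly growing bound.
-/

namespace Pool.Agent.H541.T1

open Finset Filter Topology Metric
open scoped ENNReal NNReal
open Pool.Agent.H541.LL

lemma exists_level (X : ℝ) (m : ℕ) (hX : (2 : ℝ) ^ m < X) : ∃ n : ℕ, m < n ∧ (2 : ℝ) ^ n / 2 < X ∧ X ≤ 2 ^ n := by
  classical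
  have hex : ∃ N : ℕ, X ≤ 2 ^ N := by
    obtain ⟨N, hN⟩ := pow_unbounded_of_one_lt X (by norm_num : (1 : ℝ) < 2)
    exact ⟨N, hN.le⟩
  have h1 := Nat.find_spec hex
  have h2 : m < Nat.find hex := by
    by_contra hcon
    push Not at hcon
    have : (2 : ℝ) ^ (Nat.find hex) ≤ 2 ^ m := pow_le_pow_right₀ (by norm_num) hcon
    linarith
  refine ⟨Nat.find hex, h2, ?_, h1⟩
  have h3 := Nat.find_min hex (m := Nat.find hex - 1) (by omega)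
  push Not at h3
  have h4 : (2 : ℝ) ^ (Nat.find hex) / 2 = 2 ^ (Nat.find hex - 1) := by
    have : Nat.find hex = Nat.find hex - 1 + 1 := by omega
    rw [this, pow_succ]
    simp
  rw [h4]
  exact h3

lemma level_unique (X : ℝ) (e f : ℕ) (h1 : (2 : ℝ) ^ e / 2 < X) (h2 : X ≤ 2 ^ e)
    (h3 : (2 : ℝ) ^ f / 2 < X) (h4 : X ≤ 2 ^ f) : e = f := by
  rcases Nat.lt_trichotomy e f with h | h | h
  · exfalso
    have : (2 : ℝ) ^ (e + 1) ≤ 2 ^ f := pow_le_pow_right₀ (by norm_num) h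
    rw [pow_succ] at this
    linarith
  · exact h
  · exfalso
    have : (2 : ℝ) ^ (f + 1) ≤ 2 ^ e := pow_le_pow_right₀ (by norm_num) h
    rw [pow_succ] at this
    linarith

/-- Chinese remainders -/
lemma crt (Q : Finset ℕ) (hQ : ∀ p ∈ Q, p.Prime) (r : ℕ → ℤ) :
    ∃ w : ℤ, ∀ p ∈ Q, (p : ℤ) ∣ w - r p := by
  classical
  induction Q using Finset.induction_on with
  | empty => exact ⟨0, fun p hp => by simp at hp⟩
  | insert q Q hq ih =>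
    obtain ⟨w, hw⟩ := ih fun p hp => hQ p (mem_insert_of_mem hp)
    have hqp := hQ q (mem_insert_self q Q)
    have hcop : Nat.Coprime (∏ p ∈ Q, p) q := by
      apply Nat.Coprime.prod_left
      intro p hp
      rw [Nat.coprime_primes (hQ p (mem_insert_of_mem hp)) hqp]
      rintro rfl
      exact hq hp
    have h1 : IsCoprime ((∏ p ∈ Q, p : ℕ) : ℤ) (q : ℤ) := Nat.isCoprime_iff_coprime.2 hcop
    obtain ⟨a, b, hab⟩ := h1
    refine ⟨w + a * ((∏ p ∈ Q, p : ℕ) : ℤ) * (r q - w), ?_⟩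
    intro p hp
    rw [mem_insert] at hp
    rcases hp with rfl | hp
    · refine ⟨b * (w - r p), ?_⟩
      have h2 : a * ((∏ p ∈ Q, p : ℕ) : ℤ) = 1 - b * p := by linarith
      rw [h2]
      ring
    · have h2 : (p : ℤ) ∣ ((∏ p ∈ Q, p : ℕ) : ℤ) := by exact_mod_cast Finset.dvd_prod_of_mem _ hp
      have h3 : w + a * ((∏ p ∈ Q, p : ℕ) : ℤ) * (r q - w) - r p =
          (w - r p) + ((∏ p ∈ Q, p : ℕ) : ℤ) * (a * (r q - w)) := by ring
      rw [h3]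
      exact dvd_add (hw p hp) (h2.mul_right _)

lemma le_stg (T : ℕ → ℕ) (hT : StrictMono T) (i n : ℕ) (h : T i ≤ n) : i ≤ stg T n := by
  by_contra hcon
  push Not at hcon
  have h1 := lt_stg T hT n
  have h2 : T (stg T n + 1) ≤ T i := hT.monotone hcon
  omega

/-- the data of the stages -/
lemma stages (d : ℝ) (hd1 : d < 1) : ∃ (X : ℕ → ℝ) (Q : ℕ → Finset ℕ) (s t r μ : ℕ → ℕ) (K : ℕ → ℝ),
    (∀ i, 0 < X i) ∧ (∀ i, X (i + 1) = X i / 2) ∧ X 0 ≤ 1 / 4 ∧ (2 : ℝ) ^ d ≤ 2 * (1 - X 0) ∧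
    (∀ i, ∀ p ∈ Q i, p.Prime ∧ μ i < p) ∧ (∀ i, Even (r i)) ∧ (∀ i, 1 ≤ K i) ∧ (∀ i, 1 ≤ s i) ∧
    (∀ i, 1 ≤ t i) ∧ (∀ i, 2 * (18 * μ i * rho (Q i)) / (1 - 2 * X i) ^ (s i) ≤ X i / 2) ∧
    (∀ i, 2 * eta (Q i) (s i) (t i) (μ i) (r i) (K i) / (1 - 2 * X i) ^ (t i) ≤ X i / 4) ∧
    Tendsto μ atTop atTop := by
  classical
  have hch : ∀ m : ℕ, ∃ xb : ℝ, 0 < xb ∧ xb ≤ 1 / 16 ∧ (1 ≤ m → ∀ x : ℝ, 0 < x → x ≤ xb →
    ∃ (Q : Finset ℕ) (s t r : ℕ) (K : ℝ), (∀ p ∈ Q, p.Prime ∧ m < p) ∧ Even r ∧ 1 ≤ K ∧ 1 ≤ s ∧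
      1 ≤ t ∧ 2 * (18 * m * rho Q) / (1 - 2 * x) ^ s ≤ x / 2 ∧
      2 * eta Q s t m r K / (1 - 2 * x) ^ t ≤ x / 4) := by
    intro m
    by_cases hm : 1 ≤ m
    · obtain ⟨xb, h1, h2, h3⟩ := par3 m m hm
      exact ⟨xb, h1, h2, fun _ => h3⟩
    · exact ⟨1 / 16, by norm_num, le_rfl, fun h => absurd h hm⟩
  choose xb hxb0 hxb16 hxb using hch
  have h2d : (2 : ℝ) ^ d < 2 := by
    calc (2 : ℝ) ^ d < 2 ^ (1 : ℝ) := Real.rpow_lt_rpow_of_exponent_lt (by norm_num) hd1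
      _ = 2 := Real.rpow_one 2
  obtain ⟨x0, hx0⟩ : ∃ x0 : ℝ, x0 = min (xb 1) ((2 - (2 : ℝ) ^ d) / 2) := ⟨_, rfl⟩
  have hx00 : 0 < x0 := by
    rw [hx0]
    exact lt_min (hxb0 1) (by linarith)
  obtain ⟨X, hX⟩ : ∃ X : ℕ → ℝ, ∀ i, X i = x0 / 2 ^ i := ⟨_, fun _ => rfl⟩
  have hXp : ∀ i, 0 < X i := fun i => by
    rw [hX]
    positivity
  have hXx : ∀ i, X i ≤ x0 := fun i => by
    rw [hX]
    exact div_le_self hx00.le (one_le_pow₀ (by norm_num))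
  obtain ⟨μ, hμ⟩ : ∃ μ : ℕ → ℕ, ∀ i, μ i = Nat.findGreatest (fun m => 1 ≤ m ∧ X i ≤ xb m) (i + 1) :=
    ⟨_, fun _ => rfl⟩
  have hμs : ∀ i, 1 ≤ μ i ∧ X i ≤ xb (μ i) := by
    intro i
    rw [hμ]
    exact Nat.findGreatest_spec (P := fun m => 1 ≤ m ∧ X i ≤ xb m) (m := 1) (by omega)
      ⟨le_rfl, (hXx i).trans (by rw [hx0]; exact min_le_left _ _)⟩
  have hpar : ∀ i, ∃ (Q : Finset ℕ) (s t r : ℕ) (K : ℝ), (∀ p ∈ Q, p.Prime ∧ μ i < p) ∧ Even r ∧ 1 ≤ K ∧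
      1 ≤ s ∧ 1 ≤ t ∧ 2 * (18 * μ i * rho Q) / (1 - 2 * X i) ^ s ≤ X i / 2 ∧
      2 * eta Q s t (μ i) r K / (1 - 2 * X i) ^ t ≤ X i / 4 :=
    fun i => hxb (μ i) (hμs i).1 (X i) (hXp i) (hμs i).2
  choose Q s t r K h1 h2 h3 h4 h5 h6 h7 using hpar
  refine ⟨X, Q, s, t, r, μ, K, hXp, ?_, ?_, ?_, h1, h2, h3, h4, h5, h6, h7, ?_⟩
  · intro i
    rw [hX, hX, pow_succ]
    field_simp
  · refine (hXx 0).trans ?_
    rw [hx0]
    exact (min_le_left _ _).trans ((hxb16 1).trans (by norm_num))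
  · have h8 : X 0 ≤ (2 - (2 : ℝ) ^ d) / 2 := (hXx 0).trans (by rw [hx0]; exact min_le_right _ _)
    linarith
  · rw [Filter.tendsto_atTop]
    intro m
    have h8 : Tendsto (fun i : ℕ => x0 / (2 : ℝ) ^ i) atTop (𝓝 0) := by
      have := tendsto_pow_atTop_nhds_zero_of_lt_one (r := (1 / 2 : ℝ)) (by norm_num) (by norm_num)
      have h9 := this.const_mul x0
      rw [mul_zero] at h9
      refine h9.congr fun i => ?_
      rw [one_div, inv_pow]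
      rfl
    filter_upwards [h8.eventually_lt_const (hxb0 (m + 1)), eventually_ge_atTop m] with i hi him
    rw [hμ]
    have h9 := Nat.le_findGreatest (P := fun m => 1 ≤ m ∧ X i ≤ xb m) (m := m + 1) (n := i + 1) (by omega)
      ⟨by omega, by rw [hX]; exact hi.le⟩
    omega

theorem fam5 (lam c z : ℕ → ℕ → ℝ) (r : ℕ → ℕ → ℕ → ℤ) (m : ℕ → ℕ)
    (hm : ∀ j e, ∃ F : Finset ℕ, F.card ≤ m j ∧ ∀ n, (2 : ℝ) ^ e / 2 < lam j n → lam j n ≤ 2 ^ e → n ∈ F)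
    (hlam : ∀ j, Tendsto (lam j) atTop atTop) (hz : ∀ j, Tendsto (z j) atTop atTop)
    (d : ℝ) (hd0 : 0 < d) (hd1 : d < 1) (V : ℕ → Set ℝ)
    (hV : {θ : ℝ | θ ∈ Set.Icc (0 : ℝ) 1 ∧ ∀ j W, ∀ᶠ n in atTop, ∃ p : ℕ, p.Prime ∧ W < p ∧
      (p : ℝ) ≤ z j n ∧ (p : ℤ) ∣ ⌊θ * lam j n + c j n⌋ - r j n p} ⊆ ⋃ i, V i) :
    (1 / 12 : ℝ≥0∞) ≤ ∑' i, ediam (V i) ^ d := by
  classical
  obtain ⟨X, Q, s, t, r', μ, K, h1, h2, h3, h4, h5, h6, h7, h8, h9, h10, h11, hμ⟩ := stages d hd1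
  -- number of families
  obtain ⟨J, hJ⟩ : ∃ J : ℕ → ℕ, ∀ i, J i = Nat.findGreatest (fun k => ∑ j ∈ range k, m j ≤ μ i) i :=
    ⟨_, fun _ => rfl⟩
  have hJs : ∀ i, ∑ j ∈ range (J i), m j ≤ μ i := by
    intro i
    rw [hJ]
    exact Nat.findGreatest_spec (P := fun k => ∑ j ∈ range k, m j ≤ μ i) (m := 0) (Nat.zero_le _) (by simp)
  have hJt : ∀ j, ∀ᶠ i in atTop, j < J i := by
    intro j
    filter_upwards [hμ.eventually_ge_atTop (∑ k ∈ range (j + 1), m k), eventually_ge_atTop (j + 1)]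
      with i hi1 hi2
    rw [hJ]
    exact Nat.le_findGreatest (P := fun k => ∑ j ∈ range k, m j ≤ μ i) (m := j + 1) hi2 hi1
  -- thresholds
  have hΘ : ∀ i, ∃ Θ : ℕ, ∀ j, j < J i → ∀ n, (2 : ℝ) ^ Θ / 2 < lam j n → ∀ p ∈ Q i, (p : ℝ) ≤ z j n := by
    intro i
    have hj : ∀ j, ∃ Θ : ℕ, ∀ n, (2 : ℝ) ^ Θ / 2 < lam j n → ∀ p ∈ Q i, (p : ℝ) ≤ z j n := by
      intro j
      obtain ⟨N, hN⟩ := eventually_atTop.1 ((hz j).eventually_ge_atTop (∑ p ∈ Q i, (p : ℝ)))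
      obtain ⟨Θ, hΘ⟩ := pow_unbounded_of_one_lt (2 * ∑ n ∈ range N, |lam j n|) (by norm_num : (1 : ℝ) < 2)
      refine ⟨Θ, fun n hn p hp => ?_⟩
      have h12 : N ≤ n := by
        by_contra hcon
        push Not at hcon
        have h13 : |lam j n| ≤ ∑ n ∈ range N, |lam j n| :=
          single_le_sum (f := fun n => |lam j n|) (fun k _ => abs_nonneg _) (mem_range.2 hcon)
        have h14 := le_abs_self (lam j n)
        linarith
      refine le_trans ?_ (hN n h12)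
      exact single_le_sum (f := fun p : ℕ => (p : ℝ)) (fun k _ => by positivity) hp
    choose Θ hΘ using hj
    refine ⟨∑ j ∈ range (J i), Θ j, fun j hj n hn => hΘ j n (lt_of_le_of_lt ?_ hn)⟩
    have h12 : Θ j ≤ ∑ j ∈ range (J i), Θ j :=
      single_le_sum (f := Θ) (fun k _ => Nat.zero_le _) (mem_range.2 hj)
    have h13 : (2 : ℝ) ^ (Θ j) ≤ 2 ^ (∑ j ∈ range (J i), Θ j) := pow_le_pow_right₀ (by norm_num) h12
    linarith
  choose Θ hΘ using hΘ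
  obtain ⟨T, hT0, hTs⟩ : ∃ T : ℕ → ℕ, T 0 = 2 * (s 0 + t 0) + Θ 0 ∧
      ∀ i, T (i + 1) = T i + 2 * (s (i + 1) + t (i + 1)) + Θ (i + 1) :=
    ⟨fun n => Nat.rec (2 * (s 0 + t 0) + Θ 0) (fun i a => a + 2 * (s (i + 1) + t (i + 1)) + Θ (i + 1)) n,
      rfl, fun _ => rfl⟩
  have hTm : StrictMono T := strictMono_nat_of_lt_succ fun i => by
    have := hTs i
    have := h8 (i + 1)
    omega
  have hTΘ : ∀ i, Θ i ≤ T i := by
    intro i
    cases i with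
    | zero => omega
    | succ i =>
      have := hTs i
      omega
  -- the residue shifts
  have hw : ∀ y : ℕ × ℕ, ∃ w : ℤ, ∀ e, (2 : ℝ) ^ e / 2 < lam y.1 y.2 → lam y.1 y.2 ≤ 2 ^ e →
      ∀ p ∈ Q (stg T e), (p : ℤ) ∣ w - r y.1 y.2 p := by
    intro y
    by_cases h : ∃ e : ℕ, (2 : ℝ) ^ e / 2 < lam y.1 y.2 ∧ lam y.1 y.2 ≤ 2 ^ e
    · obtain ⟨e, he1, he2⟩ := h
      obtain ⟨w, hw⟩ := crt (Q (stg T e)) (fun p hp => (h5 _ p hp).1) (r y.1 y.2)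
      refine ⟨w, fun f hf1 hf2 => ?_⟩
      rw [level_unique _ f e hf1 hf2 he1 he2]
      exact hw
    · exact ⟨0, fun e he1 he2 => absurd ⟨e, he1, he2⟩ h⟩
  choose w hw using hw
  obtain ⟨lam', hlam'⟩ : ∃ lam' : ℕ × ℕ → ℝ, ∀ y, lam' y =
      if ∃ e : ℕ, (2 : ℝ) ^ e / 2 < lam y.1 y.2 ∧ lam y.1 y.2 ≤ 2 ^ e ∧ y.1 < J (stg T e)
      then lam y.1 y.2 else 0 := ⟨_, fun _ => rfl⟩
  refine core5 d hd0 X h1 h2 h3 h4 Q s t r' μ K T (fun i p hp => (h5 i p hp).1) h6 h7 h8 h9 h10 h11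
    (by omega) (fun i => by have := hTs i; omega) (ℕ × ℕ) lam' (fun y => c y.1 y.2 - w y) ?_ V
    (Set.Subset.trans ?_ hV)
  · intro e he
    choose F hF1 hF2 using fun j => hm j e
    refine ⟨(range (J (stg T e))).biUnion (fun j => (F j).image (fun n => (j, n))), ?_, ?_⟩
    · refine card_biUnion_le.trans (le_trans ?_ (hJs _))
      apply sum_le_sum
      intro j _
      exact card_image_le.trans (hF1 j)
    · intro y hy1 hy2
      rw [hlam'] at hy1 hy2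
      split_ifs at hy1 hy2 with h
      · obtain ⟨f, hf1, hf2, hf3⟩ := h
        have hfe := level_unique _ f e hf1 hf2 hy1 hy2
        rw [hfe] at hf3
        rw [mem_biUnion]
        refine ⟨y.1, mem_range.2 hf3, ?_⟩
        rw [mem_image]
        exact ⟨y.2, hF2 _ _ hy1 hy2, rfl⟩
      · exfalso
        have : (0 : ℝ) < 2 ^ e / 2 := by positivity
        linarith
  · rintro θ ⟨hθ1, hθ2⟩
    refine ⟨hθ1, fun j W => ?_⟩
    obtain ⟨I, hI⟩ := eventually_atTop.1 ((hJt j).and (hμ.eventually_ge_atTop W))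
    filter_upwards [(hlam j).eventually_gt_atTop ((2 : ℝ) ^ (T I))] with n hn
    obtain ⟨e, he1, he2, he3⟩ := exists_level _ (T I) hn
    have hIe : I ≤ stg T e := le_stg T hTm I e he1.le
    obtain ⟨hi1, hi2⟩ := hI _ hIe
    have hT0e : T 0 ≤ e := (hTm.monotone (Nat.zero_le I)).trans he1.le
    have hl : lam' (j, n) = lam j n := by
      rw [hlam', if_pos ⟨e, he2, he3, hi1⟩]
    obtain ⟨p, hp1, hp2⟩ := hθ2 e hT0e (j, n) (by rw [hl]; exact he2) (by rw [hl]; exact he3)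
    obtain ⟨hp3, hp4⟩ := h5 _ p hp1
    refine ⟨p, hp3, by omega, ?_, ?_⟩
    · apply hΘ (stg T e) j hi1 n _ p hp1
      refine lt_of_le_of_lt ?_ he2
      have h12 : Θ (stg T e) ≤ e := (hTΘ _).trans (stg_le T e hT0e)
      have h13 : (2 : ℝ) ^ (Θ (stg T e)) ≤ 2 ^ e := pow_le_pow_right₀ (by norm_num) h12
      linarith
    · have h12 : θ * lam' (j, n) + (c j n - w (j, n)) = θ * lam j n + c j n - ((w (j, n) : ℤ) : ℝ) := by
        rw [hl]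
        ring
      simp only at hp2
      rw [h12, Int.floor_sub_intCast] at hp2
      have h13 := hw (j, n) e he2 he3 p hp1
      simp only at h13
      have h14 : ⌊θ * lam j n + c j n⌋ - r j n p = (⌊θ * lam j n + c j n⌋ - w (j, n)) +
          (w (j, n) - r j n p) := by ring
      rw [h14]
      exact dvd_add hp2 h13

/-- at most `m` terms between `x / 2` and `x` -/
def Sparse (lam : ℕ → ℝ) : Prop := ∃ m : ℕ, ∀ x : ℝ, 0 < x →
  ∃ F : Finset ℕ, F.card ≤ m ∧ ∀ n, x / 2 < lam n → lam n ≤ x → n ∈ F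

theorem dim_nat5 (lam c z : ℕ → ℕ → ℝ) (r : ℕ → ℕ → ℕ → ℤ) (hm : ∀ j, Sparse (lam j))
    (hlam : ∀ j, Tendsto (lam j) atTop atTop) (hz : ∀ j, Tendsto (z j) atTop atTop)
    (u v : ℝ) (huv : u < v) :
    dimH {β : ℝ | β ∈ Set.Ioo u v ∧ ∀ j W, ∀ᶠ n in atTop, ∃ p : ℕ, p.Prime ∧ W < p ∧
      (p : ℝ) ≤ z j n ∧ (p : ℤ) ∣ ⌊β * lam j n + c j n⌋ - r j n p} = 1 := by
  apply le_antisymm
  · calc dimH _ ≤ dimH (Set.univ : Set ℝ) := dimH_mono (Set.subset_univ _)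
      _ = 1 := Real.dimH_univ
  apply le_of_forall_lt
  intro a ha
  have ha' : a ≠ ∞ := ne_top_of_lt ha
  lift a to ℝ≥0 using ha' with q
  have hq1 : q < 1 := by exact_mod_cast ha
  obtain ⟨d, hd1, hd2⟩ := exists_between hq1
  have hd0 : 0 < d := lt_of_le_of_lt bot_le hd1
  refine lt_of_lt_of_le (show (q : ℝ≥0∞) < d by exact_mod_cast hd1) ?_
  obtain ⟨ℓ, hℓ⟩ : ∃ ℓ : ℝ, ℓ = (v - u) / 3 := ⟨_, rfl⟩
  have hℓ0 : 0 < ℓ := by
    rw [hℓ]
    linarith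
  choose m hm using hm
  set S : Set ℝ := {θ : ℝ | θ ∈ Set.Icc (0 : ℝ) 1 ∧ ∀ j W, ∀ᶠ n in atTop, ∃ p : ℕ, p.Prime ∧ W < p ∧
      (p : ℝ) ≤ z j n ∧ (p : ℤ) ∣ ⌊θ * (ℓ * lam j n) + ((u + ℓ) * lam j n + c j n)⌋ - r j n p} with hS
  have hdimS : (d : ℝ≥0∞) ≤ dimH S := by
    apply Pool.Agent.H541.LL.le_dimH_of_content d hd0 (1 / 12 : ℝ≥0∞) (by norm_num)
    intro V hV
    refine fam5 (fun j n => ℓ * lam j n) (fun j n => (u + ℓ) * lam j n + c j n) z r m ?_ ?_ hz d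
      (by exact_mod_cast hd0) (by exact_mod_cast hd2) V hV
    · intro j e
      obtain ⟨F, hF1, hF2⟩ := hm j ((2 : ℝ) ^ e / ℓ) (by positivity)
      refine ⟨F, hF1, fun n h1 h2 => hF2 n ?_ ?_⟩
      · rw [div_div, div_lt_iff₀ (by positivity)]
        linarith
      · rw [le_div_iff₀ hℓ0]
        linarith
    · intro j
      exact (hlam j).const_mul_atTop hℓ0
  have hanti : AntilipschitzWith (Real.toNNReal (1 / ℓ)) (fun θ : ℝ => (u + ℓ) + ℓ * θ) := by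
    apply AntilipschitzWith.of_le_mul_dist
    intro x y
    rw [Real.coe_toNNReal _ (by positivity), Real.dist_eq, Real.dist_eq]
    have e1 : (u + ℓ + ℓ * x) - (u + ℓ + ℓ * y) = ℓ * (x - y) := by ring
    rw [e1, abs_mul, abs_of_pos hℓ0]
    apply le_of_eq
    field_simp
  refine hdimS.trans ((hanti.le_dimH_image S).trans (dimH_mono ?_))
  rintro _ ⟨θ, ⟨⟨hθ0, hθ1⟩, hθ⟩, rfl⟩
  have hp1 : 0 ≤ ℓ * θ := mul_nonneg hℓ0.le hθ0
  have hp2 : ℓ * θ ≤ ℓ := by nlinarith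
  refine ⟨⟨?_, ?_⟩, ?_⟩
  · simp only
    linarith
  · simp only
    rw [hℓ] at *
    linarith
  intro j W
  have hval : ∀ n, (u + ℓ + ℓ * θ) * lam j n + c j n =
      θ * (ℓ * lam j n) + ((u + ℓ) * lam j n + c j n) := by
    intro n
    ring
  simp only [hval]
  exact hθ j W

/-- **full dimension**: countably many sparse sequences, all residue classes, prime factors in
`(W, z n]` for every `W` and every `z n → ∞` -/
theorem dim_fam {J : Type} [Countable J] (lam c z : J → ℕ → ℝ) (r : J → ℕ → ℕ → ℤ)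
    (hm : ∀ j, Sparse (lam j)) (hlam : ∀ j, Tendsto (lam j) atTop atTop)
    (hz : ∀ j, Tendsto (z j) atTop atTop) (u v : ℝ) (huv : u < v) :
    dimH {β : ℝ | β ∈ Set.Ioo u v ∧ ∀ j W, ∀ᶠ n in atTop, ∃ p : ℕ, p.Prime ∧ W < p ∧
      (p : ℝ) ≤ z j n ∧ (p : ℤ) ∣ ⌊β * lam j n + c j n⌋ - r j n p} = 1 := by
  rcases isEmpty_or_nonempty J with hJ | hJ
  · have h1 : {β : ℝ | β ∈ Set.Ioo u v ∧ ∀ (j : J) (W : ℕ), ∀ᶠ n in atTop, ∃ p : ℕ, p.Prime ∧ W < p ∧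
      (p : ℝ) ≤ z j n ∧ (p : ℤ) ∣ ⌊β * lam j n + c j n⌋ - r j n p} = Set.Ioo u v := by
      ext β
      constructor
      · exact fun h => h.1
      · exact fun h => ⟨h, fun j => isEmptyElim j⟩
    rw [h1]
    have h2 : (interior (Set.Ioo u v)).Nonempty := by
      rw [interior_Ioo]
      exact Set.nonempty_Ioo.2 huv
    rw [Real.dimH_of_nonempty_interior h2]
    simp
  · obtain ⟨f, hf⟩ := exists_surjective_nat J
    rw [← dim_nat5 (fun n => lam (f n)) (fun n => c (f n)) (fun n => z (f n)) (fun n => r (f n))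
      (fun n => hm _) (fun n => hlam _) (fun n => hz _) u v huv]
    congr 1
    ext β
    constructor
    · rintro ⟨h1, h2⟩
      exact ⟨h1, fun j => h2 (f j)⟩
    · rintro ⟨h1, h2⟩
      refine ⟨h1, fun j => ?_⟩
      obtain ⟨n, rfl⟩ := hf j
      exact h2 n

end Pool.Agent.H541.T1
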