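import Pool.Agent.H541.T1.Par3

set_option autoImplicit false

/-!
Explicit choice of the parameters.
-/

namespace Pool.Agent.H541.T1

open Finset
open Pool.Agent.H541.LL

/-- the conditions on `L`, explicitly -/
lemma big_L (C c : ℝ) (hC : 0 ≤ C) (hc : 200 ≤ c) (b : ℕ) (hcb : c ≤ b) (K : ℝ) (hK : K = 2 ^ (b + 1))
    (L : ℝ) (hL : (560 + 112 * C) ^ 2 * K ^ 4 ≤ L) :
    2 * c ≤ L ∧ 4 * c * (b * ((8 * K + 12) * (Real.log L + C) + 4) + 4 * (Real.log L + C)) ≤ L ∧
      (b : ℝ) ≤ L ∧ 3 * (Real.log L + C) ≤ L := by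
  have hb200 : (200 : ℝ) ≤ b := by linarith
  have hbK : (b : ℝ) ≤ K := by
    rw [hK]
    have h1 : b < 2 ^ (b + 1) := (Nat.lt_succ_self b).trans Nat.lt_two_pow_self
    have h2 : ((b : ℕ) : ℝ) < ((2 ^ (b + 1) : ℕ) : ℝ) := by exact_mod_cast h1
    push_cast at h2
    exact h2.le
  have hK200 : 200 ≤ K := hb200.trans hbK
  have hK0 : 0 < K := by linarith
  have hD0 : 0 ≤ 112 * C := by positivity
  have hL1 : K ^ 4 ≤ L := by
    refine le_trans ?_ hL
    have h1 : (1 : ℝ) ≤ (560 + 112 * C) ^ 2 := by nlinarith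
    have h2 : 0 < K ^ 4 := by positivity
    nlinarith
  have hKK : K ≤ K ^ 4 := le_self_pow₀ (by linarith) (by norm_num)
  have hK2 : 200 * K ≤ K ^ 4 := by
    have h1 : K ^ 4 = K ^ 3 * K := by ring
    have h2 : (200 : ℝ) ≤ K ^ 3 := by
      calc (200 : ℝ) ≤ K := hK200
        _ ≤ K ^ 3 := le_self_pow₀ (by linarith) (by norm_num)
    rw [h1]
    gcongr
  have hLpos : 0 < L := by linarith
  have hL1' : 1 ≤ L := by linarith
  -- fourth root
  obtain ⟨v, hv⟩ : ∃ v : ℝ, v = √(√L) := ⟨_, rfl⟩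
  have hv0 : 0 ≤ v := by
    rw [hv]
    positivity
  have hv4 : v ^ 4 = L := by
    have h1 : v ^ 4 = (v ^ 2) ^ 2 := by ring
    rw [h1, hv, Real.sq_sqrt (Real.sqrt_nonneg L), Real.sq_sqrt hLpos.le]
  have hv1 : 1 ≤ v := by
    by_contra hcon
    push Not at hcon
    have : v ^ 4 < 1 := pow_lt_one₀ hv0 hcon (by norm_num)
    linarith
  have hlog : Real.log L ≤ 4 * v := by
    rw [← hv4, Real.log_pow]
    have h1 := Real.log_le_sub_one_of_pos (show 0 < v by linarith)
    push_cast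
    linarith
  obtain ⟨y, hy⟩ : ∃ y : ℝ, y = Real.log L + C := ⟨_, rfl⟩
  rw [← hy]
  have hy1 : y ≤ (4 + C) * v := by
    rw [hy]
    nlinarith
  have hy0 : 0 ≤ y := by
    rw [hy]
    have := Real.log_nonneg hL1'
    linarith
  -- `v ^ 3` is large
  have hv3 : (560 + 112 * C) * K ^ 3 ≤ v ^ 3 := by
    by_contra hcon
    push Not at hcon
    have h1 : (v ^ 3) ^ 4 < ((560 + 112 * C) * K ^ 3) ^ 4 := by gcongr
    have h2 : (v ^ 3) ^ 4 = L ^ 3 := by
      rw [← hv4]
      ring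
    have h3 : ((560 + 112 * C) ^ 2 * K ^ 4) ^ 3 ≤ L ^ 3 := by
      apply pow_le_pow_left₀ (by positivity) hL
    have h4 : ((560 + 112 * C) * K ^ 3) ^ 4 ≤ ((560 + 112 * C) ^ 2 * K ^ 4) ^ 3 := by
      have h5 : ((560 + 112 * C) ^ 2 * K ^ 4) ^ 3 =
          ((560 + 112 * C) * K ^ 3) ^ 4 * (560 + 112 * C) ^ 2 := by ring
      rw [h5]
      have h6 : (1 : ℝ) ≤ (560 + 112 * C) ^ 2 := by nlinarith
      have h7 : 0 ≤ ((560 + 112 * C) * K ^ 3) ^ 4 := by positivity
      nlinarith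
    linarith
  refine ⟨by linarith, ?_, by linarith, ?_⟩
  · have e1 : b * ((8 * K + 12) * y + 4) + 4 * y ≤ b * (28 * K * (y + 1)) := by
      have h1 : 4 * y ≤ b * (4 * y) := by nlinarith
      have h2 : (8 * K + 12) * y + 4 + 4 * y ≤ 28 * K * (y + 1) := by nlinarith
      have h3 : (b : ℝ) * ((8 * K + 12) * y + 4 + 4 * y) ≤ b * (28 * K * (y + 1)) := by gcongr
      linarith
    calc 4 * c * (b * ((8 * K + 12) * y + 4) + 4 * y) ≤ 4 * K * (b * (28 * K * (y + 1))) := by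
          have h0 : 0 ≤ b * ((8 * K + 12) * y + 4) + 4 * y := by positivity
          have h1 : c ≤ K := hcb.trans hbK
          gcongr
      _ ≤ 4 * K * (K * (28 * K * ((4 + C) * v + v))) := by gcongr
      _ = (560 + 112 * C) * K ^ 3 * v := by ring
      _ ≤ v ^ 3 * v := by gcongr
      _ = L := by
        rw [← hv4]
        ring
  · have h1 : (1 : ℝ) ≤ K ^ 3 := one_le_pow₀ (by linarith)
    have h2 : 560 + 112 * C ≤ v ^ 3 := by
      refine le_trans ?_ hv3
      nlinarith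
    calc 3 * y ≤ 3 * ((4 + C) * v) := by gcongr
      _ ≤ (560 + 112 * C) * v := by nlinarith
      _ ≤ v ^ 3 * v := by gcongr
      _ = L := by
        rw [← hv4]
        ring

/-- the parameters, explicitly -/
lemma par4 : ∃ D : ℕ, 1 ≤ D ∧ ∀ M : ℕ, 1 ≤ M → ∀ x : ℝ, 0 < x → x ≤ (1 / 2) ^ (D * M) →
    ∃ (Q : Finset ℕ) (s t r : ℕ) (K : ℝ), (∀ p ∈ Q, p.Prime ∧ (p : ℝ) ≤ Real.exp (D * M / x)) ∧ Even r ∧
      1 ≤ K ∧ 1 ≤ s ∧ 1 ≤ t ∧ (s : ℝ) + t ≤ 1 / x ^ 2 ∧
      2 * (18 * M * rho Q) / (1 - 2 * x) ^ s ≤ x / 2 ∧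
      2 * eta Q s t M r K / (1 - 2 * x) ^ t ≤ x / 4 := by
  obtain ⟨C, hC⟩ := Pool.Agent.Helper601.Mertens.mertens_inv
  have hC0 : 0 ≤ C := (abs_nonneg _).trans (hC 3 le_rfl)
  obtain ⟨w, hw⟩ : ∃ w : ℕ, w = 0 := ⟨0, rfl⟩
  obtain ⟨a, ha⟩ : ∃ a : ℝ, a = 144 * Real.exp (C + w) := ⟨_, rfl⟩
  have hexpC : 1 ≤ Real.exp (C + w) := Real.one_le_exp (by positivity)
  have ha144 : 144 ≤ a := by
    rw [ha]
    linarith
  -- the constant
  obtain ⟨D, hD⟩ : ∃ D : ℕ, 2048 * a + (560 + 112 * C) ^ 2 + 8 ≤ D := ⟨_, Nat.le_ceil _⟩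
  have hD1 : 1 ≤ D := by
    have h1 : (1 : ℝ) ≤ D := by nlinarith
    exact_mod_cast h1
  refine ⟨D, hD1, fun M hM => ?_⟩
  have hMr : (1 : ℝ) ≤ M := by exact_mod_cast hM
  obtain ⟨A, hA'⟩ : ∃ A : ℝ, A = M * a := ⟨_, rfl⟩
  have hA : A = 144 * M * Real.exp (C + w) := by
    rw [hA', ha]
    ring
  have hA144 : 144 ≤ A := by
    rw [hA]
    nlinarith
  obtain ⟨c, hc⟩ : ∃ c : ℝ, c = 16 * A := ⟨_, rfl⟩
  have hc200 : 200 ≤ c := by linarith
  obtain ⟨b, hb16, hb17⟩ : ∃ b : ℕ, 16 * c ≤ b ∧ (b : ℝ) ≤ 16 * c + 1 :=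
    ⟨⌈16 * c⌉₊, Nat.le_ceil _, (Nat.ceil_lt_add_one (by positivity)).le⟩
  obtain ⟨K, hK⟩ : ∃ K : ℝ, K = 2 ^ (b + 1) := ⟨_, rfl⟩
  have hK1 : 1 ≤ K := by
    rw [hK]
    exact one_le_pow₀ (by norm_num)
  have hlog2a : (1 : ℝ) / 2 ≤ Real.log 2 := by linarith [Real.log_two_gt_d9]
  have hlog2b : Real.log 2 ≤ 1 := by linarith [Real.log_two_lt_d9]
  -- the threshold
  obtain ⟨L0, hL0'⟩ : ∃ L0 : ℝ, L0 = (560 + 112 * C) ^ 2 * K ^ 4 := ⟨_, rfl⟩
  have hL0 : ∀ L : ℝ, L0 ≤ L → 2 * c ≤ L ∧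
      4 * c * (b * ((8 * K + 12) * (Real.log L + C) + 4) + 4 * (Real.log L + C)) ≤ L ∧
      (b : ℝ) ≤ L ∧ 3 * (Real.log L + C) ≤ L := by
    intro L hL
    rw [hL0'] at hL
    exact big_L C c hC0 hc200 b (by linarith) K hK L hL
  have hL0le : L0 ≤ 2 ^ (D * M) := by
    obtain ⟨N1, hN1, hN2⟩ : ∃ N1 : ℕ, (560 + 112 * C) ^ 2 ≤ N1 ∧ (N1 : ℝ) ≤ (560 + 112 * C) ^ 2 + 1 :=
      ⟨_, Nat.le_ceil _, (Nat.ceil_lt_add_one (by positivity)).le⟩
    have h1 : (N1 : ℝ) ≤ 2 ^ N1 := by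
      have h0 : N1 < 2 ^ N1 := Nat.lt_two_pow_self
      have h00 : ((N1 : ℕ) : ℝ) < ((2 ^ N1 : ℕ) : ℝ) := by exact_mod_cast h0
      push_cast at h00
      exact h00.le
    have h2 : N1 + 4 * (b + 1) ≤ D * M := by
      have h3 : ((N1 + 4 * (b + 1) : ℕ) : ℝ) ≤ ((D * M : ℕ) : ℝ) := by
        push_cast
        have h5 : (b : ℝ) ≤ 256 * (M * a) + 1 := by
          rw [hc, hA'] at hb17
          linarith
        have h6 : (2048 * a + (560 + 112 * C) ^ 2 + 8) * M ≤ D * M := by gcongr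
        have h7 : (560 + 112 * C) ^ 2 * 1 ≤ (560 + 112 * C) ^ 2 * M := by gcongr
        have h8 : 144 * 1 ≤ a * (M : ℝ) := by gcongr
        have h9 : (2048 * a + (560 + 112 * C) ^ 2 + 8) * M =
            2048 * (a * M) + (560 + 112 * C) ^ 2 * M + 8 * M := by ring
        have h10 : (M : ℝ) * a = a * M := by ring
        rw [h10] at h5
        linarith
      exact_mod_cast h3
    rw [hL0']
    calc (560 + 112 * C) ^ 2 * K ^ 4 ≤ 2 ^ N1 * K ^ 4 := by
          have := hN1.trans h1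
          gcongr
      _ = 2 ^ (N1 + 4 * (b + 1)) := by
        rw [hK, ← pow_mul, ← pow_add]
        congr 1
        ring
      _ ≤ 2 ^ (D * M) := pow_le_pow_right₀ (by norm_num) h2
  intro x hx0 hxb
  have hx16 : x ≤ 1 / 16 := by
    refine hxb.trans ?_
    have h1 : 4 ≤ D * M := by
      have h2 : (8 : ℝ) ≤ D := by nlinarith
      have h3 : 8 ≤ D := by exact_mod_cast h2
      nlinarith
    calc (1 / 2 : ℝ) ^ (D * M) ≤ (1 / 2) ^ 4 := pow_le_pow_of_le_one (by norm_num) (by norm_num) h1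
      _ = 1 / 16 := by norm_num
  have hxA : L0 ≤ A / x := by
    rw [le_div_iff₀ hx0]
    have h1 : L0 * x ≤ 2 ^ (D * M) * (1 / 2) ^ (D * M) := by
      have : 0 ≤ L0 := by
        rw [hL0']
        positivity
      gcongr
    rw [← mul_pow] at h1
    norm_num at h1
    linarith
  -- the bound z
  obtain ⟨z, hz⟩ : ∃ z : ℕ, z = ⌈Real.exp (A / x)⌉₊ := ⟨_, rfl⟩
  obtain ⟨L, hL⟩ : ∃ L : ℝ, L = Real.log z := ⟨_, rfl⟩
  have hAx : 144 ≤ A / x := by
    rw [le_div_iff₀ hx0]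
    nlinarith
  have hz1 : Real.exp (A / x) ≤ z := by
    rw [hz]
    exact Nat.le_ceil _
  have hz0 : (0 : ℝ) < z := lt_of_lt_of_le (Real.exp_pos _) hz1
  have hz2 : (z : ℝ) ≤ 2 * Real.exp (A / x) := by
    have h1 : (z : ℝ) < Real.exp (A / x) + 1 := by
      rw [hz]
      exact Nat.ceil_lt_add_one (Real.exp_pos _).le
    have h2 : 1 ≤ Real.exp (A / x) := Real.one_le_exp (by positivity)
    linarith
  have hLge : A / x ≤ L := by
    rw [hL, Real.le_log_iff_exp_le hz0]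
    exact hz1
  have hLle : L ≤ 2 * (A / x) := by
    rw [hL]
    have h1 := Real.log_le_log hz0 hz2
    rw [Real.log_mul (by norm_num) (Real.exp_pos _).ne', Real.log_exp] at h1
    linarith
  have hz3 : 3 ≤ z := by
    have h1 : (3 : ℝ) ≤ z := by
      have := Real.add_one_le_exp (A / x)
      linarith
    exact_mod_cast h1
  obtain ⟨hA1, hA3, hA4, hA5⟩ := hL0 L (hxA.trans hLge)
  obtain ⟨y, hy⟩ : ∃ y : ℝ, y = Real.log L + C := ⟨_, rfl⟩
  rw [← hy] at hA3 hA5
  set Q : Finset ℕ := (Finset.Ioc w z).filter Nat.Prime with hQdef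
  have hQp : ∀ p ∈ Q, p.Prime := fun p hp => (mem_filter.1 hp).2
  have hLpos : 0 < L := by linarith
  have hmert := abs_le.1 (hC z hz3)
  rw [← hL] at hmert
  set Λ : ℝ := ∑ p ∈ Q, 1 / (p : ℝ) with hΛ
  have hΛ1 : Λ ≤ y := by
    have h1 : Λ ≤ ∑ p ∈ (Finset.Icc 1 z).filter Nat.Prime, 1 / (p : ℝ) := by
      apply sum_le_sum_of_subset_of_nonneg
      · intro p hp
        rw [hQdef, mem_filter, mem_Ioc] at hp
        rw [mem_filter, mem_Icc]
        exact ⟨⟨hp.2.one_le, hp.1.2⟩, hp.2⟩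
      · intro p _ _
        positivity
    have := hmert.2
    rw [hy]
    linarith
  have hΛ0 : 0 ≤ Λ := sum_nonneg fun p _ => by positivity
  have hy0 : 0 ≤ y := hΛ0.trans hΛ1
  have hΛw : ∑ p ∈ (Finset.Icc 1 z).filter Nat.Prime, 1 / (p : ℝ) ≤ Λ + w := by
    have h1 : (Finset.Icc 1 z).filter Nat.Prime ⊆ Q ∪ Finset.Icc 1 w := by
      intro p hp
      rw [mem_filter, mem_Icc] at hp
      rw [mem_union, hQdef, mem_filter, mem_Ioc, mem_Icc]
      by_cases h : w < p
      · exact Or.inl ⟨⟨h, hp.1.2⟩, hp.2⟩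
      · exact Or.inr ⟨hp.1.1, by omega⟩
    calc ∑ p ∈ (Finset.Icc 1 z).filter Nat.Prime, 1 / (p : ℝ)
        ≤ ∑ p ∈ Q ∪ Finset.Icc 1 w, 1 / (p : ℝ) :=
          sum_le_sum_of_subset_of_nonneg h1 (fun p _ _ => by positivity)
      _ ≤ Λ + ∑ p ∈ Finset.Icc 1 w, 1 / (p : ℝ) := by
          rw [hΛ]
          have h2 := sum_union_inter (s₁ := Q) (s₂ := Finset.Icc 1 w) (f := fun p : ℕ => 1 / (p : ℝ))
          have h3 : 0 ≤ ∑ p ∈ Q ∩ Finset.Icc 1 w, 1 / (p : ℝ) := sum_nonneg fun p _ => by positivity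
          linarith
      _ ≤ Λ + ∑ p ∈ Finset.Icc 1 w, 1 := by
          gcongr with p hp
          rw [mem_Icc] at hp
          have : (1 : ℝ) ≤ p := by exact_mod_cast hp.1
          rw [div_le_one (by linarith)]
          exact this
      _ = Λ + w := by
          rw [sum_const, Nat.card_Icc]
          simp
  have hρ := rho_pos Q hQp
  have hρ1 : rho Q ≤ Real.exp (C + w) / L := by
    refine (rho_le Q hQp).trans ?_
    have h1 : Real.log L - C - w ≤ Λ := by
      have := hmert.1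
      linarith
    calc Real.exp (-Λ) ≤ Real.exp ((C + w) - Real.log L) := Real.exp_le_exp.2 (by linarith)
      _ = Real.exp (C + w) / L := by rw [Real.exp_sub, Real.exp_log hLpos]
  have hρ2 : Real.exp (-2 * y) ≤ rho Q := by
    refine le_trans ?_ (le_rho Q hQp)
    exact Real.exp_le_exp.2 (by linarith)
  have hxρ : 144 * M * rho Q ≤ x := by
    calc 144 * M * rho Q ≤ 144 * M * (Real.exp (C + w) / L) := by gcongr
      _ = A / L := by
        rw [hA]
        ring
      _ ≤ x := by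
        rw [div_le_iff₀ hLpos]
        rw [div_le_iff₀ hx0] at hLge
        linarith
  -- the parameters
  obtain ⟨s, hsle, hslt⟩ : ∃ s : ℕ, (s : ℝ) ≤ 1 / (8 * x) ∧ 1 / (8 * x) < s + 1 :=
    ⟨⌊1 / (8 * x)⌋₊, Nat.floor_le (by positivity), Nat.lt_floor_add_one _⟩
  have hxs : 2 * x * s ≤ 1 / 4 := by
    calc 2 * x * s ≤ 2 * x * (1 / (8 * x)) := by gcongr
      _ = 1 / 4 := by
        field_simp
        norm_num
  have hs16 : 1 / (16 * x) ≤ s := by
    have h1 : 1 / (8 * x) = 2 * (1 / (16 * x)) := by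
      field_simp
      norm_num
    have h2 : 1 ≤ 1 / (16 * x) := by
      rw [le_div_iff₀ (by positivity)]
      linarith
    linarith
  have hsge2 : L / (2 * c) ≤ s := by
    refine le_trans ?_ hs16
    rw [div_le_div_iff₀ (by linarith) (by positivity)]
    have h1 : L * x ≤ 2 * A := by
      have := mul_le_mul_of_nonneg_right hLle hx0.le
      have h2 : 2 * (A / x) * x = 2 * A := by
        field_simp
      linarith
    rw [hc]
    linarith
  have hs1 : 1 ≤ s := by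
    have h1 : 1 ≤ L / (2 * c) := by
      rw [le_div_iff₀ (by linarith)]
      linarith
    have : (1 : ℝ) ≤ s := by linarith
    exact_mod_cast this
  obtain ⟨r, hre, hrge, hrle⟩ : ∃ r : ℕ, Even r ∧ (8 * K + 12) * y + 2 ≤ r ∧
      (r : ℝ) ≤ (8 * K + 12) * y + 4 := by
    refine ⟨2 * ⌈(4 * K + 6) * y + 1⌉₊, ⟨⌈(4 * K + 6) * y + 1⌉₊, by ring⟩, ?_, ?_⟩
    · have := Nat.le_ceil ((4 * K + 6) * y + 1)
      push_cast
      linarith
    · have := Nat.ceil_lt_add_one (show 0 ≤ (4 * K + 6) * y + 1 by positivity)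
      push_cast
      linarith
  have hKy : 0 ≤ (8 * K + 12) * y := by positivity
  have hr2 : (2 : ℝ) ≤ r := by linarith
  have hB1 : 1 ≤ b * r := by
    have h1 : (1 : ℝ) ≤ b := by linarith
    have h2 : 1 ≤ b := by exact_mod_cast h1
    have h3 : 2 ≤ r := by exact_mod_cast hr2
    nlinarith
  have hsr : L / 4 / c ≤ s * Real.log 2 := by
    have : L / (2 * c) * (1 / 2) ≤ s * Real.log 2 := by gcongr
    refine le_trans (le_of_eq ?_) this
    field_simp
    norm_num
  have e2 : ∀ n : ℕ, (2 : ℝ) ^ n = Real.exp (n * Real.log 2) := by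
    intro n
    rw [mul_comm, Real.exp_mul, Real.exp_log (by norm_num), Real.rpow_natCast]
  have hρ3 : Real.exp (-6 * y) ≤ rho Q ^ 3 := by
    calc Real.exp (-6 * y) = Real.exp (-2 * y) ^ 3 := by
          rw [← Real.exp_nat_mul]
          congr 1
          push_cast
          ring
      _ ≤ rho Q ^ 3 := by gcongr
  refine ⟨Q, s, s * (b * r), r, K, fun p hp => ⟨hQp p hp, ?_⟩, hre, hK1, hs1,
    Nat.one_le_iff_ne_zero.2 (Nat.mul_ne_zero (by omega) (by omega)), ?_, ?_⟩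
  · rw [hQdef, mem_filter, mem_Ioc] at hp
    have h1 : (p : ℝ) ≤ z := by exact_mod_cast hp.1.2
    refine h1.trans ?_
    rw [← Real.exp_log hz0, ← hL]
    apply Real.exp_le_exp.2
    refine hLle.trans ?_
    have h2 : 2 * A ≤ D * M := by
      rw [hA']
      have h3 : 2 * a ≤ D := by nlinarith
      calc 2 * (M * a) = (2 * a) * M := by ring
        _ ≤ D * M := by gcongr
    calc 2 * (A / x) = 2 * A / x := by ring
      _ ≤ D * M / x := by gcongr
  · -- the size of the lags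
    have h1 : (b : ℝ) * r ≤ 1 / (32 * x) := by
      have h2 : (b : ℝ) * r ≤ b * ((8 * K + 12) * y + 4) := by gcongr
      have h3 : 4 * c * (b * ((8 * K + 12) * y + 4)) ≤ L := by
        refine le_trans ?_ hA3
        have : 0 ≤ 4 * y := by positivity
        gcongr
        linarith
      have h4 : 4 * c * (b * ((8 * K + 12) * y + 4)) ≤ 2 * (A / x) := h3.trans hLle
      have h5 : (b : ℝ) * ((8 * K + 12) * y + 4) ≤ 2 * (A / x) / (4 * c) := by
        rw [le_div_iff₀ (by positivity)]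
        linarith
      refine h2.trans (h5.trans (le_of_eq ?_))
      rw [hc]
      have hA0 : A ≠ 0 := by linarith
      field_simp
      norm_num
    push_cast
    have h6 : (s : ℝ) * (b * r) ≤ 1 / (8 * x) * (1 / (32 * x)) := by gcongr
    have h7 : 1 / (8 * x) ≤ 1 / (128 * x ^ 2) := by
      apply one_div_le_one_div_of_le (by positivity)
      nlinarith
    have h8 : 1 / (8 * x) * (1 / (32 * x)) = 1 / (256 * x ^ 2) := by
      field_simp
      norm_num
    have h9 : 1 / (128 * x ^ 2) + 1 / (256 * x ^ 2) ≤ 1 / x ^ 2 := by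
      have h10 : 1 / (128 * x ^ 2) + 1 / (256 * x ^ 2) = (3 / 256) * (1 / x ^ 2) := by
        field_simp
        norm_num
      rw [h10]
      have : 0 < 1 / x ^ 2 := by positivity
      linarith
    linarith
  apply cond3 Q hQp s (b * r) M r K x hxρ hM (by linarith) hxs hK1
  · -- (P1)
    rw [e2, e2]
    calc Real.exp (((b * r : ℕ) : ℝ) * Real.log 2) ≤ Real.exp (-4 * y + s * Real.log 2) := by
          apply Real.exp_le_exp.2
          have h1 : ((b * r : ℕ) : ℝ) * Real.log 2 ≤ b * ((8 * K + 12) * y + 4) := by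
            push_cast
            calc (b : ℝ) * r * Real.log 2 ≤ b * r * 1 := by gcongr
              _ = b * r := by ring
              _ ≤ b * ((8 * K + 12) * y + 4) := by gcongr
          have h2 : b * ((8 * K + 12) * y + 4) + 4 * y ≤ L / 4 / c := by
            rw [div_div, le_div_iff₀ (by positivity)]
            linarith
          linarith
      _ = Real.exp (-2 * y) ^ 2 * Real.exp (s * Real.log 2) := by
          rw [← Real.exp_nat_mul, ← Real.exp_add]
          congr 1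
          push_cast
          ring
      _ ≤ rho Q ^ 2 * Real.exp (s * Real.log 2) := by gcongr
  · -- (P2)
    refine le_trans ?_ hρ3
    have h1 := kap_le Q r K hK1
    have h2 : K⁻¹ ^ r * 2 ^ (b * r) = Real.exp (-(r * Real.log 2)) := by
      rw [Real.exp_neg, ← e2, hK, inv_pow, ← pow_mul]
      have h3 : (b + 1) * r = b * r + r := by ring
      rw [h3, pow_add]
      have : (2 : ℝ) ^ (b * r) ≠ 0 := by positivity
      have : (2 : ℝ) ^ r ≠ 0 := by positivity
      field_simp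
    calc 2 * kap Q r K * 2 ^ (b * r) ≤ 2 * (K⁻¹ ^ r * Real.exp (4 * K * Λ)) * 2 ^ (b * r) := by
          gcongr
      _ = 2 * (K⁻¹ ^ r * 2 ^ (b * r)) * Real.exp (4 * K * Λ) := by ring
      _ = Real.exp (Real.log 2) * Real.exp (-(r * Real.log 2)) * Real.exp (4 * K * Λ) := by
          rw [h2, Real.exp_log (by norm_num : (0 : ℝ) < 2)]
      _ = Real.exp (Real.log 2 + -(r * Real.log 2) + 4 * K * Λ) := by
          rw [Real.exp_add, Real.exp_add]
      _ ≤ Real.exp (-6 * y) := by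
          apply Real.exp_le_exp.2
          have h3 : 4 * K * Λ ≤ 4 * K * y := by gcongr
          have h4 : ((8 * K + 12) * y + 2) * (1 / 2) ≤ r * Real.log 2 := by gcongr
          linarith
  · -- (P3)
    have hcard : Q.card + 1 ≤ z := by
      have h1 : Q ⊆ Finset.Icc 2 z := by
        intro p hp
        rw [hQdef, mem_filter, mem_Ioc] at hp
        rw [mem_Icc]
        exact ⟨hp.2.two_le, hp.1.2⟩
      have h2 := card_le_card h1
      rw [Nat.card_Icc] at h2
      omega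
    have hD := pw_card Q r z hcard
    have hD' : ((Pw Q r).card : ℝ) ≤ Real.exp (r * L) := by
      calc ((Pw Q r).card : ℝ) ≤ ((z ^ r : ℕ) : ℝ) := by exact_mod_cast hD
        _ = (z : ℝ) ^ r := by push_cast; rfl
        _ = Real.exp (r * L) := by
          rw [mul_comm, Real.exp_mul, hL, Real.exp_log hz0, Real.rpow_natCast]
    calc ((Pw Q r).card : ℝ) ^ 2 * 2 ^ (b * r) ≤ Real.exp (r * L) ^ 2 * 2 ^ (b * r) := by gcongr
      _ = Real.exp (2 * (r * L) + ((b * r : ℕ) : ℝ) * Real.log 2) := by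
          rw [e2, ← Real.exp_nat_mul, ← Real.exp_add]
          push_cast
          rfl
      _ ≤ Real.exp (-6 * y + ((s + s * (b * r) : ℕ) : ℝ) * Real.log 2) := by
          apply Real.exp_le_exp.2
          have h1 : ((b * r : ℕ) : ℝ) * Real.log 2 ≤ b * r := by
            push_cast
            calc (b : ℝ) * r * Real.log 2 ≤ b * r * 1 := by gcongr
              _ = b * r := by ring
          have h2 : 4 * (L * r) ≤ ((s + s * (b * r) : ℕ) : ℝ) * Real.log 2 := by
            have h3 : (0 : ℝ) ≤ s * Real.log 2 := by positivity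
            calc 4 * (L * r) = L / 4 / c * (16 * c * r) := by
                  field_simp
                  ring
              _ ≤ (s * Real.log 2) * (b * r) := by gcongr
              _ ≤ (s * Real.log 2) * (b * r) + s * Real.log 2 := by linarith
              _ = ((s + s * (b * r) : ℕ) : ℝ) * Real.log 2 := by
                  push_cast
                  ring
          have h4 : (b : ℝ) * r ≤ L * r := by gcongr
          have h5 : 6 * y ≤ L * r := by nlinarith
          nlinarith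
      _ = Real.exp (-6 * y) * 2 ^ (s + s * (b * r)) := by rw [Real.exp_add, e2]
      _ ≤ rho Q ^ 3 * 2 ^ (s + s * (b * r)) := by gcongr

end Pool.Agent.H541.T1
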