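import Pool.Agent.H541.T1.Fam5
import Pool.Agent.H541.T1.Par4

set_option autoImplicit false

/-!
The version with logarithmically growing multiplicities.
-/

namespace Pool.Agent.H541.T1

open Finset Filter Topology Metric
open scoped ENNReal NNReal
open Pool.Agent.H541.LL

/-- the data of the stages, explicitly; `D` is absolute -/
lemma stages6 : ∃ D : ℕ, 1 ≤ D ∧ ∀ d : ℝ, d < 1 → ∃ (x0 : ℝ) (X : ℕ → ℝ) (Q : ℕ → Finset ℕ)
    (s t r : ℕ → ℕ) (K : ℕ → ℝ),
    0 < x0 ∧ (∀ i, X i = x0 / 2 ^ i) ∧ X 0 ≤ 1 / 4 ∧ (2 : ℝ) ^ d ≤ 2 * (1 - X 0) ∧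
    (∀ i, ∀ p ∈ Q i, p.Prime ∧ (p : ℝ) ≤ Real.exp (D * ((i / D + 1 : ℕ) : ℝ) / X i)) ∧
    (∀ i, Even (r i)) ∧ (∀ i, 1 ≤ K i) ∧ (∀ i, 1 ≤ s i) ∧
    (∀ i, 1 ≤ t i) ∧ (∀ i, (s i : ℝ) + t i ≤ 1 / X i ^ 2) ∧
    (∀ i, 2 * (18 * ((i / D + 1 : ℕ) : ℝ) * rho (Q i)) / (1 - 2 * X i) ^ (s i) ≤ X i / 2) ∧
    (∀ i, 2 * eta (Q i) (s i) (t i) (i / D + 1) (r i) (K i) / (1 - 2 * X i) ^ (t i) ≤ X i / 4) := by
  obtain ⟨D, hD1, hpar⟩ := par4
  refine ⟨D, hD1, fun d hd1 => ?_⟩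
  have h2d : (2 : ℝ) ^ d < 2 := by
    calc (2 : ℝ) ^ d < 2 ^ (1 : ℝ) := Real.rpow_lt_rpow_of_exponent_lt (by norm_num) hd1
      _ = 2 := Real.rpow_one 2
  obtain ⟨x0, hx0⟩ : ∃ x0 : ℝ, x0 = min (min ((1 / 2) ^ D) (1 / 4)) ((2 - (2 : ℝ) ^ d) / 2) := ⟨_, rfl⟩
  have hx00 : 0 < x0 := by
    rw [hx0]
    exact lt_min (lt_min (by positivity) (by norm_num)) (by linarith)
  have hx0D : x0 ≤ (1 / 2) ^ D := by
    rw [hx0]
    exact (min_le_left _ _).trans (min_le_left _ _)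
  obtain ⟨X, hX⟩ : ∃ X : ℕ → ℝ, ∀ i, X i = x0 / 2 ^ i := ⟨_, fun _ => rfl⟩
  have hXp : ∀ i, 0 < X i := fun i => by
    rw [hX]
    positivity
  have hXle : ∀ i, X i ≤ (1 / 2) ^ (D * (i / D + 1)) := by
    intro i
    have h1 : D * (i / D + 1) ≤ D + i := by
      have := Nat.mul_div_le i D
      rw [mul_add, mul_one]
      omega
    calc X i = x0 * (1 / 2) ^ i := by
          rw [hX, one_div, inv_pow]
          rfl
      _ ≤ (1 / 2) ^ D * (1 / 2) ^ i := by gcongr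
      _ = (1 / 2) ^ (D + i) := by rw [pow_add]
      _ ≤ (1 / 2) ^ (D * (i / D + 1)) := pow_le_pow_of_le_one (by norm_num) (by norm_num) h1
  choose Q s t r K h1 h2 h3 h4 h5 h6 h7 h8 using fun i =>
    hpar (i / D + 1) (Nat.le_add_left 1 _) (X i) (hXp i) (hXle i)
  refine ⟨x0, X, Q, s, t, r, K, hx00, hX, ?_, ?_, h1, h2, h3, h4, h5, h6, h7, h8⟩
  · rw [hX, pow_zero, div_one, hx0]
    exact (min_le_left _ _).trans (min_le_right _ _)
  · have h9 : X 0 ≤ (2 - (2 : ℝ) ^ d) / 2 := by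
      rw [hX, pow_zero, div_one, hx0]
      exact min_le_right _ _
    linarith

lemma geo_sum (n : ℕ) : ∑ j ∈ range n, (1 / 2 : ℝ) ^ (j + 1) ≤ 1 := by
  have h3 : ∀ n : ℕ, ∑ j ∈ range n, (1 / 2 : ℝ) ^ (j + 1) = 1 - (1 / 2) ^ n := by
    intro n
    induction n with
    | zero => simp
    | succ n ih =>
      rw [sum_range_succ, ih, pow_succ]
      ring
  rw [h3]
  have : (0 : ℝ) ≤ (1 / 2) ^ n := by positivity
  linarith

theorem fam6 (ε : ℝ) (hε : 0 < ε) : ∃ κ : ℝ, 0 < κ ∧ ∀ (d : ℝ), 0 < d → d < 1 →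
    ∀ (ι : Type) (lam c : ι → ℝ) (cls : ι → ℕ),
    (∀ j, ∀ᶠ e : ℕ in atTop, ∃ F : Finset ι, (F.card : ℝ) ≤ κ * (1 / 2) ^ (j + 1) * Real.log e ∧
      ∀ i, cls i = j → (2 : ℝ) ^ e / 2 < lam i → lam i ≤ 2 ^ e → i ∈ F) →
    ∀ V : ℕ → Set ℝ,
    {θ : ℝ | θ ∈ Set.Icc (0 : ℝ) 1 ∧ ∀ j, ∃ R : ℝ, ∀ i, cls i = j → R < lam i → ∃ p : ℕ, p.Prime ∧
      (p : ℝ) ≤ Real.exp (Real.log (lam i) ^ ε) ∧ (p : ℤ) ∣ ⌊θ * lam i + c i⌋} ⊆ ⋃ i, V i →
    (1 / 12 : ℝ≥0∞) ≤ ∑' i, ediam (V i) ^ d := by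
  classical
  obtain ⟨D, hD1, hst⟩ := stages6
  have hDr : (1 : ℝ) ≤ D := by exact_mod_cast hD1
  obtain ⟨k, hk⟩ := exists_nat_gt (2 / ε)
  have hk0 : (0 : ℝ) < k := lt_trans (by positivity) hk
  have hk1 : 1 ≤ k := by
    have : 0 < k := by exact_mod_cast hk0
    omega
  have hlog4 : 0 < Real.log 4 := Real.log_pos (by norm_num)
  obtain ⟨κ, hκ⟩ : ∃ κ : ℝ, κ = 1 / (2 * D * k * Real.log 4) := ⟨_, rfl⟩
  have hκ0 : 0 < κ := by
    rw [hκ]
    positivity
  refine ⟨κ, hκ0, fun d hd0 hd1 ι lam c cls hcount V hV => ?_⟩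
  obtain ⟨x0, X, Q, s, t, r, K, hx00, hX, h3, h4, h5, h6, h7, h8, h9, h9', h10, h11⟩ := hst d hd1
  have hXp : ∀ i, 0 < X i := fun i => by
    rw [hX]
    positivity
  obtain ⟨N0, hN0⟩ : ∃ N0 : ℕ, 4 / x0 ^ 2 ≤ N0 := ⟨_, Nat.le_ceil _⟩
  have hN0pos : (0 : ℝ) < N0 := lt_of_lt_of_le (by positivity) hN0
  have hN01 : 1 ≤ N0 := by
    have : 0 < N0 := by exact_mod_cast hN0pos
    omega
  obtain ⟨T, hT⟩ : ∃ T : ℕ → ℕ, ∀ i, T i = N0 * (4 ^ k) ^ i := ⟨_, fun _ => rfl⟩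
  have hG : 4 ≤ 4 ^ k := Nat.le_self_pow (by omega) 4
  have hst2 : ∀ i, 2 * ((s i : ℝ) + t i) ≤ N0 * 4 ^ i / 2 := by
    intro i
    have h12 := h9' i
    have h13 : 1 / X i ^ 2 = 4 ^ i / x0 ^ 2 := by
      rw [hX, div_pow, ← pow_mul, mul_comm i 2, pow_mul]
      norm_num
    rw [h13] at h12
    have h14 : 4 ^ i / x0 ^ 2 = (4 / x0 ^ 2) * 4 ^ i / 4 := by ring
    rw [h14] at h12
    have h15 : (4 / x0 ^ 2) * 4 ^ i ≤ N0 * 4 ^ i := by gcongr
    linarith
  have hT0 : 2 * (s 0 + t 0) ≤ T 0 := by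
    have h12 := hst2 0
    have h13 : ((2 * (s 0 + t 0) : ℕ) : ℝ) ≤ ((T 0 : ℕ) : ℝ) := by
      rw [hT]
      push_cast
      rw [pow_zero] at h12
      simp only [pow_zero, mul_one] at *
      linarith
    exact_mod_cast h13
  have hTs : ∀ i, T i + 2 * (s (i + 1) + t (i + 1)) ≤ T (i + 1) := by
    intro i
    have h12 := hst2 (i + 1)
    have h13 : 2 * (s (i + 1) + t (i + 1)) ≤ 2 * (N0 * 4 ^ i) := by
      have h14 : ((2 * (s (i + 1) + t (i + 1)) : ℕ) : ℝ) ≤ ((2 * (N0 * 4 ^ i) : ℕ) : ℝ) := by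
        push_cast
        rw [pow_succ] at h12
        linarith
      exact_mod_cast h14
    have h14 : 4 ^ i ≤ (4 ^ k) ^ i := Nat.pow_le_pow_left hG i
    have h15 : N0 * 4 ^ i ≤ T i := by
      rw [hT]
      exact Nat.mul_le_mul_left _ h14
    have h16 : T (i + 1) = 4 ^ k * T i := by
      rw [hT, hT, pow_succ]
      ring
    have h17 : 4 * T i ≤ 4 ^ k * T i := Nat.mul_le_mul_right _ hG
    omega
  have hTm : StrictMono T := strictMono_nat_of_lt_succ fun i => by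
    have := hTs i
    have := h8 (i + 1)
    omega
  -- the multiplicity is large
  have hμ : ∀ e : ℕ, N0 ^ 2 ≤ e → κ * Real.log e ≤ ((stg T e / D + 1 : ℕ) : ℝ) := by
    intro e he
    have he1 : 1 ≤ e := (Nat.one_le_pow _ _ hN01).trans he
    have her : (0 : ℝ) < e := by exact_mod_cast (by omega : 0 < e)
    obtain ⟨i, hi⟩ : ∃ i, i = stg T e := ⟨_, rfl⟩
    have h12 := lt_stg T hTm e
    rw [← hi] at h12 ⊢
    have h13 : Real.log e ≤ Real.log N0 + (i + 1) * (k * Real.log 4) := by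
      have h14 : (e : ℝ) ≤ N0 * ((4 : ℝ) ^ k) ^ (i + 1) := by
        have h15 : ((e : ℕ) : ℝ) ≤ ((T (i + 1) : ℕ) : ℝ) := by exact_mod_cast h12.le
        rw [hT] at h15
        push_cast at h15
        exact h15
      have h15 := Real.log_le_log her h14
      rw [Real.log_mul hN0pos.ne' (by positivity), Real.log_pow, Real.log_pow] at h15
      push_cast at h15
      linarith
    have h14 : 2 * Real.log N0 ≤ Real.log e := by
      have h15 : ((N0 : ℝ)) ^ 2 ≤ e := by exact_mod_cast he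
      have h16 := Real.log_le_log (by positivity) h15
      rw [Real.log_pow] at h16
      push_cast at h16
      exact h16
    have h15 : Real.log e ≤ 2 * (((i : ℝ) + 1) * (k * Real.log 4)) := by linarith
    have h16 : ((i : ℝ) + 1) / D ≤ ((i / D + 1 : ℕ) : ℝ) := by
      rw [div_le_iff₀ (by linarith)]
      have h17 : i + 1 ≤ (i / D + 1) * D := by
        have := Nat.lt_div_mul_add (a := i) (b := D) (by omega)
        rw [add_mul, one_mul]
        omega
      exact_mod_cast h17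
    refine le_trans ?_ h16
    rw [hκ]
    calc 1 / (2 * D * k * Real.log 4) * Real.log e
        ≤ 1 / (2 * D * k * Real.log 4) * (2 * (((i : ℝ) + 1) * (k * Real.log 4))) := by gcongr
      _ = ((i : ℝ) + 1) / D := by
        field_simp
  -- the size of the primes
  have hsize : ∀ᶠ e : ℕ in atTop, (D / x0) * (e : ℝ) ^ (ε / 2) ≤ ((e : ℝ) / 4) ^ ε := by
    have h12 : Tendsto (fun e : ℕ => (e : ℝ) ^ (ε / 2)) atTop atTop :=
      (tendsto_rpow_atTop (by positivity)).comp tendsto_natCast_atTop_atTop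
    filter_upwards [h12.eventually_ge_atTop ((D / x0) * 4 ^ ε), eventually_ge_atTop 1] with e he he1
    have her : (0 : ℝ) < e := by exact_mod_cast (by omega : 0 < e)
    rw [Real.div_rpow her.le (by norm_num), le_div_iff₀ (by positivity)]
    have h13 : (e : ℝ) ^ ε = (e : ℝ) ^ (ε / 2) * (e : ℝ) ^ (ε / 2) := by
      rw [← Real.rpow_add her]
      congr 1
      ring
    rw [h13]
    calc D / x0 * (e : ℝ) ^ (ε / 2) * 4 ^ ε = (D / x0 * 4 ^ ε) * (e : ℝ) ^ (ε / 2) := by ring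
      _ ≤ (e : ℝ) ^ (ε / 2) * (e : ℝ) ^ (ε / 2) := by gcongr
  obtain ⟨E0, hE0⟩ := eventually_atTop.1 hsize
  -- thresholds of the classes
  choose E' hE' using fun j => eventually_atTop.1 (hcount j)
  obtain ⟨E, hE⟩ : ∃ E : ℕ → ℕ, ∀ j, E j = E' j + j + N0 ^ 2 + E0 + 4 := ⟨_, fun _ => rfl⟩
  obtain ⟨lam', hlam'⟩ : ∃ lam' : ι → ℝ, ∀ i, lam' i =
      if ∃ e : ℕ, (2 : ℝ) ^ e / 2 < lam i ∧ lam i ≤ 2 ^ e ∧ E (cls i) ≤ e then lam i else 0 :=
    ⟨_, fun _ => rfl⟩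
  have hN0T : T 0 = N0 := by
    rw [hT]
    simp
  refine core5 d hd0 X hXp (fun i => by rw [hX, hX, pow_succ]; field_simp) h3 h4 Q s t r
    (fun i => i / D + 1) K T (fun i p hp => (h5 i p hp).1) h6 h7 h8 h9 h10 h11
    hT0 hTs ι lam' c ?_ V (Set.Subset.trans ?_ hV)
  · intro e he
    have hF : ∀ j, ∃ F : Finset ι, E j ≤ e → ((F.card : ℝ) ≤ κ * (1 / 2) ^ (j + 1) * Real.log e ∧
      ∀ i, cls i = j → (2 : ℝ) ^ e / 2 < lam i → lam i ≤ 2 ^ e → i ∈ F) := by
      intro j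
      by_cases h : E j ≤ e
      · obtain ⟨F, hF⟩ := hE' j e (by have := hE j; omega)
        exact ⟨F, fun _ => hF⟩
      · exact ⟨∅, fun h' => absurd h' h⟩
    choose F hF using hF
    refine ⟨((range (e + 1)).filter (fun j => E j ≤ e)).biUnion F, ?_, ?_⟩
    · by_cases he2 : N0 ^ 2 ≤ e
      · have h12 : ((((range (e + 1)).filter (fun j => E j ≤ e)).biUnion F).card : ℝ) ≤
            κ * Real.log e := by
          have hlog : 0 ≤ Real.log e := Real.log_natCast_nonneg e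
          calc ((((range (e + 1)).filter (fun j => E j ≤ e)).biUnion F).card : ℝ)
              ≤ ∑ j ∈ (range (e + 1)).filter (fun j => E j ≤ e), ((F j).card : ℝ) := by
                exact_mod_cast card_biUnion_le
            _ ≤ ∑ j ∈ (range (e + 1)).filter (fun j => E j ≤ e), κ * (1 / 2) ^ (j + 1) * Real.log e := by
                apply sum_le_sum
                intro j hj
                rw [mem_filter] at hj
                exact (hF j hj.2).1
            _ ≤ ∑ j ∈ range (e + 1), κ * (1 / 2) ^ (j + 1) * Real.log e := by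
                apply sum_le_sum_of_subset_of_nonneg (filter_subset _ _)
                intro j _ _
                positivity
            _ = κ * Real.log e * ∑ j ∈ range (e + 1), (1 / 2) ^ (j + 1) := by
                rw [mul_sum]
                apply sum_congr rfl
                intro j _
                ring
            _ ≤ κ * Real.log e * 1 := by
                have := geo_sum (e + 1)
                gcongr
            _ = κ * Real.log e := mul_one _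
        have h13 := h12.trans (hμ e he2)
        exact_mod_cast h13
      · have h12 : (range (e + 1)).filter (fun j => E j ≤ e) = ∅ := by
          apply filter_false_of_mem
          intro j _
          have := hE j
          omega
        rw [h12]
        simp
    · intro i hi1 hi2
      rw [hlam'] at hi1 hi2
      split_ifs at hi1 hi2 with h
      · obtain ⟨f, hf1, hf2, hf3⟩ := h
        have hfe := level_unique _ f e hf1 hf2 hi1 hi2
        rw [hfe] at hf3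
        rw [mem_biUnion]
        refine ⟨cls i, ?_, (hF (cls i) hf3).2 i rfl hi1 hi2⟩
        rw [mem_filter, mem_range]
        have := hE (cls i)
        exact ⟨by omega, hf3⟩
      · exfalso
        have : (0 : ℝ) < 2 ^ e / 2 := by positivity
        linarith
  · rintro θ ⟨hθ1, hθ2⟩
    refine ⟨hθ1, fun j => ⟨2 ^ (E j), fun i hij hi => ?_⟩⟩
    obtain ⟨e, he1, he2, he3⟩ := exists_level _ (E j) hi
    have hEj := hE j
    have hl : lam' i = lam i := by
      rw [hlam', if_pos ⟨e, he2, he3, by rw [hij]; omega⟩]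
    have hT0e : T 0 ≤ e := by
      rw [hN0T]
      have : N0 ≤ N0 ^ 2 := Nat.le_self_pow (by norm_num) _
      omega
    obtain ⟨p, hp1, hp2⟩ := hθ2 e hT0e i (by rw [hl]; exact he2) (by rw [hl]; exact he3)
    rw [hl] at hp2
    obtain ⟨hp3, hp4⟩ := h5 _ p hp1
    refine ⟨p, hp3, hp4.trans (Real.exp_le_exp.2 ?_), hp2⟩
    -- the bound for the prime
    obtain ⟨q, hq⟩ : ∃ q, q = stg T e := ⟨_, rfl⟩
    rw [← hq]
    have her : (0 : ℝ) < e := by exact_mod_cast (by omega : 0 < e)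
    have h12 := stg_le T e hT0e
    rw [← hq, hT] at h12
    have h13 : (4 : ℝ) ^ q ≤ (e : ℝ) ^ (ε / 2) := by
      have h14 : ((4 : ℝ) ^ k) ^ q ≤ e := by
        have h15 : (4 ^ k) ^ q ≤ e := (Nat.le_mul_of_pos_left _ (by omega)).trans h12
        exact_mod_cast h15
      have h15 : ((4 : ℝ) ^ q) = (((4 : ℝ) ^ k) ^ q) ^ (1 / (k : ℝ)) := by
        rw [← pow_mul, mul_comm k q, pow_mul, ← Real.rpow_natCast ((4 : ℝ) ^ q) k, ← Real.rpow_mul
          (by positivity), mul_one_div, div_self hk0.ne', Real.rpow_one]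
      rw [h15]
      calc (((4 : ℝ) ^ k) ^ q) ^ (1 / (k : ℝ)) ≤ (e : ℝ) ^ (1 / (k : ℝ)) := by gcongr
        _ ≤ (e : ℝ) ^ (ε / 2) := by
          apply Real.rpow_le_rpow_of_exponent_le
          · exact_mod_cast (by omega : 1 ≤ e)
          · rw [div_le_iff₀ hk0]
            rw [div_lt_iff₀ hε] at hk
            linarith
    have h14 : ((q / D + 1 : ℕ) : ℝ) ≤ 2 ^ q := by
      have h15 : q / D + 1 ≤ 2 ^ q := by
        have h16 : q / D ≤ q := Nat.div_le_self _ _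
        have h17 : q < 2 ^ q := Nat.lt_two_pow_self
        omega
      exact_mod_cast h15
    have h15 : (D : ℝ) * ((q / D + 1 : ℕ) : ℝ) / X q ≤ D / x0 * (e : ℝ) ^ (ε / 2) := by
      calc (D : ℝ) * ((q / D + 1 : ℕ) : ℝ) / X q ≤ D * 2 ^ q / X q := by
            have := hXp q
            gcongr
        _ = D / x0 * 4 ^ q := by
            rw [hX]
            have h16 : (4 : ℝ) ^ q = 2 ^ q * 2 ^ q := by
              rw [← mul_pow]
              norm_num
            rw [h16]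
            field_simp
        _ ≤ D / x0 * (e : ℝ) ^ (ε / 2) := by gcongr
    refine h15.trans ((hE0 e (by omega)).trans ?_)
    apply Real.rpow_le_rpow (by positivity) _ hε.le
    -- `e / 4 ≤ log (lam i)`
    have h16 : (e : ℝ) * Real.log 2 - Real.log 2 ≤ Real.log (lam i) := by
      have h17 := Real.log_le_log (by positivity) he2.le
      rw [Real.log_div (by positivity) (by norm_num), Real.log_pow] at h17
      exact h17
    have h17 : (1 : ℝ) / 2 ≤ Real.log 2 := by linarith [Real.log_two_gt_d9]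
    have h18 : (4 : ℝ) ≤ e := by exact_mod_cast (by omega : 4 ≤ e)
    nlinarith

/-- **full dimension**, version with logarithmic multiplicities -/
theorem dim_log (ε : ℝ) (hε : 0 < ε) : ∃ κ : ℝ, 0 < κ ∧ ∀ (ι : Type) (lam c : ι → ℝ) (cls : ι → ℕ),
    (∀ j, ∀ᶠ x : ℝ in atTop, ∃ F : Finset ι,
      (F.card : ℝ) ≤ κ * (1 / 2) ^ (j + 1) * Real.log (Real.log x) ∧
      ∀ i, cls i = j → x / 2 < lam i → lam i ≤ x → i ∈ F) →
    ∀ u v : ℝ, u < v →
    dimH {β : ℝ | β ∈ Set.Ioo u v ∧ ∀ j, ∃ R : ℝ, ∀ i, cls i = j → R < lam i → ∃ p : ℕ, p.Prime ∧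
      (p : ℝ) ≤ Real.exp (Real.log (lam i) ^ ε) ∧ (p : ℤ) ∣ ⌊β * lam i + c i⌋} = 1 := by
  obtain ⟨κ, hκ0, hκ⟩ := fam6 (ε / 2) (by positivity)
  refine ⟨κ / 2, by positivity, fun ι lam c cls hcount u v huv => ?_⟩
  apply le_antisymm
  · calc dimH _ ≤ dimH (Set.univ : Set ℝ) := dimH_mono (Set.subset_univ _)
      _ = 1 := Real.dimH_univ
  apply le_of_forall_lt
  intro a ha
  have ha' : a ≠ ∞ := ne_top_of_lt ha
  lift a to ℝ≥0 using ha' with q
  have hq1 : q < 1 := by exact_mod_cast ha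
  obtain ⟨d, hd1, hd2⟩ := exists_between hq1
  have hd0 : 0 < d := lt_of_le_of_lt bot_le hd1
  refine lt_of_lt_of_le (show (q : ℝ≥0∞) < d by exact_mod_cast hd1) ?_
  obtain ⟨ℓ, hℓ⟩ : ∃ ℓ : ℝ, ℓ = (v - u) / 3 := ⟨_, rfl⟩
  have hℓ0 : 0 < ℓ := by
    rw [hℓ]
    linarith
  set S : Set ℝ := {θ : ℝ | θ ∈ Set.Icc (0 : ℝ) 1 ∧ ∀ j, ∃ R : ℝ, ∀ i, cls i = j → R < ℓ * lam i →
    ∃ p : ℕ, p.Prime ∧ (p : ℝ) ≤ Real.exp (Real.log (ℓ * lam i) ^ (ε / 2)) ∧
      (p : ℤ) ∣ ⌊θ * (ℓ * lam i) + ((u + ℓ) * lam i + c i)⌋} with hS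
  have hdimS : (d : ℝ≥0∞) ≤ dimH S := by
    apply Pool.Agent.H541.LL.le_dimH_of_content d hd0 (1 / 12 : ℝ≥0∞) (by norm_num)
    intro V hV
    refine hκ d (by exact_mod_cast hd0) (by exact_mod_cast hd2) ι (fun i => ℓ * lam i)
      (fun i => (u + ℓ) * lam i + c i) cls ?_ V hV
    intro j
    have h1 : Tendsto (fun e : ℕ => (2 : ℝ) ^ e / ℓ) atTop atTop :=
      (tendsto_pow_atTop_atTop_of_one_lt (by norm_num : (1 : ℝ) < 2)).atTop_div_const hℓ0
    obtain ⟨N, hN⟩ := exists_nat_ge (1 + |Real.log ℓ|)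
    filter_upwards [h1.eventually (hcount j), eventually_ge_atTop (N + 2),
      h1.eventually_gt_atTop (Real.exp 1)] with e he heN he1
    obtain ⟨F, hF1, hF2⟩ := he
    refine ⟨F, hF1.trans ?_, fun i hi1 hi2 hi3 => hF2 i hi1 ?_ ?_⟩
    · have her : (N : ℝ) + 2 ≤ e := by exact_mod_cast heN
      have hN0 : (0 : ℝ) ≤ N := by positivity
      have h2 : Real.log ((2 : ℝ) ^ e / ℓ) ≤ (e : ℝ) ^ 2 := by
        rw [Real.log_div (by positivity) hℓ0.ne', Real.log_pow]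
        have h3 : Real.log 2 ≤ 1 := by linarith [Real.log_two_lt_d9]
        have h4 := neg_abs_le (Real.log ℓ)
        have h5 : (e : ℝ) * Real.log 2 ≤ e * 1 := by gcongr
        nlinarith
      have h3 : 1 < Real.log ((2 : ℝ) ^ e / ℓ) := by
        rw [Real.lt_log_iff_exp_lt (by positivity)]
        exact he1
      have h4 := Real.log_le_log (by linarith) h2
      rw [Real.log_pow] at h4
      push_cast at h4
      have h5 : 0 < κ * (1 / 2) ^ (j + 1) := by positivity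
      calc κ / 2 * (1 / 2) ^ (j + 1) * Real.log (Real.log ((2 : ℝ) ^ e / ℓ))
          ≤ κ / 2 * (1 / 2) ^ (j + 1) * (2 * Real.log e) := by gcongr
        _ = κ * (1 / 2) ^ (j + 1) * Real.log e := by ring
    · rw [div_div, div_lt_iff₀ (by positivity)]
      linarith
    · rw [le_div_iff₀ hℓ0]
      linarith
  have hanti : AntilipschitzWith (Real.toNNReal (1 / ℓ)) (fun θ : ℝ => (u + ℓ) + ℓ * θ) := by
    apply AntilipschitzWith.of_le_mul_dist
    intro x y
    rw [Real.coe_toNNReal _ (by positivity), Real.dist_eq, Real.dist_eq]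
    have e1 : (u + ℓ + ℓ * x) - (u + ℓ + ℓ * y) = ℓ * (x - y) := by ring
    rw [e1, abs_mul, abs_of_pos hℓ0]
    apply le_of_eq
    field_simp
  refine hdimS.trans ((hanti.le_dimH_image S).trans (dimH_mono ?_))
  rintro _ ⟨θ, ⟨⟨hθ0, hθ1⟩, hθ⟩, rfl⟩
  have hp1 : 0 ≤ ℓ * θ := mul_nonneg hℓ0.le hθ0
  have hp2 : ℓ * θ ≤ ℓ := by nlinarith
  refine ⟨⟨?_, ?_⟩, ?_⟩
  · simp only
    linarith
  · simp only
    rw [hℓ] at *
    linarith
  intro j
  obtain ⟨R, hR⟩ := hθ j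
  refine ⟨max (R / ℓ) (max (Real.exp 2) (max ℓ (1 / ℓ))), fun i hi1 hi2 => ?_⟩
  have hi3 : R / ℓ < lam i := lt_of_le_of_lt (le_max_left _ _) hi2
  have hi4 : Real.exp 2 < lam i := lt_of_le_of_lt ((le_max_left _ _).trans (le_max_right _ _)) hi2
  have hi5 : ℓ < lam i := lt_of_le_of_lt ((le_max_left _ _).trans ((le_max_right _ _).trans
    (le_max_right _ _))) hi2
  have hi6 : 1 / ℓ < lam i := lt_of_le_of_lt ((le_max_right _ _).trans ((le_max_right _ _).trans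
    (le_max_right _ _))) hi2
  have hlam0 : 0 < lam i := (Real.exp_pos 2).trans hi4
  rw [div_lt_iff₀ hℓ0] at hi3 hi6
  obtain ⟨p, hp3, hp4, hp5⟩ := hR i hi1 (by linarith)
  refine ⟨p, hp3, hp4.trans (Real.exp_le_exp.2 ?_), ?_⟩
  · have h2 : 2 < Real.log (lam i) := by
      rw [Real.lt_log_iff_exp_lt hlam0]
      exact hi4
    have h3 : Real.log (ℓ * lam i) ≤ Real.log (lam i) ^ 2 := by
      rw [Real.log_mul hℓ0.ne' hlam0.ne']
      have h4 := Real.log_le_log hℓ0 hi5.le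
      nlinarith
    have h4 : 0 ≤ Real.log (ℓ * lam i) := by
      apply Real.log_nonneg
      linarith
    calc Real.log (ℓ * lam i) ^ (ε / 2) ≤ (Real.log (lam i) ^ 2) ^ (ε / 2) := by gcongr
      _ = Real.log (lam i) ^ ε := by
        rw [← Real.rpow_natCast, ← Real.rpow_mul (by linarith)]
        congr 1
        push_cast
        ring
  · have hval : (u + ℓ + ℓ * θ) * lam i + c i = θ * (ℓ * lam i) + ((u + ℓ) * lam i + c i) := by ring
    simp only [hval]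
    exact hp5

end Pool.Agent.H541.T1
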