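import Pool.Agent.H541.T1.Dbl
import Pool.Agent.H541.T1.Avoid

set_option autoImplicit false

/-!
Versions of the main theorems for sequences of functions `f j t n` which are close to `t * lam j n`.
-/

namespace Pool.Agent.H541.T1

open Finset Filter Topology Metric
open scoped ENNReal NNReal

theorem near_comp {J : Type} [Countable J] (ε : ℝ) (hε : 0 < ε) (lam : J → ℕ → ℝ)
    (hm : ∀ j, Sparse (lam j)) (hlam : ∀ j, Tendsto (lam j) atTop atTop)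
    (hgrow : ∀ j, ∀ᶠ n : ℕ in atTop, √(n : ℝ) ≤ Real.log (lam j n))
    (hgrow2 : ∀ j, ∀ᶠ n : ℕ in atTop, Real.log (lam j n) ≤ (n : ℝ) ^ 2) :
    ∃ η : J → ℝ, (∀ j, 0 < η j) ∧ ∀ (f : J → ℝ → ℕ → ℝ) (K : J → ℝ),
      (∀ j t, 0 < t → ∀ᶠ n in atTop, |f j t n - t * lam j n| ≤ K j) → ∀ u v : ℝ, 0 ≤ u → u < v →
    dimH {t : ℝ | t ∈ Set.Ioo u v ∧ ∀ j, ∀ᶠ n : ℕ in atTop, ∀ a : ℤ,
      |(a : ℝ) - f j t n| ≤ η j * Real.log n →
      ∃ p : ℕ, p.Prime ∧ (p : ℝ) ≤ Real.exp ((n : ℝ) ^ ε) ∧ (p : ℤ) ∣ a ∧ (p : ℤ) < a} = 1 := by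
  obtain ⟨η, hη0, hη⟩ := dim_comp ε hε lam hm hlam hgrow hgrow2
  refine ⟨fun j => η j / 2, fun j => by have := hη0 j; positivity, fun f K hf u v hu huv => ?_⟩
  apply le_antisymm
  · calc dimH _ ≤ dimH (Set.univ : Set ℝ) := dimH_mono (Set.subset_univ _)
      _ = 1 := Real.dimH_univ
  rw [← hη (fun _ _ => 0) (fun j => by simp) u v hu huv]
  apply dimH_mono
  rintro t ⟨ht, h⟩
  refine ⟨ht, fun j => ?_⟩
  have ht0 : 0 < t := lt_of_le_of_lt hu ht.1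
  have hlog : Tendsto (fun n : ℕ => η j / 2 * Real.log n) atTop atTop :=
    (Real.tendsto_log_atTop.comp tendsto_natCast_atTop_atTop).const_mul_atTop (by have := hη0 j; positivity)
  filter_upwards [h j, hf j t ht0, hlog.eventually_ge_atTop (K j + 1)] with n h1 h2 h3 a ha
  apply h1 a
  rw [add_zero]
  have e1 := Int.floor_le (t * lam j n)
  have e2 := Int.lt_floor_add_one (t * lam j n)
  rw [abs_le] at ha h2 ⊢
  constructor <;> linarith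

theorem near_fam {J : Type} [Countable J] (lam z : J → ℕ → ℝ)
    (hm : ∀ j, Sparse (lam j)) (hlam : ∀ j, Tendsto (lam j) atTop atTop)
    (hz : ∀ j, Tendsto (z j) atTop atTop) (f : J → ℝ → ℕ → ℝ) (K : J → ℝ)
    (hf : ∀ j t, 0 < t → ∀ᶠ n in atTop, |f j t n - t * lam j n| ≤ K j) (u v : ℝ) (hu : 0 ≤ u) (huv : u < v) :
    dimH {t : ℝ | t ∈ Set.Ioo u v ∧ ∀ (j : J) (h : ℤ) (W : ℕ), ∀ᶠ n in atTop, ∃ p : ℕ, p.Prime ∧ W < p ∧
      (p : ℝ) ≤ z j n ∧ (p : ℤ) ∣ ⌊f j t n⌋ + h} = 1 := by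
  apply le_antisymm
  · calc dimH _ ≤ dimH (Set.univ : Set ℝ) := dimH_mono (Set.subset_univ _)
      _ = 1 := Real.dimH_univ
  rw [← dim_fam (J := J × ℤ) (fun j => lam j.1) (fun _ _ => 0) (fun j => z j.1) (fun j _ _ => -j.2)
    (fun j => hm j.1) (fun j => hlam j.1) (fun j => hz j.1) u v huv]
  apply dimH_mono
  rintro t ⟨ht, h⟩
  refine ⟨ht, fun j h0 W => ?_⟩
  have ht0 : 0 < t := lt_of_le_of_lt hu ht.1
  obtain ⟨N, hN⟩ : ∃ N : ℕ, K j + 1 ≤ N := exists_nat_ge _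
  have h1 : ∀ᶠ n in atTop, ∀ e ∈ Finset.Icc (-(N : ℤ)) N, ∃ p : ℕ, p.Prime ∧ W < p ∧
      (p : ℝ) ≤ z j n ∧ (p : ℤ) ∣ ⌊t * lam j n + 0⌋ - -(h0 + e) := by
    rw [Filter.eventually_all_finset]
    intro e _
    exact h (j, h0 + e) W
  filter_upwards [h1, hf j t ht0] with n h2 h3
  have e1 := Int.floor_le (t * lam j n)
  have e2 := Int.lt_floor_add_one (t * lam j n)
  have e3 := Int.floor_le (f j t n)
  have e4 := Int.lt_floor_add_one (f j t n)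
  rw [abs_le] at h3
  have e5 : ((⌊f j t n⌋ - ⌊t * lam j n⌋ : ℤ) : ℝ) ≤ N := by
    push_cast
    linarith
  have e6 : ((-(N : ℤ) : ℤ) : ℝ) ≤ ((⌊f j t n⌋ - ⌊t * lam j n⌋ : ℤ) : ℝ) := by
    push_cast
    linarith
  have e7 : ⌊f j t n⌋ - ⌊t * lam j n⌋ ≤ (N : ℤ) := by exact_mod_cast e5
  have e8 : -(N : ℤ) ≤ ⌊f j t n⌋ - ⌊t * lam j n⌋ := by exact_mod_cast e6
  obtain ⟨p, hp1, hp2, hp3, hp4⟩ := h2 (⌊f j t n⌋ - ⌊t * lam j n⌋) (Finset.mem_Icc.2 ⟨e8, e7⟩)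
  refine ⟨p, hp1, hp2, hp3, ?_⟩
  rw [add_zero] at hp4
  have e9 : ⌊t * lam j n⌋ - -(h0 + (⌊f j t n⌋ - ⌊t * lam j n⌋)) = ⌊f j t n⌋ + h0 := by ring
  rwa [e9] at hp4

/-- no prime factor of an integer congruent to one modulo `Z!` is at most `Z` -/
lemma no_small (Z : ℕ) (x : ℝ) (w : ℤ) (h1 : (Z.factorial : ℝ) * w + 1 ≤ x)
    (h2 : x < (Z.factorial : ℝ) * w + 2) (p : ℕ) (hp : p.Prime) (hpZ : p ≤ Z) : ¬ (p : ℤ) ∣ ⌊x⌋ := by
  intro hdvd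
  have hfl : ⌊x⌋ = (Z.factorial : ℤ) * w + 1 := by
    rw [Int.floor_eq_iff]
    push_cast
    constructor
    · linarith
    · linarith
  rw [hfl] at hdvd
  have h6 : (p : ℤ) ∣ (Z.factorial : ℤ) * w := by
    have h7 : p ∣ Z.factorial := (Nat.Prime.dvd_factorial hp).2 hpZ
    have h8 : (p : ℤ) ∣ (Z.factorial : ℤ) := by exact_mod_cast h7
    exact h8.mul_right w
  have h7 : (p : ℤ) ∣ 1 := (dvd_add_right h6).1 hdvd
  have h8 : p ∣ 1 := by exact_mod_cast h7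
  exact hp.one_lt.ne' (Nat.dvd_one.1 h8)

/-- bounded prime factors: the dimension is smaller than one -/
theorem near_bounded (lam c : ℕ → ℝ) (hpos : ∀ n, 0 < lam n) (hlam : Tendsto lam atTop atTop) (C : ℝ)
    (hC : ∀ n, lam (n + 1) ≤ C * lam n) (f : ℝ → ℕ → ℝ)
    (hf : ∀ t, 0 < t → ∀ᶠ n in atTop, |f t n - (t * lam n + c n)| ≤ 1 / 8) (Z : ℕ) :
    dimH {t : ℝ | 0 < t ∧ ∀ᶠ n in atTop, ∃ p : ℕ, p.Prime ∧ p ≤ Z ∧ (p : ℤ) ∣ ⌊f t n⌋} < 1 := by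
  have hP : (1 : ℝ) ≤ (Z.factorial : ℝ) := by exact_mod_cast Nat.factorial_pos Z
  refine lt_of_le_of_lt (dimH_mono ?_) (dim_avoid lam hpos hlam C hC
    (fun n => {s | ∃ w : ℤ, (Z.factorial : ℝ) * w + 5 / 4 ≤ s + c n ∧ s + c n < (Z.factorial : ℝ) * w + 7 / 4})
    (Z.factorial : ℝ) (1 / 2) hP (by norm_num) (by norm_num) ?_)
  · rintro t ⟨ht, h⟩
    rw [Set.mem_ofPred_eq]
    filter_upwards [h, hf t ht] with n h1 h2
    rintro ⟨w, h3, h4⟩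
    obtain ⟨p, hp1, hp2, hp3⟩ := h1
    rw [abs_le] at h2
    exact no_small Z (f t n) w (by linarith) (by linarith) p hp1 hp2 hp3
  · intro n x
    obtain ⟨w, hw⟩ : ∃ w : ℤ, w = ⌈(x + c n - 5 / 4) / Z.factorial⌉ := ⟨_, rfl⟩
    have h1 := Int.le_ceil ((x + c n - 5 / 4) / Z.factorial)
    have h2 := (Int.ceil_lt_add_one ((x + c n - 5 / 4) / Z.factorial)).le
    rw [← hw] at h1 h2
    rw [div_le_iff₀ (by linarith)] at h1
    have h3 : (Z.factorial : ℝ) * w ≤ Z.factorial * ((x + c n - 5 / 4) / Z.factorial + 1) := by gcongr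
    have h4 : (Z.factorial : ℝ) * ((x + c n - 5 / 4) / Z.factorial + 1) = (x + c n - 5 / 4) + Z.factorial := by
      field_simp
    refine ⟨Z.factorial * w + 5 / 4 - c n, by linarith, by linarith, fun s hs => ⟨w, ?_, ?_⟩⟩
    · have := hs.1
      linarith
    · have := hs.2
      linarith

/-- bounded prime factors of one of two numbers with an irrational ratio -/
theorem near_bounded_pair (lam : ℕ → ℝ) (hpos : ∀ n, 0 < lam n) (hlam : Tendsto lam atTop atTop) (C : ℝ)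
    (hC : ∀ n, lam (n + 1) ≤ C * lam n) (γ : ℝ) (hγ : Irrational γ) (hγ1 : |γ| ≤ 1) (f g : ℝ → ℕ → ℝ)
    (hf : ∀ t, 0 < t → ∀ᶠ n in atTop, |f t n - t * lam n| ≤ 1 / 8)
    (hg : ∀ t, 0 < t → ∀ᶠ n in atTop, |g t n - t * lam n * γ| ≤ 1 / 8) (Z : ℕ) :
    dimH {t : ℝ | 0 < t ∧ ∀ᶠ n in atTop, ∃ p : ℕ, p.Prime ∧ p ≤ Z ∧
      ((p : ℤ) ∣ ⌊f t n⌋ ∨ (p : ℤ) ∣ ⌊g t n⌋)} < 1 := by
  obtain ⟨L, hL, hLs⟩ := line_box γ hγ Z.factorial (Nat.factorial_pos Z)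
  refine lt_of_le_of_lt (dimH_mono ?_) (dim_avoid lam hpos hlam C hC
    (fun _ => {s | (∃ w : ℤ, (Z.factorial : ℝ) * w + 5 / 4 ≤ s ∧ s < (Z.factorial : ℝ) * w + 7 / 4) ∧
      ∃ w : ℤ, (Z.factorial : ℝ) * w + 5 / 4 ≤ s * γ ∧ s * γ < (Z.factorial : ℝ) * w + 7 / 4})
    L (1 / 16) hL (by norm_num) (by norm_num) ?_)
  · rintro t ⟨ht, h⟩
    rw [Set.mem_ofPred_eq]
    filter_upwards [h, hf t ht, hg t ht] with n h1 h2 h3
    rintro ⟨⟨w, h4, h5⟩, w', h6, h7⟩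
    obtain ⟨p, hp1, hp2, hp3⟩ := h1
    rw [abs_le] at h2 h3
    rcases hp3 with hp3 | hp3
    · exact no_small Z (f t n) w (by linarith) (by linarith) p hp1 hp2 hp3
    · exact no_small Z (g t n) w' (by linarith) (by linarith) p hp1 hp2 hp3
  · intro n x
    obtain ⟨s, h1, h2, ⟨w, h3⟩, w', h4⟩ := hLs x
    refine ⟨s, h1, h2, fun s' hs' => ⟨⟨w, ?_, ?_⟩, w', ?_, ?_⟩⟩
    · have := hs'.1
      linarith
    · have := hs'.2
      linarith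
    · have e1 := hs'.1
      have e2 := hs'.2
      rw [abs_le] at h4 hγ1
      have e3 : -(1 / 16) ≤ (s' - s) * γ := by nlinarith
      nlinarith
    · have e1 := hs'.1
      have e2 := hs'.2
      rw [abs_le] at h4 hγ1
      have e3 : (s' - s) * γ ≤ 1 / 16 := by nlinarith
      nlinarith

end Pool.Agent.H541.T1
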