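import Pool.Agent.H541.T1.Near

set_option autoImplicit false

/-!
Transfer of the dimension along `t ↦ t ^ 2`.
-/

namespace Pool.Agent.H541.T1

open Finset Filter Topology Metric
open scoped ENNReal NNReal

lemma dimH_sq_one (Q : ℝ → Prop) (u v : ℝ) (hu : 0 ≤ u)
    (h : dimH {β : ℝ | β ∈ Set.Ioo (u ^ 2) (v ^ 2) ∧ Q β} = 1) (hv : 0 < v) :
    dimH {t : ℝ | t ∈ Set.Ioo u v ∧ Q (t ^ 2)} = 1 := by
  apply le_antisymm
  · calc dimH _ ≤ dimH (Set.univ : Set ℝ) := dimH_mono (Set.subset_univ _)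
      _ = 1 := Real.dimH_univ
  rw [← h]
  have h1 : {β : ℝ | β ∈ Set.Ioo (u ^ 2) (v ^ 2) ∧ Q β} ⊆
      (fun t : ℝ => t ^ 2) '' {t : ℝ | t ∈ Set.Ioo u v ∧ Q (t ^ 2)} := by
    rintro β ⟨⟨h2, h3⟩, h4⟩
    have h5 : 0 ≤ β := (sq_nonneg u).trans h2.le
    refine ⟨√β, ⟨⟨?_, ?_⟩, ?_⟩, Real.sq_sqrt h5⟩
    · exact Real.lt_sqrt_of_sq_lt h2
    · rw [Real.sqrt_lt' hv]
      exact h3
    · rw [Real.sq_sqrt h5]
      exact h4
  refine (dimH_mono h1).trans ?_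
  have h2 : LipschitzOnWith (2 * v).toNNReal (fun t : ℝ => t ^ 2) {t : ℝ | t ∈ Set.Ioo u v ∧ Q (t ^ 2)} := by
    apply LipschitzOnWith.of_dist_le_mul
    rintro x ⟨hx, -⟩ y ⟨hy, -⟩
    rw [Real.dist_eq, Real.dist_eq, Real.coe_toNNReal _ (by linarith)]
    have e1 : x ^ 2 - y ^ 2 = (x + y) * (x - y) := by ring
    rw [e1, abs_mul]
    gcongr
    rw [abs_of_nonneg (by linarith [hx.1, hy.1])]
    linarith [hx.2, hy.2]
  exact h2.dimH_image_le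

lemma dimH_sq_lt (Q : ℝ → Prop) (h : dimH {β : ℝ | 0 < β ∧ Q β} < 1) :
    dimH {t : ℝ | 0 < t ∧ Q (t ^ 2)} < 1 := by
  refine lt_of_le_of_lt ?_ h
  have h1 : {t : ℝ | 0 < t ∧ Q (t ^ 2)} ⊆ (fun β : ℝ => √β) '' {β : ℝ | 0 < β ∧ Q β} := by
    rintro t ⟨h2, h3⟩
    exact ⟨t ^ 2, ⟨by positivity, h3⟩, Real.sqrt_sq h2.le⟩
  refine (dimH_mono h1).trans ?_
  apply dimH_image_le_of_locally_lipschitzOn
  rintro x ⟨hx, -⟩
  obtain ⟨K, s, hs, hK⟩ := (Real.contDiffAt_sqrt (n := 1) hx.ne').exists_lipschitzOnWith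
  exact ⟨K, s, mem_nhdsWithin_of_mem_nhds hs, hK⟩

end Pool.Agent.H541.T1
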